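import Pool.Agent.TH794.FG.Four
import Pool.Agent.TH794.LL2.Meas

/-! From Poisson integrals to the time evolution. -/

set_option autoImplicit false

open scoped BigOperators Topology
open MeasureTheory Filter Set

namespace Pool.Agent.TH794.FG

open Pool.Agent.TH794.LL2

theorem ker_cont (t : ℝ) (ht : 0 < t) : Continuous fun u : ℝ => t / (u ^ 2 + t ^ 2) := by
  refine continuous_const.div (by fun_prop) fun u => ?_
  positivity

theorem ker_shift (t x : ℝ) (ht : 0 < t) : Integrable fun E : ℝ => t / ((x - E) ^ 2 + t ^ 2) := by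
  have h1 := (pk_int t ht).comp_sub_left x
  exact h1

theorem ker_shift_int (t x : ℝ) (ht : 0 < t) :
    ∫ E : ℝ, t / ((x - E) ^ 2 + t ^ 2) = Real.pi := by
  have h1 := integral_sub_left_eq_self (fun u : ℝ => t / (u ^ 2 + t ^ 2)) volume x
  rw [pk_integral t ht] at h1
  exact h1

/-- the kernel on the product -/
theorem prod_int (m : Measure ℝ) [IsFiniteMeasure m] (t s : ℝ) (ht : 0 < t) :
    Integrable (fun p : ℝ × ℝ => Complex.exp (Complex.I * ((-s : ℝ) * p.1)) *
      ((t / ((p.2 - p.1) ^ 2 + t ^ 2) : ℝ) : ℂ)) (volume.prod m) := by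
  have hc : Continuous fun p : ℝ × ℝ => Complex.exp (Complex.I * ((-s : ℝ) * p.1)) *
      ((t / ((p.2 - p.1) ^ 2 + t ^ 2) : ℝ) : ℂ) := by
    have h1 : Continuous fun p : ℝ × ℝ => t / ((p.2 - p.1) ^ 2 + t ^ 2) :=
      (ker_cont t ht).comp (by fun_prop : Continuous fun p : ℝ × ℝ => p.2 - p.1)
    have h2 : Continuous fun p : ℝ × ℝ => ((t / ((p.2 - p.1) ^ 2 + t ^ 2) : ℝ) : ℂ) :=
      Complex.continuous_ofReal.comp h1
    fun_prop
  have hn : ∀ E x : ℝ, ‖Complex.exp (Complex.I * ((-s : ℝ) * E)) *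
      ((t / ((x - E) ^ 2 + t ^ 2) : ℝ) : ℂ)‖ = t / ((x - E) ^ 2 + t ^ 2) := by
    intro E x
    have h1 : Complex.I * ((-s : ℝ) * E) = ((-s * E : ℝ) : ℂ) * Complex.I := by
      push_cast
      ring
    rw [norm_mul, h1, Complex.norm_exp_ofReal_mul_I, one_mul, Complex.norm_real,
      Real.norm_of_nonneg (by positivity)]
  rw [integrable_prod_iff' hc.aestronglyMeasurable]
  constructor
  · refine Eventually.of_forall fun x => ?_
    refine Integrable.mono' (ker_shift t x ht) ?_ (Eventually.of_forall fun E => (hn E x).le)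
    exact (hc.comp (by fun_prop : Continuous fun E : ℝ => (E, x))).aestronglyMeasurable
  · simp only [hn]
    have h1 : ∀ x : ℝ, ∫ E : ℝ, t / ((x - E) ^ 2 + t ^ 2) = Real.pi := fun x =>
      ker_shift_int t x ht
    simp only [h1]
    exact integrable_const _

/-- the Poisson integral is integrable -/
theorem Po_integrable (m : Measure ℝ) [IsFiniteMeasure m] (t : ℝ) (ht : 0 < t) :
    Integrable (fun E : ℝ => Po m E t) := by
  have h1 := (prod_int m t 0 ht).integral_prod_left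
  have h2 := h1.re
  refine h2.congr (Eventually.of_forall fun E => ?_)
  simp only
  have h3 : ∀ x : ℝ, Complex.exp (Complex.I * ((-(0 : ℝ) : ℝ) * E)) *
      ((t / ((x - E) ^ 2 + t ^ 2) : ℝ) : ℂ) = ((t / ((x - E) ^ 2 + t ^ 2) : ℝ) : ℂ) := by
    intro x
    simp
  have h4 : ∫ x : ℝ, Complex.exp (Complex.I * ((-(0 : ℝ) : ℝ) * E)) *
      ((t / ((x - E) ^ 2 + t ^ 2) : ℝ) : ℂ) ∂m = ((Po m E t : ℝ) : ℂ) := by
    rw [integral_congr_ae (Eventually.of_forall h3), integral_complex_ofReal]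
    rfl
  rw [h4]
  simp

/-- the Fourier transform of the Poisson integral -/
theorem Po_ft (m : Measure ℝ) [IsFiniteMeasure m] (t s : ℝ) (ht : 0 < t) :
    ∫ E : ℝ, Complex.exp (Complex.I * ((-s : ℝ) * E)) * ((Po m E t : ℝ) : ℂ) =
      ((Real.pi * Real.exp (-(t * |s|)) : ℝ) : ℂ) *
        ∫ x : ℝ, Complex.exp (Complex.I * ((-s : ℝ) * x)) ∂m := by
  have h1 : ∀ E : ℝ, Complex.exp (Complex.I * ((-s : ℝ) * E)) * ((Po m E t : ℝ) : ℂ) =
      ∫ x : ℝ, Complex.exp (Complex.I * ((-s : ℝ) * E)) *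
        ((t / ((x - E) ^ 2 + t ^ 2) : ℝ) : ℂ) ∂m := by
    intro E
    rw [integral_const_mul, integral_complex_ofReal]
    rfl
  have hsw := integral_integral_swap (f := fun E x : ℝ =>
    Complex.exp (Complex.I * ((-s : ℝ) * E)) * ((t / ((x - E) ^ 2 + t ^ 2) : ℝ) : ℂ))
    (prod_int m t s ht)
  rw [integral_congr_ae (Eventually.of_forall h1)]
  refine hsw.trans ?_
  rw [← integral_const_mul]
  refine integral_congr_ae (Eventually.of_forall fun x => ?_)
  simp only
  have h2 : ∀ E : ℝ, Complex.exp (Complex.I * ((-s : ℝ) * E)) *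
      ((t / ((x - E) ^ 2 + t ^ 2) : ℝ) : ℂ) =
      (fun u : ℝ => Complex.exp (Complex.I * ((-s : ℝ) * x)) *
        (Complex.exp (Complex.I * ((-s : ℝ) * u)) * ((t / (u ^ 2 + t ^ 2) : ℝ) : ℂ))) (E - x) := by
    intro E
    simp only
    have a1 : (x - E) ^ 2 + t ^ 2 = (E - x) ^ 2 + t ^ 2 := by ring
    rw [a1, ← mul_assoc (Complex.exp _) (Complex.exp _), ← Complex.exp_add]
    congr 2
    push_cast
    ring
  rw [integral_congr_ae (Eventually.of_forall h2), integral_sub_right_eq_self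
    (fun u : ℝ => Complex.exp (Complex.I * ((-s : ℝ) * x)) *
        (Complex.exp (Complex.I * ((-s : ℝ) * u)) * ((t / (u ^ 2 + t ^ 2) : ℝ) : ℂ))) x,
    integral_const_mul, cauchy_ft t ht (-s), abs_neg, mul_comm]

theorem dirac_Po (x E t : ℝ) : Po (Measure.dirac x) E t = t / ((x - E) ^ 2 + t ^ 2) := by
  unfold Po
  rw [integral_dirac]

/-- **the time evolution from the Poisson integrals** -/
theorem decay (m : Measure ℝ) [IsFiniteMeasure m] (hm1 : m.real univ ≤ 1) (t Γ Es W1 e3 : ℝ)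
    (ht : 0 < t) (hΓ : t ≤ Γ) (hW1 : 0 < W1) (he3 : 0 ≤ e3)
    (h : ∀ E : ℝ, |E - Es| ≤ W1 → |Po m E t - Γ / ((Es - E) ^ 2 + Γ ^ 2)| ≤ e3) (s : ℝ) :
    ‖(∫ x : ℝ, Complex.exp (Complex.I * ((-s : ℝ) * x)) ∂m) -
      Complex.exp (Complex.I * ((-s : ℝ) * Es) + ((-((Γ - t) * |s|) : ℝ) : ℂ))‖ ≤
      Real.exp (t * |s|) * (2 * W1 * e3 + 4 * Γ / W1) := by
  have hpi := Real.pi_pos
  have hΓ0 : 0 < Γ := ht.trans_le hΓ
  obtain ⟨p, hp⟩ : ∃ p : ℝ → ℝ, p = fun E => Po m E t := ⟨_, rfl⟩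
  obtain ⟨l, hl⟩ : ∃ l : ℝ → ℝ, l = fun E => Po (Measure.dirac Es) E Γ := ⟨_, rfl⟩
  have hpi' : Integrable p := by rw [hp]; exact Po_integrable m t ht
  have hli : Integrable l := by rw [hl]; exact Po_integrable _ Γ hΓ0
  have hlE : ∀ E, l E = Γ / ((Es - E) ^ 2 + Γ ^ 2) := fun E => by rw [hl]; exact dirac_Po _ _ _
  -- the total masses
  have hpI : ∫ E, p E = Real.pi * m.real univ := by
    have h1 := Po_ft m t 0 ht
    simp only [neg_zero, Complex.ofReal_zero, zero_mul, mul_zero, Complex.exp_zero, one_mul,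
      abs_zero, Real.exp_zero, mul_one, integral_const] at h1
    rw [integral_complex_ofReal] at h1
    rw [hp]
    rw [Complex.real_smul, mul_one] at h1
    exact_mod_cast h1
  have hlI : ∫ E, l E = Real.pi := by
    have h1 : l = fun E => Γ / ((Es - E) ^ 2 + Γ ^ 2) := funext hlE
    rw [h1]
    exact ker_shift_int Γ Es hΓ0
  -- the bound of the difference
  have hdom : ∀ E, |p E - l E| ≤ (p E - l E) + 2 * ((Icc (Es - W1) (Es + W1)).indicator
      (fun _ => e3) E + 2 * Γ / W1 * (W1 / ((Es - E) ^ 2 + W1 ^ 2))) := by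
    intro E
    have h0 : 0 ≤ 2 * Γ / W1 * (W1 / ((Es - E) ^ 2 + W1 ^ 2)) := by positivity
    have hI0 : 0 ≤ (Icc (Es - W1) (Es + W1)).indicator (fun _ => e3) E :=
      indicator_nonneg (fun _ _ => he3) E
    rcases le_or_gt (l E) (p E) with h1 | h1
    · rw [abs_of_nonneg (by linarith)]
      linarith
    · rw [abs_of_neg (by linarith)]
      rcases le_or_gt |E - Es| W1 with h2 | h2
      · have h3 := (abs_le.1 (h E h2)).1
        rw [← hlE E] at h3
        have h4 : (Icc (Es - W1) (Es + W1)).indicator (fun _ => e3) E = e3 := by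
          apply indicator_of_mem
          have := abs_le.1 h2
          exact ⟨by linarith [this.1], by linarith [this.2]⟩
        rw [h4]
        have h5 : p E = Po m E t := by rw [hp]
        rw [← h5] at h3
        linarith
      · have h3 : 0 ≤ p E := by
          rw [hp]
          unfold Po
          exact integral_nonneg fun x => by positivity
        have h4 : l E ≤ 2 * Γ / W1 * (W1 / ((Es - E) ^ 2 + W1 ^ 2)) := by
          rw [hlE, ← mul_div_assoc, div_mul_cancel₀ _ hW1.ne', div_le_div_iff₀ (by positivity)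
            (by positivity)]
          have h5 : W1 ^ 2 ≤ (Es - E) ^ 2 := by
            rw [← sq_abs (Es - E), abs_sub_comm]
            exact pow_le_pow_left₀ hW1.le h2.le 2
          have h6 : (Es - E) ^ 2 + W1 ^ 2 ≤ 2 * ((Es - E) ^ 2 + Γ ^ 2) := by
            have := sq_nonneg Γ
            linarith
          have := mul_le_mul_of_nonneg_left h6 hΓ0.le
          linarith
        linarith
  have hIi : Integrable ((Icc (Es - W1) (Es + W1)).indicator (fun _ : ℝ => e3)) := by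
    rw [integrable_indicator_iff measurableSet_Icc]
    exact integrableOn_const (by simp)
  have hwi : Integrable fun E : ℝ => 2 * Γ / W1 * (W1 / ((Es - E) ^ 2 + W1 ^ 2)) :=
    (ker_shift W1 Es hW1).const_mul _
  have hL1 : ∫ E, |p E - l E| ≤ 2 * (2 * W1 * e3 + 2 * Γ / W1 * Real.pi) := by
    have b1 : ∫ E, |p E - l E| ≤ ∫ E, ((p E - l E) + 2 * ((Icc (Es - W1) (Es + W1)).indicator
      (fun _ => e3) E + 2 * Γ / W1 * (W1 / ((Es - E) ^ 2 + W1 ^ 2)))) :=
      integral_mono (hpi'.sub hli).abs ((hpi'.sub hli).add ((hIi.add hwi).const_mul 2)) hdom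
    have b2 : ∫ E, ((p E - l E) + 2 * ((Icc (Es - W1) (Es + W1)).indicator
      (fun _ => e3) E + 2 * Γ / W1 * (W1 / ((Es - E) ^ 2 + W1 ^ 2)))) =
      (∫ E, (p E - l E)) + ∫ E, 2 * ((Icc (Es - W1) (Es + W1)).indicator
      (fun _ => e3) E + 2 * Γ / W1 * (W1 / ((Es - E) ^ 2 + W1 ^ 2))) :=
      integral_add (hpi'.sub hli) ((hIi.add hwi).const_mul 2)
    have b3 : ∫ E, (p E - l E) = Real.pi * m.real univ - Real.pi := by
      rw [← hpI, ← hlI]
      exact integral_sub hpi' hli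
    have b4 : ∫ E, ((Icc (Es - W1) (Es + W1)).indicator
      (fun _ => e3) E + 2 * Γ / W1 * (W1 / ((Es - E) ^ 2 + W1 ^ 2))) =
      (∫ E, (Icc (Es - W1) (Es + W1)).indicator (fun _ => e3) E) +
        ∫ E, 2 * Γ / W1 * (W1 / ((Es - E) ^ 2 + W1 ^ 2)) := integral_add hIi hwi
    have e2 : volume.real (Icc (Es - W1) (Es + W1)) = 2 * W1 := by
      rw [Real.volume_real_Icc_of_le (by linarith)]
      ring
    have b5 : ∫ E, (Icc (Es - W1) (Es + W1)).indicator (fun _ => e3) E = 2 * W1 * e3 := by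
      rw [integral_indicator measurableSet_Icc, setIntegral_const, e2, smul_eq_mul]
    rw [b2, b3, integral_const_mul, b4, b5, integral_const_mul, ker_shift_int W1 Es hW1] at b1
    have e3 := mul_le_mul_of_nonneg_left hm1 hpi.le
    linarith
  -- the Fourier transforms
  have f1 := Po_ft m t s ht
  have f2 := Po_ft (Measure.dirac Es) Γ s hΓ0
  rw [integral_dirac] at f2
  have hexp : ∀ E : ℝ, ‖Complex.exp (Complex.I * ((-s : ℝ) * E))‖ = 1 := by
    intro E
    have h1 : Complex.I * ((-s : ℝ) * E) = ((-s * E : ℝ) : ℂ) * Complex.I := by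
      push_cast
      ring
    rw [h1, Complex.norm_exp_ofReal_mul_I]
  have g1 : Integrable fun E : ℝ => Complex.exp (Complex.I * ((-s : ℝ) * E)) *
      ((p E : ℝ) : ℂ) := by
    refine Integrable.mono hpi' ((Continuous.aestronglyMeasurable (by fun_prop)).mul
      hpi'.ofReal.aestronglyMeasurable) (Eventually.of_forall fun E => ?_)
    rw [norm_mul, hexp, one_mul, Complex.norm_real]
  have g2 : Integrable fun E : ℝ => Complex.exp (Complex.I * ((-s : ℝ) * E)) *
      ((l E : ℝ) : ℂ) := by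
    refine Integrable.mono hli ((Continuous.aestronglyMeasurable (by fun_prop)).mul
      hli.ofReal.aestronglyMeasurable) (Eventually.of_forall fun E => ?_)
    rw [norm_mul, hexp, one_mul, Complex.norm_real]
  have h3 : ‖(∫ E : ℝ, Complex.exp (Complex.I * ((-s : ℝ) * E)) * ((p E : ℝ) : ℂ)) -
      ∫ E : ℝ, Complex.exp (Complex.I * ((-s : ℝ) * E)) * ((l E : ℝ) : ℂ)‖ ≤
      2 * (2 * W1 * e3 + 2 * Γ / W1 * Real.pi) := by
    rw [← integral_sub g1 g2]
    refine (norm_integral_le_integral_norm _).trans (le_trans (le_of_eq ?_) hL1)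
    refine integral_congr_ae (Eventually.of_forall fun E => ?_)
    simp only
    rw [← mul_sub, norm_mul, hexp, one_mul, ← Complex.ofReal_sub, Complex.norm_real,
      Real.norm_eq_abs]
  rw [hp, hl] at h3
  simp only at h3
  rw [f1, f2] at h3
  obtain ⟨I, hI⟩ : ∃ I, I = ∫ x : ℝ, Complex.exp (Complex.I * ((-s : ℝ) * x)) ∂m := ⟨_, rfl⟩
  rw [← hI] at h3 ⊢
  obtain ⟨X, hX⟩ : ∃ X, X = Complex.exp (Complex.I * ((-s : ℝ) * Es)) := ⟨_, rfl⟩
  rw [Complex.exp_add, ← hX]
  rw [← hX] at h3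
  have e1 : I - X * Complex.exp ((-((Γ - t) * |s|) : ℝ) : ℂ) =
      (((Real.pi)⁻¹ * Real.exp (t * |s|) : ℝ) : ℂ) *
      (((Real.pi * Real.exp (-(t * |s|)) : ℝ) : ℂ) * I -
        ((Real.pi * Real.exp (-(Γ * |s|)) : ℝ) : ℂ) * X) := by
    rw [mul_sub, ← mul_assoc, ← mul_assoc, ← Complex.ofReal_mul, ← Complex.ofReal_mul]
    have e2 : (Real.pi)⁻¹ * Real.exp (t * |s|) * (Real.pi * Real.exp (-(t * |s|))) = 1 := by
      rw [Real.exp_neg]
      field_simp
    have e3 : (Real.pi)⁻¹ * Real.exp (t * |s|) * (Real.pi * Real.exp (-(Γ * |s|))) =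
        Real.exp (-((Γ - t) * |s|)) := by
      have : -((Γ - t) * |s|) = t * |s| + -(Γ * |s|) := by ring
      rw [this, Real.exp_add]
      field_simp
    rw [e2, e3, Complex.ofReal_one, one_mul, Complex.ofReal_exp]
    ring
  rw [e1, norm_mul, Complex.norm_real, Real.norm_of_nonneg (by positivity)]
  calc (Real.pi)⁻¹ * Real.exp (t * |s|) * ‖((Real.pi * Real.exp (-(t * |s|)) : ℝ) : ℂ) * I -
        ((Real.pi * Real.exp (-(Γ * |s|)) : ℝ) : ℂ) * X‖ ≤
      (Real.pi)⁻¹ * Real.exp (t * |s|) * (2 * (2 * W1 * e3 + 2 * Γ / W1 * Real.pi)) :=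
        mul_le_mul_of_nonneg_left h3 (by positivity)
    _ = Real.exp (t * |s|) * (4 / Real.pi * (W1 * e3) + 4 * Γ / W1) := by
        field_simp
        ring
    _ ≤ _ := by
        apply mul_le_mul_of_nonneg_left _ (Real.exp_pos _).le
        have h5 : 4 / Real.pi ≤ 2 := by
          rw [div_le_iff₀ hpi]
          have := Real.pi_gt_three
          linarith
        have h6 : 4 / Real.pi * (W1 * e3) ≤ 2 * (W1 * e3) :=
          mul_le_mul_of_nonneg_right h5 (by positivity)
        linarith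

end Pool.Agent.TH794.FG
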