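import Pool.Agent.TH794.FG.Spec3
import Pool.Agent.TH794.FG.Dec

/-! The golden rule, from the parts. -/

set_option autoImplicit false
set_option linter.unusedSectionVars false

open scoped BigOperators Topology
open MeasureTheory Filter

namespace Pool.Agent.TH794.FG

open Pool.Agent.W788.BK
open Pool.Agent.W788.LD.Spec (S)
open Pool.Agent.H4R2.LO (Zd)
open Pool.Agent.W788.BK.Num
open Pool.Agent.TH794.LL2

theorem fin_num (y B t s W Γ : ℝ) (hy1 : 1 ≤ y)
    (n1 : (24 * B + 3) * Real.exp (-(1 / 200) * y) ≤ Real.exp (-(1 / 250) * y))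
    (ht : t = Real.exp (-(211 / 100) * y)) (hs : |s| ≤ Real.exp (21 / 10 * y))
    (hW : W = Real.exp (-(399 / 200) * y)) (hΓ : Γ ≤ B * Real.exp (-2 * y)) (hΓ0 : 0 ≤ Γ) :
    Real.exp (t * |s|) * (2 * (W / 2) * Real.exp (1989 / 1000 * y) + 4 * Γ / (W / 2)) ≤
      Real.exp (-(1 / 250) * y) := by
  have h1 : Real.exp (t * |s|) ≤ 3 := by
    have h2 : t * |s| ≤ 1 := by
      calc t * |s| ≤ Real.exp (-(211 / 100) * y) * Real.exp (21 / 10 * y) := by
            rw [ht]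
            gcongr
        _ ≤ 1 := by
            rw [ex_mul]
            apply Real.exp_le_one_iff.2
            norm_num
            linarith
    exact (Real.exp_le_exp.2 h2).trans Real.exp_one_lt_three.le
  have hWinv : W⁻¹ = Real.exp (399 / 200 * y) := by
    rw [hW, ex_inv]
    norm_num
  have h2 : 2 * (W / 2) * Real.exp (1989 / 1000 * y) ≤ Real.exp (-(1 / 200) * y) := by
    have : 2 * (W / 2) * Real.exp (1989 / 1000 * y) =
        Real.exp (-(399 / 200) * y) * Real.exp (1989 / 1000 * y) := by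
      rw [hW]
      ring
    rw [this, ex_mul]
    exact hexle hy1 _ _ (by norm_num)
  have h3 : 4 * Γ / (W / 2) ≤ 8 * B * Real.exp (-(1 / 200) * y) := by
    calc 4 * Γ / (W / 2) = 8 * Γ * W⁻¹ := by
          rw [div_eq_mul_inv, inv_div, div_eq_mul_inv]
          ring
      _ ≤ 8 * (B * Real.exp (-2 * y)) * Real.exp (399 / 200 * y) := by
          rw [hWinv]
          gcongr
      _ = 8 * B * (Real.exp (-2 * y) * Real.exp (399 / 200 * y)) := by ring
      _ = _ := by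
          rw [ex_mul]
          norm_num
  have h4 : 0 ≤ 2 * (W / 2) * Real.exp (1989 / 1000 * y) + 4 * Γ / (W / 2) := by
    have : 0 < W := by rw [hW]; positivity
    positivity
  calc Real.exp (t * |s|) * (2 * (W / 2) * Real.exp (1989 / 1000 * y) + 4 * Γ / (W / 2)) ≤
      3 * (2 * (W / 2) * Real.exp (1989 / 1000 * y) + 4 * Γ / (W / 2)) :=
        mul_le_mul_of_nonneg_right h1 h4
    _ ≤ 3 * (Real.exp (-(1 / 200) * y) + 8 * B * Real.exp (-(1 / 200) * y)) := by linarith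
    _ = (24 * B + 3) * Real.exp (-(1 / 200) * y) := by ring
    _ ≤ _ := n1

/-- the deterministic part -/
theorem det3 (d : ℕ) (y b M V e0 : ℝ) (γ : ℂ) (hy1 : 1 ≤ y) (hV0 : 0 ≤ V) (hVb : V ≤ b ^ 2)
    (hγ0 : 0 ≤ γ.im) (K6 : ℝ) (_hK6 : 0 ≤ K6) (hγK : ‖γ‖ ≤ 2 + K6)
    (n1 : (24 * (b ^ 2 * (2 + K6) + 1) + 3) * Real.exp (-(1 / 200) * y) ≤
      Real.exp (-(1 / 250) * y))
    (n2 : 2 * (b ^ 2 * (2 + K6)) * Real.exp (-2 * y) ≤ Real.exp (-(399 / 200) * y))
    (ψ : Zd d → ℂ) (hψ : (Function.support ψ).Finite) (hψ1 : ∑' x, ‖ψ x‖ ^ 2 = 1)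
    (a : Zd d) (ξ ω : Zd d → ℝ) (hξ : ∀ x, ξ x = M - ω x)
    (hL : ∀ E : ℝ, |E - (2 * d - e0)| ≤ Real.exp (-(399 / 200) * y) → ∀ ur ui : Zd d → ℝ,
      LS d (Real.exp (-1 * y)) ξ (fun x => (ψ (x - a)).re) (fun x => -(ψ (x - a)).im) E
        (Real.exp (-(211 / 100) * y)) ur ui →
      |∑' x, ((ψ (x - a)).re * ui x - -(ψ (x - a)).im * ur x) -
        Lo (2 * d - e0) (Real.exp (-2 * y) * V) (Real.exp (-(211 / 100) * y))
          (-(starRingEnd ℂ) γ) E| ≤ Real.exp (1989 / 1000 * y))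
    (m : Measure ℝ) [IsFiniteMeasure m]
    (hm : Res2 d (fun x => 2 * d + Real.exp (-1 * y) * ω x) (fun x => ψ (x - a)) m)
    (s : ℝ) (hs : |s| ≤ Real.exp (21 / 10 * y)) :
    ‖(∫ x : ℝ, Complex.exp (Complex.I * ((-s : ℝ) * x)) ∂m) -
      Complex.exp (Complex.I * ((-s : ℝ) * ((e0 + Real.exp (-1 * y) * M -
        Real.exp (-2 * y) * V * γ.re : ℝ) : ℂ)) +
        ((-((Real.exp (-2 * y) * V * γ.im) * |s|) : ℝ) : ℂ))‖ ≤ Real.exp (-(1 / 250) * y) := by
  obtain ⟨lam, hlam⟩ : ∃ lam, lam = Real.exp (-1 * y) := ⟨_, rfl⟩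
  obtain ⟨t, ht⟩ : ∃ t, t = Real.exp (-(211 / 100) * y) := ⟨_, rfl⟩
  obtain ⟨W, hW⟩ : ∃ W, W = Real.exp (-(399 / 200) * y) := ⟨_, rfl⟩
  obtain ⟨s2, hs2⟩ : ∃ s2, s2 = Real.exp (-2 * y) * V := ⟨_, rfl⟩
  rw [← hlam, ← ht, ← hW, ← hs2] at hL
  rw [← hlam] at hm
  rw [← hlam, ← hs2]
  have ht0 : 0 < t := by rw [ht]; positivity
  have hW0 : 0 < W := by rw [hW]; positivity
  have hs20 : 0 ≤ s2 := by rw [hs2]; positivity
  have hs2b : s2 ≤ b ^ 2 * Real.exp (-2 * y) := by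
    rw [hs2, mul_comm]
    gcongr
  have hsa : (Function.support fun x => ψ (x - a)).Finite := by
    have h3 : (Function.support fun x => ψ (x - a)) =
        (Equiv.subRight a) ⁻¹' (Function.support ψ) := by
      ext x
      simp
    rw [h3]
    exact hψ.preimage (Equiv.injective _).injOn
  have hψa : ∑' x, ((ψ (x - a)).re ^ 2 + (-(ψ (x - a)).im) ^ 2) = 1 := by
    rw [← hψ1, ← (Equiv.subRight a).tsum_eq fun x => ‖ψ x‖ ^ 2]
    refine tsum_congr fun x => ?_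
    rw [Equiv.subRight_apply, ← Complex.normSq_eq_norm_sq, Complex.normSq_apply]
    ring
  have hmass := mass_spec3 _ _ m hm hsa hψa
  obtain ⟨Γ, hΓ⟩ : ∃ Γ, Γ = s2 * γ.im + t := ⟨_, rfl⟩
  obtain ⟨Es, hEs⟩ : ∃ Es, Es = e0 + lam * M - s2 * γ.re := ⟨_, rfl⟩
  have hsγ : 0 ≤ s2 * γ.im := mul_nonneg hs20 hγ0
  have hre : s2 * |γ.re| ≤ W / 2 := by
    have h1 : |γ.re| ≤ 2 + K6 := (Complex.abs_re_le_norm γ).trans hγK
    have h2 : s2 * |γ.re| ≤ (b ^ 2 * Real.exp (-2 * y)) * (2 + K6) := by gcongr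
    rw [← hW] at n2
    linarith
  have hpo : ∀ E : ℝ, |E - Es| ≤ W / 2 → |Po m E t - Γ / ((Es - E) ^ 2 + Γ ^ 2)| ≤
      Real.exp (1989 / 1000 * y) := by
    intro E hE
    obtain ⟨ur, ui, hLS, hPo⟩ := po_spec3 (fun x => 2 * d + lam * ω x) ξ (2 * d + lam * M) lam
      (fun x => by rw [hξ x]; ring) (fun x => ψ (x - a)) m hm hsa E t ht0
    have h1 : |2 * d + lam * M - E - (2 * d - e0)| ≤ W := by
      have e1 : 2 * d + lam * M - E - (2 * d - e0) = -(E - Es) + s2 * γ.re := by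
        rw [hEs]
        ring
      rw [e1]
      have e2 := abs_add_le (-(E - Es)) (s2 * γ.re)
      rw [abs_neg, abs_mul, abs_of_nonneg hs20] at e2
      linarith
    have h2 := hL _ h1 ur ui hLS
    rw [← hPo, Lo_eq] at h2
    have e3 : (-(starRingEnd ℂ) γ).im = γ.im := by simp
    have e4 : (-(starRingEnd ℂ) γ).re = -γ.re := by simp
    rw [e3, e4, ← hΓ] at h2
    have e5 : (2 * d - e0 - (2 * d + lam * M - E) - s2 * -γ.re) ^ 2 = (Es - E) ^ 2 := by
      rw [hEs]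
      ring
    rw [e5] at h2
    exact h2
  have hdec := decay m hmass t Γ Es (W / 2) (Real.exp (1989 / 1000 * y)) ht0
    (by rw [hΓ]; linarith) (by positivity) (Real.exp_pos _).le hpo s
  have e6 : Γ - t = s2 * γ.im := by rw [hΓ]; ring
  rw [e6] at hdec
  rw [← hEs]
  refine hdec.trans ?_
  refine fin_num y (b ^ 2 * (2 + K6) + 1) t s W Γ hy1 n1 ht hs hW ?_ ?_
  · have h1 : γ.im ≤ 2 + K6 := (le_abs_self _).trans ((Complex.abs_im_le_norm γ).trans hγK)
    have h2 : s2 * γ.im ≤ (b ^ 2 * Real.exp (-2 * y)) * (2 + K6) := by gcongr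
    have h3 : t ≤ Real.exp (-2 * y) := by
      rw [ht]
      exact hexle hy1 _ _ (by norm_num)
    rw [hΓ]
    linarith
  · rw [hΓ]
    linarith

/-- **the golden rule** -/
theorem fin3 (hES : S_ES) (hTH : S_THIRD) (hFL : S_FLUCT) (hIN : S_INV) (hO : S_OSC)
    (hSU : S_SUP) (hQB : S_QB) (hLO : S_LOW) (hAD : S_ADM)
    (d : ℕ) (hd : 3 ≤ d) (b v c : ℝ) (hb : 0 < b) (hv : 0 < v) (hc : 0 < c) :
    ∃ lam0 : ℝ, 0 < lam0 ∧ ∀ (μ : Measure ℝ), IsProbabilityMeasure μ →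
      (∀ᵐ s ∂μ, |s| ≤ b) → ∀ M V : ℝ, ∫ s, s ∂μ = M → ∫ s, (s - M) ^ 2 ∂μ = V → v ≤ V →
      ∀ lam : ℝ, 0 < lam → lam ≤ lam0 →
      ∀ (e0 : ℝ) (γ : ℂ) (m0 : Measure ℝ), Res d (fun _ => 2 * d) 0 m0 →
        Tendsto (fun ε : ℝ => ∫ x : ℝ, ((x : ℂ) - ((e0 : ℂ) + (ε : ℂ) * Complex.I))⁻¹ ∂m0)
          (𝓝[>] 0) (𝓝 γ) → c ≤ γ.im →
      ∀ ψ : Zd d → ℂ, (∀ x, lam ^ (-5 : ℝ) < ‖x‖ → ψ x = 0) → ∑' x, ‖ψ x‖ ^ 2 = 1 →
        ∑' x, ‖-S ψ x + ((2 * d : ℝ) : ℂ) * ψ x - (e0 : ℂ) * ψ x‖ ^ 2 ≤ lam ^ (41 / 10 : ℝ) →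
      ∃ G : Set (Zd d → ℝ), MeasurableSet G ∧
        1 - Real.exp (-lam ^ (-(1 / 100) : ℝ)) ≤
          (Measure.infinitePi fun _ : Zd d => μ).real G ∧
        ∀ ω ∈ G, ∀ a : Zd d, ‖a‖ ≤ Real.exp (lam ^ (-(1 / 100) : ℝ)) →
          ∀ m : Measure ℝ, IsFiniteMeasure m →
          Res2 d (fun x => 2 * d + lam * ω x) (fun x => ψ (x - a)) m →
          ∀ s : ℝ, |s| ≤ lam ^ (-(21 / 10) : ℝ) →
            ‖(∫ x : ℝ, Complex.exp (Complex.I * ((-s : ℝ) * x)) ∂m) -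
              Complex.exp (Complex.I * ((-s : ℝ) * ((e0 + lam * M -
                lam ^ 2 * V * γ.re : ℝ) : ℂ)) +
                ((-((lam ^ 2 * V * γ.im) * |s|) : ℝ) : ℂ))‖ ≤ lam ^ (1 / 250 : ℝ) := by
  obtain ⟨y0, h0⟩ := engine3 hES hTH hFL hIN hSU hQB hLO hAD d hd (2 * b) v (c / 2)
    (by linarith) hv (by linarith)
  obtain ⟨K6, hK6⟩ : ∃ K6, K6 = 2 * 10 ^ d * K5 := ⟨_, rfl⟩
  have hK60 : 0 ≤ K6 := by
    rw [hK6]
    have := K5_nonneg
    positivity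
  obtain ⟨y2, hy2⟩ := Filter.eventually_atTop.1
    ((ev2 (24 * ((2 * b) ^ 2 * (2 + K6) + 1) + 3) (-(1 / 200)) (-(1 / 250)) 0 (by norm_num)).and
    (ev2 (2 * ((2 * b) ^ 2 * (2 + K6))) (-2) (-(399 / 200)) 0 (by norm_num)))
  obtain ⟨y1, hy1⟩ : ∃ y1, y1 = max (max y0 y2) 1 := ⟨_, rfl⟩
  refine ⟨Real.exp (-y1), Real.exp_pos _, ?_⟩
  intro μ hμ hμb M V hM hV hvV lam hlam hlam0 e0 γ m0 hm0 hγt hγc ψ hψ0 hψ1 hψ2
  obtain ⟨y, hy⟩ : ∃ y, y = Real.log (1 / lam) := ⟨_, rfl⟩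
  have hloglam : Real.log lam = -y := by
    rw [hy, one_div, Real.log_inv, neg_neg]
  have hyy1 : y1 ≤ y := by
    have h1 := Real.log_le_log hlam hlam0
    rw [Real.log_exp, hloglam] at h1
    linarith
  have hyy0 : y0 ≤ y := le_trans (by rw [hy1]; exact (le_max_left _ _).trans (le_max_left _ _)) hyy1
  have hyy2 : y2 ≤ y := le_trans (by rw [hy1]; exact (le_max_right _ _).trans (le_max_left _ _))
    hyy1
  have hyone : 1 ≤ y := le_trans (by rw [hy1]; exact le_max_right _ _) hyy1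
  obtain ⟨n1, n2⟩ := hy2 y hyy2
  simp only [pow_zero, mul_one] at n1 n2
  have hrp : ∀ p q : ℝ, q = -p → lam ^ p = Real.exp (q * y) := by
    intro p q hpq
    rw [Real.rpow_def_of_pos hlam, hloglam, hpq]
    congr 1
    ring
  have e1 : lam ^ (-(1 / 100) : ℝ) = Real.exp (y / 100) := by
    rw [hrp _ (1 / 100) (by norm_num)]
    congr 1
    ring
  have e2 : lam ^ (-(21 / 10) : ℝ) = Real.exp (21 / 10 * y) := hrp _ _ (by norm_num)
  have e3 : lam ^ (1 / 250 : ℝ) = Real.exp (-(1 / 250) * y) := hrp _ _ (by norm_num)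
  have e4 : lam ^ (-5 : ℝ) = Real.exp (5 * y) := hrp _ _ (by norm_num)
  have e5 : lam ^ (41 / 10 : ℝ) = Real.exp (-(41 / 20) * y) ^ 2 := by
    rw [hrp _ (-(41 / 10)) (by norm_num), ex_pow]
    norm_num
  have e6 : lam = Real.exp (-1 * y) := by
    rw [neg_one_mul, ← hloglam, Real.exp_log hlam]
  have e7 : lam ^ 2 = Real.exp (-2 * y) := by
    rw [e6, ex_pow]
    norm_num
  rw [e1, e2, e3]
  rw [e4] at hψ0
  rw [e5] at hψ2
  -- the boundary value
  obtain ⟨γA, hγA⟩ : ∃ γA, γA = -(starRingEnd ℂ) γ := ⟨_, rfl⟩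
  have hBV := bv_of_tendsto hO hd m0 hm0 e0 γ hγt
  rw [← hγA] at hBV
  have hγK : ‖γ‖ ≤ 2 + K6 := by
    have h1 := bv_bd _ _ hBV
    rw [hγA, norm_neg, ← hK6] at h1
    have h2 : ‖(starRingEnd ℂ) γ‖ = ‖γ‖ := RCLike.norm_conj γ
    rw [h2] at h1
    exact h1
  have hγAi : 2 * (c / 2) ≤ γA.im := by
    rw [hγA]
    simp
    linarith
  -- the source
  have hfr : ∀ x : Zd d, Real.exp (5 * y) < ‖x‖ → (fun x => (ψ x).re) x = 0 := by
    intro x hx
    simp only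
    rw [hψ0 x hx, Complex.zero_re]
  have hfi : ∀ x : Zd d, Real.exp (5 * y) < ‖x‖ → (fun x => -(ψ x).im) x = 0 := by
    intro x hx
    simp only
    rw [hψ0 x hx, Complex.zero_im, neg_zero]
  have hψf : (Function.support ψ).Finite := by
    have h1 := fin_supp (Real.exp (5 * y)) (fun x => ‖ψ x‖) (fun x hx => by
      rw [hψ0 x hx, norm_zero])
    refine h1.subset fun x hx => ?_
    simp only [Function.mem_support] at hx ⊢
    exact norm_ne_zero_iff.2 hx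
  have hf1 : ∑' x, ((fun x => (ψ x).re) x ^ 2 + (fun x => -(ψ x).im) x ^ 2) = 1 := by
    rw [← hψ1]
    refine tsum_congr fun x => ?_
    rw [← Complex.normSq_eq_norm_sq, Complex.normSq_apply]
    ring
  have hf2 : ∑' x, ((∑ i, ((fun x => (ψ x).re) (x + Pi.single i 1) +
      (fun x => (ψ x).re) (x - Pi.single i 1)) - (2 * d - e0) * (fun x => (ψ x).re) x) ^ 2 +
      (∑ i, ((fun x => -(ψ x).im) (x + Pi.single i 1) +
      (fun x => -(ψ x).im) (x - Pi.single i 1)) - (2 * d - e0) * (fun x => -(ψ x).im) x) ^ 2) ≤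
      Real.exp (-(41 / 20) * y) ^ 2 := by
    refine le_trans (le_of_eq ?_) hψ2
    refine tsum_congr fun x => ?_
    rw [← Complex.normSq_eq_norm_sq, Complex.normSq_apply]
    have a1 : (-S ψ x + ((2 * d : ℝ) : ℂ) * ψ x - (e0 : ℂ) * ψ x).re =
        -(∑ i : Fin d, ((ψ (x + Pi.single i 1)).re + (ψ (x - Pi.single i 1)).re) -
          (2 * d - e0) * (ψ x).re) := by
      simp [S]
      ring
    have a2 : (-S ψ x + ((2 * d : ℝ) : ℂ) * ψ x - (e0 : ℂ) * ψ x).im =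
        ∑ i : Fin d, (-(ψ (x + Pi.single i 1)).im + -(ψ (x - Pi.single i 1)).im) -
          (2 * d - e0) * -(ψ x).im := by
      have a3 : ∑ i : Fin d, (-(ψ (x + Pi.single i 1)).im + -(ψ (x - Pi.single i 1)).im) =
          -∑ i : Fin d, ((ψ (x + Pi.single i 1)).im + (ψ (x - Pi.single i 1)).im) := by
        rw [← Finset.sum_neg_distrib]
        exact Finset.sum_congr rfl fun i _ => by ring
      rw [a3]
      simp [S]
      ring
    rw [a1, a2]
    ring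
  -- the centred law
  have hint : Integrable (fun s : ℝ => s) μ := by
    refine Integrable.of_bound (C := b) measurable_id.aestronglyMeasurable ?_
    filter_upwards [hμb] with s hs
    rw [Real.norm_eq_abs]
    exact hs
  have hM0b : |M| ≤ b := by
    rw [← hM, ← Real.norm_eq_abs]
    have h1 := norm_integral_le_of_norm_le_const (μ := μ) (f := fun s : ℝ => s) (C := b) (by
      filter_upwards [hμb] with s hs
      rw [Real.norm_eq_abs]
      exact hs)
    rw [probReal_univ, mul_one] at h1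
    exact h1
  have hmm : Measurable fun s : ℝ => M - s := by fun_prop
  have hνp : IsProbabilityMeasure (μ.map fun s => M - s) :=
    Measure.isProbabilityMeasure_map hmm.aemeasurable
  have hνb : ∀ᵐ s ∂(μ.map fun s => M - s), |s| ≤ 2 * b := by
    rw [ae_map_iff hmm.aemeasurable (measurableSet_le (by fun_prop) (by fun_prop))]
    filter_upwards [hμb] with s hs
    have h1 := abs_sub M s
    linarith
  have hν0 : ∫ s, s ∂(μ.map fun s => M - s) = 0 := by
    rw [integral_map hmm.aemeasurable (by fun_prop), integral_sub (integrable_const _) hint,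
      integral_const, probReal_univ, one_smul, hM, sub_self]
  have hν2 : ∫ s, s ^ 2 ∂(μ.map fun s => M - s) = V := by
    rw [integral_map hmm.aemeasurable (by fun_prop), ← hV]
    refine integral_congr_ae (Filter.Eventually.of_forall fun s => ?_)
    simp only
    ring
  have hVb : V ≤ (2 * b) ^ 2 := by
    rw [← hV]
    have h1 : ∫ s, (s - M) ^ 2 ∂μ ≤ ∫ _s, (2 * b) ^ 2 ∂μ := by
      apply integral_mono_of_nonneg (Filter.Eventually.of_forall fun s => sq_nonneg _)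
        (integrable_const _)
      filter_upwards [hμb] with s hs
      rw [← sq_abs (s - M)]
      refine pow_le_pow_left₀ (abs_nonneg _) ?_ 2
      have h1 := abs_sub s M
      linarith
    rw [integral_const, probReal_univ, one_smul] at h1
    exact h1
  obtain ⟨G, hG, hP, hL⟩ := h0 y hyy0 _ hνp hνb hν0 V hν2 hvV (2 * d - e0) γA hγAi hBV
    (fun x => (ψ x).re) (fun x => -(ψ x).im) hfr hfi hf1 hf2
  have hTm : Measurable (fun (ω : Zd d → ℝ) x => M - ω x) := by fun_prop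
  have hlaw : (Measure.infinitePi fun _ : Zd d => μ).map (fun ω x => M - ω x) =
      Measure.infinitePi fun _ : Zd d => μ.map fun s => M - s :=
    Measure.infinitePi_map_pi (μ := fun _ : Zd d => μ)
      (f := fun _ (s : ℝ) => M - s) (fun _ => by fun_prop)
  refine ⟨(fun ω x => M - ω x) ⁻¹' G, hTm hG, ?_, ?_⟩
  · have h1 : (Measure.infinitePi fun _ : Zd d => μ).real ((fun ω x => M - ω x) ⁻¹' G) =
        (Measure.infinitePi fun _ : Zd d => μ.map fun s => M - s).real G := by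
      rw [← hlaw, map_measureReal_apply hTm hG]
    rw [h1]
    exact hP
  · intro ω hω a ha m hmf hm s hs
    have h1 := hL _ hω a ha
    rw [hγA] at h1
    have h2 := det3 d y (2 * b) M V e0 γ hyone (hv.le.trans hvV) hVb (hc.le.trans hγc) K6 hK60 hγK
      n1 n2 ψ hψf hψ1 a (fun x => M - ω x) ω (fun x => rfl) h1 m (by rw [← e6]; exact hm) s hs
    rw [← e6, ← e7] at h2
    exact h2

end Pool.Agent.TH794.FG
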