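import Pool.Agent.TH794.LL2.ParN

/-! The numerical part of the choice of the parameters, for a source. -/

set_option autoImplicit false

open Filter

namespace Pool.Agent.TH794.FG

open Pool.Agent.W788.BK.Num
open Pool.Agent.TH794.LL2

/-- the numerical conditions -/
structure NumOK3 (d : ℕ) (b iv ic A1 K6 y : ℝ) : Prop where
  m1 : 2 * Real.exp (-(633 / 100) * y) ≤ Real.exp (-(399 / 200) * y)
  m2 : 2 * b ^ 2 * A1 * y * Real.exp (-2 * y) ≤ Real.exp (-(399 / 200) * y)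
  m3a : 4 * d * Real.exp (-(39 / 50) * y) ≤ Real.exp (-(2 / 5) * y)
  m3b : 4 * K6 * Real.exp (-(399 / 800) * y) ≤ Real.exp (-(2 / 5) * y)
  m4 : 2 * ic * Real.exp (-(1 / 50) * y) ≤ 1
  m5 : 4 * d ^ 2 * Real.exp (-10 * y) ≤ Real.exp (-(41 / 10) * y)
  m6 : (iv * (1 + 2 * ic) + 2 * iv ^ 2) * Real.exp (99 / 50 * y) ≤ Real.exp (991 / 500 * y)
  m7 : (40 * (iv + 1) + 1) * Real.exp (991 / 500 * y) ≤ Real.exp (397 / 200 * y)
  m8 : (10 * ((iv + 1) + 4 * d + 2) + (iv + 1) * (16 + 24 * d) + 2) *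
    Real.exp (497 / 250 * y) ≤ Real.exp (1989 / 1000 * y)

theorem numOK3 (d : ℕ) (b iv ic A1 K6 : ℝ) : ∀ᶠ y : ℝ in atTop, NumOK3 d b iv ic A1 K6 y := by
  filter_upwards [ev2 2 (-(633 / 100)) (-(399 / 200)) 0 (by norm_num),
    ev2 (2 * b ^ 2 * A1) (-2) (-(399 / 200)) 1 (by norm_num),
    ev2 (4 * d) (-(39 / 50)) (-(2 / 5)) 0 (by norm_num),
    ev2 (4 * K6) (-(399 / 800)) (-(2 / 5)) 0 (by norm_num),
    ev2 (2 * ic) (-(1 / 50)) 0 0 (by norm_num),
    ev2 (4 * d ^ 2) (-10) (-(41 / 10)) 0 (by norm_num),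
    ev2 (iv * (1 + 2 * ic) + 2 * iv ^ 2) (99 / 50) (991 / 500) 0 (by norm_num),
    ev2 (40 * (iv + 1) + 1) (991 / 500) (397 / 200) 0 (by norm_num),
    ev2 (10 * ((iv + 1) + 4 * d + 2) + (iv + 1) * (16 + 24 * d) + 2) (497 / 250) (1989 / 1000) 0
      (by norm_num)] with y h1 h2 h3 h4 h5 h6 h7 h8 h9
  simp only [pow_zero, mul_one, pow_one, zero_mul, Real.exp_zero] at h1 h2 h3 h4 h5 h6 h7 h8 h9
  exact ⟨h1, h2, h3, h4, h5, h6, h7, h8, h9⟩

/-- the error of the mean -/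
theorem num3a (d : ℕ) (b iv ic A1 K6 y : ℝ) (hN : NumOK3 d b iv ic A1 K6 y) (hy1 : 1 ≤ y)
    (hiv : 0 < iv)
    (cc u s2 : ℝ) (hc : cc ≤ Real.exp (-(1 / 50) * y)) (hu0 : 0 ≤ u)
    (hu : u ≤ iv * Real.exp (2 * y)) (hs2u : s2 * u = ic) (hic : 0 < ic) :
    cc * u + (2 * Real.exp (-(41 / 20) * y) + s2 * (2 * Real.exp (-(1 / 50) * y))) * u ^ 2 ≤
      Real.exp (991 / 500 * y) := by
  have h1 : cc * u ≤ iv * Real.exp (99 / 50 * y) := by
    calc cc * u ≤ Real.exp (-(1 / 50) * y) * (iv * Real.exp (2 * y)) :=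
          mul_le_mul hc hu hu0 (Real.exp_pos _).le
      _ = iv * (Real.exp (-(1 / 50) * y) * Real.exp (2 * y)) := by ring
      _ = _ := by
          rw [ex_mul]
          norm_num
  have h2 : 2 * Real.exp (-(41 / 20) * y) * u ^ 2 ≤ 2 * iv ^ 2 * Real.exp (99 / 50 * y) := by
    calc 2 * Real.exp (-(41 / 20) * y) * u ^ 2 ≤
        2 * Real.exp (-(41 / 20) * y) * (iv * Real.exp (2 * y)) ^ 2 := by gcongr
      _ = 2 * iv ^ 2 * (Real.exp (-(41 / 20) * y) * Real.exp (2 * y) ^ 2) := by ring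
      _ = 2 * iv ^ 2 * Real.exp (39 / 20 * y) := by
          rw [ex_pow, ex_mul]
          norm_num
      _ ≤ _ := by
          have := hexle hy1 (39 / 20) (99 / 50) (by norm_num)
          gcongr
  have h3 : s2 * (2 * Real.exp (-(1 / 50) * y)) * u ^ 2 ≤
      2 * iv * ic * Real.exp (99 / 50 * y) := by
    calc s2 * (2 * Real.exp (-(1 / 50) * y)) * u ^ 2 =
        2 * ic * Real.exp (-(1 / 50) * y) * u := by
          rw [← hs2u]
          ring
      _ ≤ 2 * ic * Real.exp (-(1 / 50) * y) * (iv * Real.exp (2 * y)) := by gcongr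
      _ = 2 * iv * ic * (Real.exp (-(1 / 50) * y) * Real.exp (2 * y)) := by ring
      _ = _ := by
          rw [ex_mul]
          norm_num
  have h4 := hN.m6
  linarith

/-- the error at the net points -/
theorem num3b (d : ℕ) (b iv ic A1 K6 y : ℝ) (hN : NumOK3 d b iv ic A1 K6 y) (hy1 : 1 ≤ y)
    (hiv : 0 < iv) (u : ℝ) (hu : u ≤ iv * Real.exp (2 * y)) :
    40 * Real.exp (-(3 / 40) * y) * (u + Real.exp (991 / 500 * y)) +
      Real.exp (991 / 500 * y) ≤ Real.exp (397 / 200 * y) := by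
  have h0 := hexle hy1 (991 / 500) 2 (by norm_num)
  have h1 : 40 * Real.exp (-(3 / 40) * y) * (u + Real.exp (991 / 500 * y)) ≤
      40 * (iv + 1) * Real.exp (991 / 500 * y) := by
    calc 40 * Real.exp (-(3 / 40) * y) * (u + Real.exp (991 / 500 * y)) ≤
        40 * Real.exp (-(3 / 40) * y) * (iv * Real.exp (2 * y) + Real.exp (2 * y)) := by gcongr
      _ = 40 * (iv + 1) * (Real.exp (-(3 / 40) * y) * Real.exp (2 * y)) := by ring
      _ = 40 * (iv + 1) * Real.exp (77 / 40 * y) := by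
          rw [ex_mul]
          norm_num
      _ ≤ _ := by
          have := hexle hy1 (77 / 40) (991 / 500) (by norm_num)
          gcongr
  have h2 := hN.m7
  linarith

/-- the final error -/
theorem num3c (d : ℕ) (b iv ic A1 K6 y : ℝ) (hN : NumOK3 d b iv ic A1 K6 y) (hy1 : 1 ≤ y)
    (hiv : 0 < iv) (η δ t kf ρ ζ τ : ℝ)
    (hη : η = Real.exp (-(3 / 20) * y)) (hδ : δ = Real.exp (-(49 / 25) * y))
    (ht : t = Real.exp (-(211 / 100) * y)) (hkf : kf = Real.exp (-(3 / 250) * y))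
    (hρ : ρ = 2 * d * Real.exp (-(289 / 100) * y)) (hζ : ζ = Real.exp (-(633 / 100) * y))
    (hτ : τ = Real.exp (-(43 / 20) * y)) (hkf30 : 30 * kf ≤ 1) :
    τ / t + 2 * (kf + η) ≤ 1 ∧
    2 * (τ / t + 2 * (kf + η)) * ((iv + 1) * Real.exp (2 * y) + 2 * (ρ + ζ * t⁻¹) / t) +
      2 * Real.sqrt ((iv + 1) * Real.exp (2 * y)) * (2 * (Real.sqrt η * Real.sqrt δ⁻¹) +
        3 * (2 * (ρ + ζ * t⁻¹) / Real.sqrt t)) + Real.exp (397 / 200 * y) + ζ / t ^ 2 ≤
      Real.exp (1989 / 1000 * y) := by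
  have hkf0 : 0 < kf := by rw [hkf]; positivity
  have htinv : t⁻¹ = Real.exp (211 / 100 * y) := by
    rw [ht, ex_inv]
    norm_num
  have hdnn : (0 : ℝ) ≤ d := Nat.cast_nonneg d
  have a1 : τ / t ≤ kf := by
    rw [div_eq_mul_inv, htinv, hτ, ex_mul, hkf]
    exact hexle hy1 _ _ (by norm_num)
  have a2 : η ≤ kf := by
    rw [hη, hkf]
    exact hexle hy1 _ _ (by norm_num)
  have a3 : τ / t + 2 * (kf + η) ≤ 5 * kf := by linarith
  refine ⟨by linarith, ?_⟩
  have hτt0 : 0 ≤ τ / t + 2 * (kf + η) := by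
    rw [hτ, ht, hη]
    positivity
  -- the cut-off error
  have b1 : ρ + ζ * t⁻¹ ≤ (2 * d + 1) * Real.exp (-(289 / 100) * y) := by
    rw [htinv, hζ, ex_mul, hρ]
    have := hexle hy1 (-(633 / 100) + 211 / 100) (-(289 / 100)) (by norm_num)
    linarith
  have b0 : 0 ≤ ρ + ζ * t⁻¹ := by
    rw [htinv, hζ, hρ]
    positivity
  have b2 : 2 * (ρ + ζ * t⁻¹) / t ≤ (4 * d + 2) * Real.exp (2 * y) := by
    calc 2 * (ρ + ζ * t⁻¹) / t = 2 * (ρ + ζ * t⁻¹) * Real.exp (211 / 100 * y) := by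
          rw [div_eq_mul_inv, htinv]
      _ ≤ 2 * ((2 * d + 1) * Real.exp (-(289 / 100) * y)) * Real.exp (211 / 100 * y) := by
          gcongr
      _ = (4 * d + 2) * (Real.exp (-(289 / 100) * y) * Real.exp (211 / 100 * y)) := by ring
      _ ≤ (4 * d + 2) * Real.exp (2 * y) := by
          rw [ex_mul]
          have := hexle hy1 (-(289 / 100) + 211 / 100) 2 (by norm_num)
          gcongr
  obtain ⟨C0, hC0⟩ : ∃ C0, C0 = iv + 1 := ⟨_, rfl⟩
  have hC01 : 1 ≤ C0 := by rw [hC0]; linarith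
  have hm8 := hN.m8
  rw [← hC0] at hm8 ⊢
  have t1 : 2 * (τ / t + 2 * (kf + η)) * (C0 * Real.exp (2 * y) + 2 * (ρ + ζ * t⁻¹) / t) ≤
      10 * (C0 + 4 * d + 2) * Real.exp (497 / 250 * y) := by
    calc 2 * (τ / t + 2 * (kf + η)) * (C0 * Real.exp (2 * y) + 2 * (ρ + ζ * t⁻¹) / t) ≤
        2 * (5 * kf) * (C0 * Real.exp (2 * y) + (4 * d + 2) * Real.exp (2 * y)) := by
          have hz : 0 ≤ C0 * Real.exp (2 * y) + 2 * (ρ + ζ * t⁻¹) / t := by
            have : 0 ≤ 2 * (ρ + ζ * t⁻¹) / t := div_nonneg (by linarith) (by rw [ht]; positivity)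
            positivity
          gcongr
      _ = 10 * (C0 + 4 * d + 2) * (Real.exp (-(3 / 250) * y) * Real.exp (2 * y)) := by
          rw [hkf]
          ring
      _ = _ := by
          rw [ex_mul]
          norm_num
  have hsη : Real.sqrt η = Real.exp (-(3 / 40) * y) := by
    rw [hη]
    exact sqrt_ex _ _ y (by norm_num)
  have hsδ : Real.sqrt δ⁻¹ = Real.exp (49 / 50 * y) := by
    rw [hδ, ex_inv]
    exact sqrt_ex _ _ y (by norm_num)
  have hst : Real.sqrt t = Real.exp (-(211 / 200) * y) := by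
    rw [ht]
    exact sqrt_ex _ _ y (by norm_num)
  have hsK : Real.sqrt (C0 * Real.exp (2 * y)) ≤ C0 * Real.exp (1 * y) := by
    rw [Real.sqrt_le_left (by positivity), mul_pow, ex_pow]
    norm_num
    exact mul_le_mul_of_nonneg_right (by nlinarith) (Real.exp_pos _).le
  have b3 : 2 * (ρ + ζ * t⁻¹) / Real.sqrt t ≤ (4 * d + 2) * Real.exp (181 / 200 * y) := by
    calc 2 * (ρ + ζ * t⁻¹) / Real.sqrt t =
        2 * (ρ + ζ * t⁻¹) * Real.exp (211 / 200 * y) := by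
          rw [hst, div_eq_mul_inv, ex_inv]
          norm_num
      _ ≤ 2 * ((2 * d + 1) * Real.exp (-(289 / 100) * y)) * Real.exp (211 / 200 * y) := by
          gcongr
      _ = (4 * d + 2) * (Real.exp (-(289 / 100) * y) * Real.exp (211 / 200 * y)) := by ring
      _ ≤ _ := by
          rw [ex_mul]
          have := hexle hy1 (-(289 / 100) + 211 / 200) (181 / 200) (by norm_num)
          gcongr
  have b30 : 0 ≤ 2 * (ρ + ζ * t⁻¹) / Real.sqrt t := div_nonneg (by linarith) (Real.sqrt_nonneg _)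
  have t2 : 2 * Real.sqrt (C0 * Real.exp (2 * y)) * (2 * (Real.sqrt η * Real.sqrt δ⁻¹) +
        3 * (2 * (ρ + ζ * t⁻¹) / Real.sqrt t)) ≤
      C0 * (16 + 24 * d) * Real.exp (497 / 250 * y) := by
    calc 2 * Real.sqrt (C0 * Real.exp (2 * y)) * (2 * (Real.sqrt η * Real.sqrt δ⁻¹) +
        3 * (2 * (ρ + ζ * t⁻¹) / Real.sqrt t)) ≤
        2 * (C0 * Real.exp (1 * y)) * (2 * Real.exp (181 / 200 * y) +
          3 * ((4 * d + 2) * Real.exp (181 / 200 * y))) := by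
          rw [hsη, hsδ, ex_mul]
          have : Real.exp ((-(3 / 40) + 49 / 50) * y) = Real.exp (181 / 200 * y) := by norm_num
          rw [this]
          gcongr
      _ = C0 * (16 + 24 * d) * (Real.exp (1 * y) * Real.exp (181 / 200 * y)) := by ring
      _ ≤ _ := by
          rw [ex_mul]
          have := hexle hy1 (1 + 181 / 200) (497 / 250) (by norm_num)
          gcongr
  have t3 : Real.exp (397 / 200 * y) ≤ Real.exp (497 / 250 * y) := hexle hy1 _ _ (by norm_num)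
  have t4 : ζ / t ^ 2 ≤ Real.exp (497 / 250 * y) := by
    rw [div_eq_mul_inv, ← inv_pow, htinv, hζ, ex_pow, ex_mul]
    exact hexle hy1 _ _ (by norm_num)
  linarith

end Pool.Agent.TH794.FG
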