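import Pool.Agent.TH794.FG.Lat4

/-! The event on the lattice, for a source. -/

set_option autoImplicit false
set_option linter.unusedSectionVars false

open scoped BigOperators
open MeasureTheory

namespace Pool.Agent.TH794.FG

open Pool.Agent.W788.BK
open Pool.Agent.W788
open Pool.Agent.W788.MFP.Four Pool.Agent.W788.MFP.Dos Pool.Agent.W788.MFP.Form
open Pool.Agent.W788.MFP.Ball Pool.Agent.W788.MFP.Crit Pool.Agent.W788.MFP.Cut
open Pool.Agent.W788.MFP.Site Pool.Agent.W788.MF2.Dom Pool.Agent.W788.MF2.FinG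
open Pool.Agent.W788.MF2.FormG Pool.Agent.W788.LD.Main Pool.Agent.H4R2
open Pool.Agent.H4R2.LO (Zd)
open Pool.Agent.H695R3.AN (lf lf_inj lf_add lf_sub)
open Pool.Agent.TH794.LL2

variable {d L : ℕ} [NeZero L]

/-- the law of the resolvent in a source and its translates -/
def SLaw (d : ℕ) (σ R t W e3 E0 s2 : ℝ) (γ : ℂ) (fr fi ξ : Zd d → ℝ) : Prop :=
  ∀ a : Zd d, ‖a‖ ≤ R → ∀ E : ℝ, |E - E0| ≤ W → ∀ ur ui : Zd d → ℝ,
    LS d σ ξ (fun x => fr (x - a)) (fun x => fi (x - a)) E t ur ui →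
    |∑' x, (fr (x - a) * ui x - fi (x - a) * ur x) - Lo E0 s2 t γ E| ≤ e3

/-- **the lattice event** -/
theorem mainC3 (hd : 1 ≤ d) (μ : Measure ℝ) [IsProbabilityMeasure μ] (c : ℝ)
    (hμ : DomBy μ c) (σ R δ θ η κ g1 ρ τ Kf ζ e2 e3 ℓ : ℝ) (M : ℕ) (hσ : 0 < σ) (hR : 1 ≤ R)
    (hδ : 0 < δ) (hδ1 : δ ≤ 1 / 2) (hη : 0 < η) (hη1 : η ≤ 1) (hκ : 0 < κ) (hκ2 : κ ≤ 1 / 2)
    (hg : ∀ E, ∑ k : T d L, (JJ E δ k)⁻¹ ≤ g1 * NN d L)
    (hζ : 0 < ζ) (E0 s2 W : ℝ) (γ : ℂ) (fr fi : Zd d → ℝ) (hM : W + ζ ≤ ζ * M)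
    (hsγ : 0 ≤ s2 * γ.im)
    (hX : ∀ E, (D0 (d := d) (L := L) E δ).IsHermitian)
    (hA : ∀ E y, (AA (d := d) (L := L) E δ θ y).IsHermitian)
    (hρ0 : 0 ≤ ρ) (hτ : 0 ≤ τ)
    (hKe : ∀ E, Lo E0 s2 (η * δ) γ E + e2 ≤ Kf)
    (h1 : τ / (η * δ) + 2 * (κ + η) ≤ 1)
    (h4 : 2 * (τ / (η * δ) + 2 * (κ + η)) * (Kf + 2 * (ρ + ζ * (η * δ)⁻¹) / (η * δ)) +
      2 * Real.sqrt Kf * (2 * (Real.sqrt η * Real.sqrt δ⁻¹) +
        3 * (2 * (ρ + ζ * (η * δ)⁻¹) / Real.sqrt (η * δ))) + e2 + ζ / (η * δ) ^ 2 ≤ e3)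
    (hℓ0 : 0 < ℓ) (hL : 4 * ℓ + 4 < L) (hρℓ : 2 * d / ℓ * (η * δ)⁻¹ ≤ ρ)
    (hfr : ∀ x, ℓ < ‖x‖ → fr x = 0) (hfi : ∀ x, ℓ < ‖x‖ → fi x = 0)
    (hf1 : ∑' x, (fr x ^ 2 + fi x ^ 2) = 1)
    (p : ℕ) (hp : p ≠ 0) (ε1 ε : ℝ)
    (hgood : (PP (T d L) (μ.map fun s => σ * s)).real
      (Good3 (d := d) (L := L) δ θ η τ ζ e2 M E0 s2 γ (fun y => fr (lf y))
        (fun y => fi (lf y)))ᶜ ≤ ε1)
    (hε : (3 * R) ^ d * ((8 * d / δ) * ((8 * p * g1 * c ^ 2 * σ ^ 2 / (δ * κ ^ 2)) ^ p *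
      (L : ℝ) ^ d) + ε1) ≤ ε) :
    ∃ G : Set (Zd d → ℝ), MeasurableSet G ∧
      1 - ε ≤ (Measure.infinitePi fun _ : Zd d => μ).real G ∧
      ∀ ξ ∈ G, SLaw d σ R (η * δ) W e3 E0 s2 γ fr fi ξ := by
  obtain ⟨Fr, hFr⟩ : ∃ Fr : T d L → ℝ, Fr = fun y => fr (lf y) := ⟨_, rfl⟩
  obtain ⟨Fi, hFi⟩ : ∃ Fi : T d L → ℝ, Fi = fun y => fi (lf y) := ⟨_, rfl⟩
  rw [← hFr, ← hFi] at hgood
  have hB1 : Bq Fr Fi = 1 := by
    rw [hFr, hFi]
    exact src_norm ℓ (by linarith) fr fi hfr hfi hf1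
  have hmeas : MeasurableSet (Good3 (d := d) (L := L) δ θ η τ ζ e2 M E0 s2 γ Fr Fi) :=
    good3_meas δ θ η τ ζ e2 M E0 s2 γ Fr Fi hη hX hA
  have ht : 0 < η * δ := by positivity
  have hGB : GB d L δ g1 := by
    intro E
    have e1 := hg E
    rw [inv_mul_le_iff₀ NN_pos]
    have e2 : ∑ k : T d L, (J E δ k)⁻¹ = ∑ k : T d L, (JJ E δ k)⁻¹ := rfl
    rw [e2]
    linarith
  obtain ⟨G1, hG1, hP1, hb⟩ := formE (d := d) (L := L) hd μ c hμ δ g1 hδ hδ1 hGB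
    (κ / (2 * σ)) (by positivity) p hp
  have hsm : Measurable fun (V : T d L → ℝ) y => σ * V y := by fun_prop
  obtain ⟨G2, hG2⟩ : ∃ G2, G2 = (fun (V : T d L → ℝ) y => σ * V y) ⁻¹'
    Good3 (d := d) (L := L) δ θ η τ ζ e2 M E0 s2 γ Fr Fi := ⟨_, rfl⟩
  have hG2m : MeasurableSet G2 := by
    rw [hG2]
    exact hsm hmeas
  have hpm : IsProbabilityMeasure (μ.map fun s => σ * s) :=
    Measure.isProbabilityMeasure_map (by fun_prop)
  have hP2 : (Measure.pi fun _ : T d L => μ).real G2ᶜ ≤ ε1 := by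
    have e1 : PP (T d L) (μ.map fun s => σ * s) =
        (Measure.pi fun _ : T d L => μ).map (fun (V : T d L → ℝ) y => σ * V y) := by
      unfold PP
      rw [Measure.pi_map_pi (μ := fun _ : T d L => μ) (f := fun _ (s : ℝ) => σ * s)]
      intro i
      fun_prop
    rw [e1, map_measureReal_apply hsm hmeas.compl] at hgood
    rw [hG2]
    exact hgood
  have hG : MeasurableSet (G1 ∩ G2) := hG1.inter hG2m
  have hP : (3 * R) ^ d * (Measure.pi fun _ : T d L => μ).real (G1 ∩ G2)ᶜ ≤ ε := by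
    refine le_trans ?_ hε
    apply mul_le_mul_of_nonneg_left _ (by positivity)
    rw [Set.compl_inter]
    refine (measureReal_union_le _ _).trans (add_le_add ?_ hP2)
    refine hP1.trans ?_
    apply mul_le_mul_of_nonneg_left _ (by positivity)
    have e1 : 2 * p * g1 * δ⁻¹ * c ^ 2 / (κ / (2 * σ)) ^ 2 =
        8 * p * g1 * c ^ 2 * σ ^ 2 / (δ * κ ^ 2) := by
      field_simp
      ring
    rw [e1]
    exact le_refl _
  set B : Finset (Zd d) := LO.bx (0 : Zd d) ⌊R⌋₊ with hB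
  set Rr : Zd d → (Zd d → ℝ) → (T d L → ℝ) := fun a ω y => ω (lf y + a) with hRr
  have hRm : ∀ a, Measurable (Rr a) := fun a => measurable_pi_iff.2 fun y => measurable_pi_apply _
  have hPa : ∀ a, (Measure.infinitePi fun _ : Zd d => μ).real (Rr a ⁻¹' (G1 ∩ G2))ᶜ =
      (Measure.pi fun _ : T d L => μ).real (G1 ∩ G2)ᶜ := by
    intro a
    have h1 : (Measure.infinitePi fun _ : Zd d => μ).real (Rr a ⁻¹' (G1 ∩ G2)ᶜ) =
        (Measure.pi fun _ : T d L => μ).real (G1 ∩ G2)ᶜ := by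
      rw [← Gen3.law_shift (d := d) (L := L) μ a, map_measureReal_apply (hRm a) hG.compl]
    exact h1
  have hm : MeasurableSet (⋂ a ∈ B, Rr a ⁻¹' (G1 ∩ G2)) :=
    Finset.measurableSet_biInter _ fun a _ => hRm a hG
  refine ⟨⋂ a ∈ B, Rr a ⁻¹' (G1 ∩ G2), hm, ?_, ?_⟩
  · have h2 := probReal_add_probReal_compl (μ := Measure.infinitePi fun _ : Zd d => μ) hm
    have h3 : (Measure.infinitePi fun _ : Zd d => μ).real (⋂ a ∈ B, Rr a ⁻¹' (G1 ∩ G2))ᶜ ≤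
        (3 * R) ^ d * (Measure.pi fun _ : T d L => μ).real (G1 ∩ G2)ᶜ := by
      have e1 : (⋂ a ∈ B, Rr a ⁻¹' (G1 ∩ G2))ᶜ = ⋃ a ∈ B, (Rr a ⁻¹' (G1 ∩ G2))ᶜ := by
        simp only [Set.compl_iInter]
      rw [e1]
      refine (measureReal_biUnion_finset_le _ _).trans
        ((Finset.sum_le_sum fun a _ => (hPa a).le).trans ?_)
      rw [Finset.sum_const, nsmul_eq_mul, hB, LO.Em.card_bx]
      apply mul_le_mul_of_nonneg_right _ measureReal_nonneg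
      push_cast
      apply pow_le_pow_left₀ (by positivity)
      have := Nat.floor_le (show 0 ≤ R by linarith)
      linarith
    linarith
  · intro ξ hξ a ha E hE ur ui hLS
    have haB : a ∈ B := Gen3.norm_zd a R ha
    have hV : Rr a ξ ∈ G1 ∩ G2 := Set.mem_iInter₂.1 hξ a haB
    have hV2 := hV.2
    rw [hG2] at hV2
    obtain ⟨vr, vi, rr, ri, hv0, hsol, hBv, hBr⟩ := (hLS.shift a).tor (L := L) ℓ hℓ0 hL ht hfr
      hfi hf1
    rw [← hFr, ← hFi] at hv0 hsol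
    have hform : ∀ (E : ℝ) (w : T d L → ℝ),
        |∑ x, (σ * ξ (lf x + a)) * w x ^ 2| ≤ κ * q (JJ E δ) w := by
      intro E w
      have e1 := hb _ hV.1 E w
      have e2 : ∑ x, (σ * ξ (lf x + a)) * w x ^ 2 = σ * ∑ x, Rr a ξ x * w x ^ 2 := by
        rw [Finset.mul_sum]
        exact Finset.sum_congr rfl fun x _ => by rw [hRr]; ring
      rw [e2, abs_mul, abs_of_pos hσ]
      calc σ * |∑ x, Rr a ξ x * w x ^ 2| ≤ σ * (2 * (κ / (2 * σ)) * q (J E δ) w) :=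
            mul_le_mul_of_nonneg_left e1 hσ.le
        _ = κ * q (J E δ) w := by
            field_simp
        _ = _ := rfl
    have hfin := tor3 δ θ η κ ρ τ Kf ζ e2 e3 M hδ hη hη1 hκ hκ2 hζ E0 s2 W γ Fr Fi hB1 hM hsγ
      (fun y => σ * ξ (lf y + a)) hV2 hX hA hform hρ0 hτ hKe h1 h4 E hE vr vi rr ri
      hsol (hBr.trans hρℓ) hBv
    rw [hv0] at hfin
    have e5 : ∑' x, (fr (x - a) * ui x - fi (x - a) * ur x) =
        ∑' x, (fr x * ui (x + a) - fi x * ur (x + a)) := by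
      rw [← (Equiv.addRight a).tsum_eq fun x => fr (x - a) * ui x - fi (x - a) * ur x]
      refine tsum_congr fun x => ?_
      simp only [Equiv.coe_addRight, add_sub_cancel_right]
    rw [e5]
    exact hfin

end Pool.Agent.TH794.FG
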