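import Mathlib

/-! The Fourier transform of the Poisson kernel. -/

set_option autoImplicit false

open scoped BigOperators Topology FourierTransform
open MeasureTheory Filter Set

namespace Pool.Agent.TH794.FG

theorem exp_abs (t : ℝ) (ht : 0 < t) (ξ : ℝ) :
    Integrable (fun s : ℝ => Complex.exp ((-(t * |s|) : ℝ) + Complex.I * (ξ * s))) ∧
    ∫ s : ℝ, Complex.exp ((-(t * |s|) : ℝ) + Complex.I * (ξ * s)) =
      ((2 * (t / (ξ ^ 2 + t ^ 2)) : ℝ) : ℂ) := by
  have h1 : EqOn (fun s : ℝ => Complex.exp ((-(t * |s|) : ℝ) + Complex.I * (ξ * s)))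
      (fun s : ℝ => Complex.exp (((t : ℂ) + Complex.I * ξ) * s)) (Iic 0) := by
    intro s hs
    have hs0 : s ≤ 0 := hs
    simp only
    rw [abs_of_nonpos hs0]
    congr 1
    push_cast
    ring
  have h2 : EqOn (fun s : ℝ => Complex.exp ((-(t * |s|) : ℝ) + Complex.I * (ξ * s)))
      (fun s : ℝ => Complex.exp ((-(t : ℂ) + Complex.I * ξ) * s)) (Ioi 0) := by
    intro s hs
    have hs0 : 0 < s := hs
    simp only
    rw [abs_of_pos hs0]
    congr 1
    push_cast
    ring
  have r1 : 0 < ((t : ℂ) + Complex.I * ξ).re := by simpa using ht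
  have r2 : (-(t : ℂ) + Complex.I * ξ).re < 0 := by simpa using ht
  have i1 : IntegrableOn (fun s : ℝ => Complex.exp ((-(t * |s|) : ℝ) + Complex.I * (ξ * s)))
      (Iic 0) := (integrableOn_exp_mul_complex_Iic r1 0).congr_fun h1.symm measurableSet_Iic
  have i2 : IntegrableOn (fun s : ℝ => Complex.exp ((-(t * |s|) : ℝ) + Complex.I * (ξ * s)))
      (Ioi 0) := (integrableOn_exp_mul_complex_Ioi r2 0).congr_fun h2.symm measurableSet_Ioi
  constructor
  · rw [← integrableOn_univ, ← Iic_union_Ioi (a := (0 : ℝ))]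
    exact i1.union i2
  · rw [← intervalIntegral.integral_Iic_add_Ioi i1 i2, setIntegral_congr_fun measurableSet_Iic h1,
      setIntegral_congr_fun measurableSet_Ioi h2, integral_exp_mul_complex_Iic r1 0,
      integral_exp_mul_complex_Ioi r2 0]
    have z1 : (t : ℂ) + Complex.I * ξ ≠ 0 := by
      intro h
      rw [h] at r1
      simp at r1
    have z2 : -(t : ℂ) + Complex.I * ξ ≠ 0 := by
      intro h
      rw [h] at r2
      simp at r2
    have z3 : ((ξ : ℂ) ^ 2 + (t : ℂ) ^ 2) ≠ 0 := by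
      have : (0 : ℝ) < ξ ^ 2 + t ^ 2 := by positivity
      exact_mod_cast this.ne'
    simp only [Complex.ofReal_zero, mul_zero, Complex.exp_zero]
    push_cast
    have h3 : Complex.I ^ 2 = -1 := Complex.I_sq
    rw [div_add_div _ _ z1 z2, ← mul_div_assoc, div_eq_div_iff (mul_ne_zero z1 z2) z3]
    linear_combination (-(2 * (t : ℂ) * (ξ : ℂ) ^ 2)) * h3

/-- the Poisson kernel is integrable -/
theorem pk_int (t : ℝ) (ht : 0 < t) : Integrable fun E : ℝ => t / (E ^ 2 + t ^ 2) := by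
  have h1 := (integrable_inv_one_add_sq.comp_div ht.ne').const_mul t⁻¹
  refine h1.congr (Eventually.of_forall fun E => ?_)
  simp only
  have : 0 < t ^ 2 + E ^ 2 := by positivity
  field_simp
  ring

theorem pk_integral (t : ℝ) (ht : 0 < t) : ∫ E : ℝ, t / (E ^ 2 + t ^ 2) = Real.pi := by
  have h1 : ∫ E : ℝ, t / (E ^ 2 + t ^ 2) = ∫ E : ℝ, t⁻¹ * (1 + (E / t) ^ 2)⁻¹ := by
    refine integral_congr_ae (Eventually.of_forall fun E => ?_)
    simp only
    have : 0 < t ^ 2 + E ^ 2 := by positivity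
    field_simp
    ring
  rw [h1, integral_const_mul, Measure.integral_comp_div (fun x => (1 + x ^ 2)⁻¹) t,
    integral_univ_inv_one_add_sq, abs_of_pos ht, smul_eq_mul, ← mul_assoc,
    inv_mul_cancel₀ ht.ne', one_mul]

/-- **the Fourier transform of the Poisson kernel** -/
theorem cauchy_ft (t : ℝ) (ht : 0 < t) (s : ℝ) :
    ∫ E : ℝ, Complex.exp (Complex.I * (s * E)) * ((t / (E ^ 2 + t ^ 2) : ℝ) : ℂ) =
      ((Real.pi * Real.exp (-(t * |s|)) : ℝ) : ℂ) := by
  obtain ⟨f, hf⟩ : ∃ f : ℝ → ℂ, f = fun s : ℝ => Complex.exp ((-(t * |s|) : ℝ) : ℂ) := ⟨_, rfl⟩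
  have hfi : Integrable f := by
    have h1 := (exp_abs t ht 0).1
    refine h1.congr (Eventually.of_forall fun s => ?_)
    rw [hf]
    simp
  have hfc : Continuous f := by
    rw [hf]
    fun_prop
  have hFf : ∀ w : ℝ, 𝓕 f w = ((2 * (t / ((-(2 * Real.pi * w)) ^ 2 + t ^ 2)) : ℝ) : ℂ) := by
    intro w
    rw [Real.fourier_real_eq_integral_exp_smul, ← (exp_abs t ht (-(2 * Real.pi * w))).2]
    refine integral_congr_ae (Eventually.of_forall fun v => ?_)
    simp only
    rw [hf, smul_eq_mul, ← Complex.exp_add]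
    congr 1
    push_cast
    ring
  have hFi : Integrable (𝓕 f) := by
    have h1 := (pk_int t ht).comp_mul_left' (show (-(2 * Real.pi)) ≠ 0 by
      have := Real.pi_pos
      intro h
      linarith)
    have h2 := (h1.const_mul 2).ofReal (𝕜 := ℂ)
    refine h2.congr (Eventually.of_forall fun w => ?_)
    simp only
    rw [hFf w]
    congr 3
    ring
  have hinv := congrFun (Continuous.fourierInv_fourier_eq hfc hfi hFi) s
  rw [Real.fourierInv_eq'] at hinv
  have h5 : ∫ v : ℝ, Complex.exp (((2 * Real.pi * inner ℝ v s : ℝ) : ℂ) * Complex.I) • 𝓕 f v =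
      ∫ v : ℝ, (fun E : ℝ => Complex.exp (Complex.I * (s * E)) *
        ((2 * (t / (E ^ 2 + t ^ 2)) : ℝ) : ℂ)) ((2 * Real.pi) * v) := by
    refine integral_congr_ae (Eventually.of_forall fun v => ?_)
    simp only
    rw [hFf v, smul_eq_mul]
    congr 1
    · congr 1
      simp
      ring
    · congr 3
      ring
  rw [h5, Measure.integral_comp_mul_left (fun E : ℝ => Complex.exp (Complex.I * (s * E)) *
        ((2 * (t / (E ^ 2 + t ^ 2)) : ℝ) : ℂ)) (2 * Real.pi)] at hinv
  have hpi := Real.pi_pos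
  have h6 : ∫ E : ℝ, Complex.exp (Complex.I * (s * E)) *
        ((2 * (t / (E ^ 2 + t ^ 2)) : ℝ) : ℂ) =
      2 * ∫ E : ℝ, Complex.exp (Complex.I * (s * E)) * ((t / (E ^ 2 + t ^ 2) : ℝ) : ℂ) := by
    rw [← integral_const_mul]
    refine integral_congr_ae (Eventually.of_forall fun E => ?_)
    simp only
    push_cast
    ring
  rw [h6, abs_of_pos (inv_pos.2 (by positivity)), Complex.real_smul] at hinv
  obtain ⟨I, hI⟩ : ∃ I, I = ∫ E : ℝ, Complex.exp (Complex.I * (s * E)) *
    ((t / (E ^ 2 + t ^ 2) : ℝ) : ℂ) := ⟨_, rfl⟩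
  rw [← hI] at hinv ⊢
  have hpic : ((Real.pi : ℝ) : ℂ) ≠ 0 := by exact_mod_cast hpi.ne'
  have h7 : I = (Real.pi : ℂ) * ((((2 * Real.pi)⁻¹ : ℝ) : ℂ) * (2 * I)) := by
    push_cast
    field_simp
  rw [h7, hinv, hf]
  push_cast
  rfl

end Pool.Agent.TH794.FG
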