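import Pool.Agent.TH794.LL2.Core2

/-! The self-consistent equation for each momentum. -/

set_option autoImplicit false

open scoped BigOperators Matrix
open MeasureTheory

namespace Pool.Agent.TH794.FG

open Pool.Agent.TH794.LL2

theorem core3 {ι : Type} [Fintype ι] (N δ η s2 g ε e1 E : ℝ) (a J : ι → ℝ) (h : ι → ι → ℝ) (S : ℝ)
    (M : ι → ℂ) (hN : 0 < N) (hδ : 0 < δ) (hη : 0 < η) (hs : 0 ≤ s2) (hε0 : 0 ≤ ε)
    (he0 : 0 ≤ e1) (he1 : e1 ≤ 1 / 4)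
    (hJJ : ∀ k, J k = Real.sqrt ((a k - E) ^ 2 + δ ^ 2))
    (hM : ∀ k, ‖M k‖ ≤ η⁻¹)
    (hh : ∀ k p, h k p ≤ 1) (hS : ∀ k, ∑ p, (1 - h k p) = S)
    (hS2 : s2 * S ≤ e1 * (η ^ 2 * δ ^ 2) * N)
    (heq : ∀ k, ‖((((a k - E) / J k : ℝ) : ℂ) - (η : ℂ) * Complex.I) * M k -
      (s2 : ℂ) * (∑ p, ((N⁻¹ * h k p * (J k * J p)⁻¹ : ℝ) : ℂ) * M p) * M k - 1‖ ≤ ε)
    (m : ℂ) (hm : m = ((N : ℝ) : ℂ)⁻¹ * ∑ k, ((J k : ℝ) : ℂ)⁻¹ * M k) (hmim : 0 ≤ m.im)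
    (hmn : ‖m‖ ≤ 2 * g) (k : ι) :
    ‖(((J k)⁻¹ : ℝ) : ℂ) * M k - (((a k - E : ℝ) : ℂ) - (s2 : ℂ) * m -
        ((η * δ : ℝ) : ℂ) * Complex.I)⁻¹‖ ≤
        4 / 3 * (ε + e1 + (2 * η + 8 * s2 ^ 2 * g ^ 2 / δ ^ 2)) *
        ‖((a k - E : ℝ) : ℂ) - (s2 : ℂ) * m - ((η * δ : ℝ) : ℂ) * Complex.I‖⁻¹ := by
  have hJ : ∀ k, δ ≤ J k := by
    intro k
    rw [hJJ]
    exact Real.le_sqrt_of_sq_le (by linarith [sq_nonneg (a k - E)])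
  have hJ0 : ∀ k, 0 < J k := fun k => hδ.trans_le (hJ k)
  have hηδ : 0 < η * δ := mul_pos hη hδ
  have hm' : m = ((N⁻¹ : ℝ) : ℂ) * ∑ k, (((J k)⁻¹ : ℝ) : ℂ) * M k := by
    rw [hm, Complex.ofReal_inv]
    congr 1
    refine Finset.sum_congr rfl fun k _ => ?_
    rw [Complex.ofReal_inv]
  obtain ⟨l, hl⟩ : ∃ l : ℂ, l = ((N⁻¹ : ℝ) : ℂ) *
    ∑ p, (((1 - h k p) * (J p)⁻¹ : ℝ) : ℂ) * M p := ⟨_, rfl⟩
  have hlk : ‖l‖ ≤ N⁻¹ * (S * (δ⁻¹ * η⁻¹)) := by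
    rw [hl, norm_mul, Complex.norm_real, Real.norm_eq_abs, abs_of_pos (inv_pos.2 hN)]
    refine mul_le_mul_of_nonneg_left ?_ (inv_nonneg.2 hN.le)
    rw [← hS k, Finset.sum_mul]
    refine (norm_sum_le _ _).trans (Finset.sum_le_sum fun p _ => ?_)
    have h1 : 0 ≤ 1 - h k p := by have := hh k p; linarith
    rw [norm_mul, Complex.norm_real, Real.norm_eq_abs,
      abs_of_nonneg (mul_nonneg h1 (inv_nonneg.2 (hJ0 p).le)), mul_assoc]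
    refine mul_le_mul_of_nonneg_left ?_ h1
    exact mul_le_mul (inv_anti₀ hδ (hJ p)) (hM p) (norm_nonneg _) (inv_nonneg.2 hδ.le)
  have hsl : ‖(s2 : ℂ) * l‖ ≤ e1 * (η * δ) := by
    rw [norm_mul, Complex.norm_real, Real.norm_eq_abs, abs_of_nonneg hs]
    calc s2 * ‖l‖ ≤ s2 * (N⁻¹ * (S * (δ⁻¹ * η⁻¹))) := mul_le_mul_of_nonneg_left hlk hs
      _ = (s2 * S) * (N⁻¹ * (δ⁻¹ * η⁻¹)) := by ring
      _ ≤ (e1 * (η ^ 2 * δ ^ 2) * N) * (N⁻¹ * (δ⁻¹ * η⁻¹)) :=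
        mul_le_mul_of_nonneg_right hS2 (by positivity)
      _ = e1 * (η * δ) := by field_simp
  have hsl4 : ‖(s2 : ℂ) * l‖ ≤ η * δ / 4 := hsl.trans (by nlinarith)
  have hsum : ∑ p, ((N⁻¹ * h k p * (J k * J p)⁻¹ : ℝ) : ℂ) * M p =
      (((J k)⁻¹ : ℝ) : ℂ) * (m - l) := by
    rw [hm', hl]
    rw [← mul_sub, ← Finset.sum_sub_distrib, Finset.mul_sum, Finset.mul_sum]
    refine Finset.sum_congr rfl fun p _ => ?_
    rw [mul_inv]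
    push_cast
    ring
  obtain ⟨D, hD⟩ : ∃ D : ℂ, D = ((a k - E : ℝ) : ℂ) -
    ((η * J k : ℝ) : ℂ) * Complex.I - (s2 : ℂ) * m + (s2 : ℂ) * l := ⟨_, rfl⟩
  obtain ⟨D0, hD0⟩ : ∃ D0 : ℂ, D0 = ((a k - E : ℝ) : ℂ) - (s2 : ℂ) * m -
        ((η * δ : ℝ) : ℂ) * Complex.I := ⟨_, rfl⟩
  have hDeq : ‖D * ((((J k)⁻¹ : ℝ) : ℂ) * M k) - 1‖ ≤ ε := by
    have hJc : ((J k : ℝ) : ℂ) ≠ 0 := by
      rw [Ne, Complex.ofReal_eq_zero]; exact (hJ0 k).ne'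
    have e1 : ((((a k - E) / J k : ℝ) : ℂ) - (η : ℂ) * Complex.I) * M k -
      (s2 : ℂ) * (∑ p, ((N⁻¹ * h k p * (J k * J p)⁻¹ : ℝ) : ℂ) * M p) * M k - 1 =
      D * ((((J k)⁻¹ : ℝ) : ℂ) * M k) - 1 := by
      rw [hsum, hD]
      push_cast
      field_simp
      ring
    have h1 := heq k
    rw [e1] at h1
    exact h1
  rw [← hD0]
  obtain ⟨jj, hjj⟩ : ∃ jj, jj = ‖D0‖ := ⟨_, rfl⟩
  have hD0e : D0 = (((a k - E - s2 * m.re) : ℝ) : ℂ) +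
        ((-(η * δ + s2 * m.im) : ℝ) : ℂ) * Complex.I := by
    rw [hD0]
    conv_lhs => rw [← Complex.re_add_im m]
    push_cast
    ring
  have hsm : 0 ≤ s2 * m.im := mul_nonneg hs hmim
  have hjs : jj = Real.sqrt ((a k - E - s2 * m.re) ^ 2 + (η * δ + s2 * m.im) ^ 2) := by
    rw [hjj, hD0e, Complex.norm_add_mul_I, neg_sq]
  have hj1 : η * δ ≤ jj := by
    rw [hjs]
    apply Real.le_sqrt_of_sq_le
    have h5 : (η * δ) ^ 2 ≤ (η * δ + s2 * m.im) ^ 2 := by gcongr; linarith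
    linarith [sq_nonneg (a k - E - s2 * m.re)]
  have hj0 : 0 < jj := hηδ.trans_le hj1
  have hDj : 3 / 4 * jj ≤ ‖D‖ := by
    have h3 : jj ≤ ‖D - (s2 : ℂ) * l‖ := by
      have e2 : D - (s2 : ℂ) * l = (((a k - E - s2 * m.re) : ℝ) : ℂ) +
          ((-(η * J k + s2 * m.im) : ℝ) : ℂ) * Complex.I := by
        rw [hD]
        conv_lhs => rw [← Complex.re_add_im m]
        push_cast
        ring
      rw [e2, Complex.norm_add_mul_I, hjs]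
      apply Real.sqrt_le_sqrt
      have h4 : η * δ + s2 * m.im ≤ η * J k + s2 * m.im := by
        have := mul_le_mul_of_nonneg_left (hJ k) hη.le
        linarith
      have h5 : (η * δ + s2 * m.im) ^ 2 ≤ (η * J k + s2 * m.im) ^ 2 := by gcongr
      rw [neg_sq]
      linarith
    have h4 : jj ≤ ‖D‖ + ‖(s2 : ℂ) * l‖ := h3.trans (norm_sub_le _ _)
    linarith
  have hR : (s2 * m.re) ^ 2 ≤ 4 * s2 ^ 2 * g ^ 2 := by
    have h1 : |m.re| ≤ 2 * g := (Complex.abs_re_le_norm m).trans hmn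
    have h2 : m.re ^ 2 ≤ (2 * g) ^ 2 := by
      rw [← sq_abs]
      exact pow_le_pow_left₀ (abs_nonneg _) h1 2
    calc (s2 * m.re) ^ 2 = s2 ^ 2 * m.re ^ 2 := by ring
      _ ≤ s2 ^ 2 * (2 * g) ^ 2 := by gcongr
      _ = _ := by ring
  have hDk : 0 < ‖D‖ := lt_of_lt_of_le (by positivity) hDj
  have hDn : D ≠ 0 := norm_pos_iff.1 hDk
  have hD0n : D0 ≠ 0 := norm_pos_iff.1 (by rw [← hjj]; exact hj0)
  obtain ⟨x, hx⟩ : ∃ x : ℂ, x = (((J k)⁻¹ : ℝ) : ℂ) * M k := ⟨_, rfl⟩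
  rw [← hx] at hDeq ⊢
  have e3 : x - D0⁻¹ = (D * x - 1) / D + (D0 - D) / (D * D0) := by
    field_simp
    ring
  have e4 : D0 - D = ((η * (J k - δ) : ℝ) : ℂ) * Complex.I - (s2 : ℂ) * l := by
    rw [hD0, hD]
    push_cast
    ring
  have e5 : ‖D0 - D‖ ≤ η * (J k - δ) + e1 * (η * δ) := by
    rw [e4]
    refine (norm_sub_le _ _).trans (add_le_add ?_ hsl)
    rw [norm_mul, Complex.norm_I, mul_one, Complex.norm_real, Real.norm_eq_abs,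
      abs_of_nonneg (mul_nonneg hη.le (by linarith [hJ k]))]
  have e6 : η * (J k - δ) ≤ (2 * η + 8 * s2 ^ 2 * g ^ 2 / δ ^ 2) * jj := by
    have h1 := reg_small δ η (a k - E) (s2 * m.re) hδ hη
    rw [← hJJ k] at h1
    have h2 : Real.sqrt ((a k - E - s2 * m.re) ^ 2 + (η * δ) ^ 2) ≤ jj := by
      rw [hjs]
      apply Real.sqrt_le_sqrt
      have h5 : (η * δ) ^ 2 ≤ (η * δ + s2 * m.im) ^ 2 := by gcongr; linarith
      linarith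
    have h3 : 2 * (s2 * m.re) ^ 2 / δ ^ 2 ≤ 8 * s2 ^ 2 * g ^ 2 / δ ^ 2 := by
      apply div_le_div_of_nonneg_right _ (by positivity)
      linarith
    refine h1.trans (mul_le_mul (by linarith) h2 (Real.sqrt_nonneg _) (by positivity))
  have e7 : ‖D0 - D‖ ≤ (e1 + (2 * η + 8 * s2 ^ 2 * g ^ 2 / δ ^ 2)) * jj := by
    have := mul_le_mul_of_nonneg_left hj1 he0
    rw [add_mul]
    linarith
  have hDinv : ‖D‖⁻¹ ≤ 4 / 3 * jj⁻¹ := by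
    have h1 := inv_anti₀ (by positivity) hDj
    rw [mul_inv] at h1
    norm_num at h1 ⊢
    exact h1
  rw [e3, ← hjj]
  refine (norm_add_le _ _).trans ?_
  rw [norm_div, norm_div, norm_mul, div_eq_mul_inv, div_eq_mul_inv, mul_inv, ← hjj]
  have hji : 0 ≤ jj⁻¹ := inv_nonneg.2 hj0.le
  have f1 : ‖D * x - 1‖ * ‖D‖⁻¹ ≤ ε * (4 / 3 * jj⁻¹) :=
    mul_le_mul hDeq hDinv (by positivity) hε0
  have f2 : ‖D0 - D‖ * (‖D‖⁻¹ * jj⁻¹) ≤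
      ((e1 + (2 * η + 8 * s2 ^ 2 * g ^ 2 / δ ^ 2)) * jj) * (4 / 3 * jj⁻¹ * jj⁻¹) := by
    have hc0 : 0 ≤ e1 + (2 * η + 8 * s2 ^ 2 * g ^ 2 / δ ^ 2) := by positivity
    refine mul_le_mul e7 (mul_le_mul hDinv le_rfl hji (by positivity))
      (by positivity) (mul_nonneg hc0 hj0.le)
  have f3 : ((e1 + (2 * η + 8 * s2 ^ 2 * g ^ 2 / δ ^ 2)) * jj) *
      (4 / 3 * jj⁻¹ * jj⁻¹) =
      4 / 3 * (e1 + (2 * η + 8 * s2 ^ 2 * g ^ 2 / δ ^ 2)) * jj⁻¹ := by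
    have := hj0.ne'
    field_simp
  rw [f3] at f2
  linarith

end Pool.Agent.TH794.FG
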