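import Pool.Agent.TH794.LL2.Lat3

/-! The free resolvent in infinite volume. -/

set_option autoImplicit false
set_option linter.unusedSectionVars false

open scoped BigOperators Topology
open MeasureTheory Filter

namespace Pool.Agent.TH794.FG

open Pool.Agent.W788.BK
open Pool.Agent.W788
open Pool.Agent.W788.MFP.Four Pool.Agent.W788.MFP.Dos Pool.Agent.W788.MFP.Form
open Pool.Agent.W788.MFP.Ball Pool.Agent.W788.MFP.Crit Pool.Agent.W788.MFP.Cut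
open Pool.Agent.W788.MFP.Site Pool.Agent.W788.MF2.Dom Pool.Agent.W788.MF2.FinG
open Pool.Agent.W788.MF2.FormG Pool.Agent.W788.LD.Main Pool.Agent.H4R2
open Pool.Agent.H4R2.LO (Zd)
open Pool.Agent.H695R3.AN (lf lf_inj lf_add lf_sub)
open Pool.Agent.TH794.LL2

variable {d L : ℕ} [NeZero L]

/-- the Green function of the lattice as an approximate Green function of the torus -/
theorem LG_tor2 {σ : ℝ} {ξ : Zd d → ℝ} {E t : ℝ} {ur ui : Zd d → ℝ} (ℓ : ℝ) (hℓ0 : 0 < ℓ)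
    (hL : 4 * ℓ + 4 < L) (ht : 0 < t) (h : LG d σ ξ 0 E t ur ui) :
    ∃ vr vi rr ri : T d L → ℝ, vr 0 = ur 0 ∧ vi 0 = ui 0 ∧
      Sol2 E t (fun y => σ * ξ (lf y)) vr vi rr ri ∧
      Real.sqrt (Bq rr ri) ≤ 2 * d / ℓ * t⁻¹ := by
  obtain ⟨rr, hr1, hr2, hr3⟩ := cut2 (L := L) σ E ℓ hℓ0 hL ξ ur _ h.sr h.er
  obtain ⟨ri, hi1, hi2, hi3⟩ := cut2 (L := L) σ E ℓ hℓ0 hL ξ ui _ h.si h.ei
  have hn := h.norm ht
  have hz : z L (0 : Zd d) = (0 : T d L) := by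
    funext i
    simp [z]
  have h7 : lf (0 : T d L) = 0 := by
    rw [← hz]
    apply lf_z 0
    rw [norm_zero]
    linarith
  have h8 : φ ℓ (0 : Zd d) = 1 := φ_one ℓ hℓ0 0 (by rw [norm_zero]; exact hℓ0.le)
  refine ⟨fun y => φ ℓ (lf y) * ur (lf y), fun y => φ ℓ (lf y) * ui (lf y), rr, ri, ?_, ?_, ?_,
    ?_⟩
  · simp only
    rw [h7, h8, one_mul]
  · simp only
    rw [h7, h8, one_mul]
  · refine ⟨fun x => ?_, fun x => ?_⟩
    · rw [hr1 x]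
      have h9 : (if lf x = 0 then (1 : ℝ) else 0) = if x = 0 then 1 else 0 := by
        by_cases hx : x = 0
        · rw [if_pos hx, if_pos (by rw [hx]; exact h7)]
        · rw [if_neg hx, if_neg]
          intro hl
          apply hx
          apply lf_inj
          rw [hl, h7]
      have h10 : φ ℓ (lf x) * (if x = 0 then (1 : ℝ) else 0) = if x = 0 then 1 else 0 := by
        by_cases hx : x = 0
        · rw [if_pos hx, hx, h7, h8, one_mul]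
        · rw [if_neg hx, mul_zero]
      rw [h9, mul_sub, h10]
      ring
    · rw [hi1 x]
      ring
  · rw [Real.sqrt_le_left (by positivity)]
    calc Bq rr ri ≤ (2 * d / ℓ) ^ 2 * ∑' x, ur x ^ 2 + (2 * d / ℓ) ^ 2 * ∑' x, ui x ^ 2 :=
          add_le_add hr3 hi3
      _ = (2 * d / ℓ) ^ 2 * (∑' x, ur x ^ 2 + ∑' x, ui x ^ 2) := by ring
      _ ≤ (2 * d / ℓ) ^ 2 * (t⁻¹) ^ 2 := by gcongr
      _ = _ := by ring

/-- the free case on the torus -/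
theorem free_tor2 {E t : ℝ} (ht : 0 < t) {V vr vi rr ri : T d L → ℝ} (hV : ∀ x, V x = 0)
    (h : Sol2 E t V vr vi rr ri) :
    ‖((vr 0 : ℂ) + Complex.I * (vi 0 : ℂ)) - gL d L ((E : ℂ) + ((t : ℝ) : ℂ) * Complex.I)‖ ≤
      Real.sqrt (Bq rr ri) * t⁻¹ := by
  have hN := NN_pos (d := d) (L := L)
  have hNc : ((NN d L : ℝ) : ℂ) ≠ 0 := by exact_mod_cast hN.ne'
  have hfc0 : ∀ k : T d L, fc (fun x => V x * vr x) (fun x => V x * vi x) k = 0 := by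
    intro k
    unfold fc ft
    simp [hV]
  have h2 : ∀ k : T d L, t ≤ ‖((adj k : ℝ) : ℂ) - ((E : ℂ) + ((t : ℝ) : ℂ) * Complex.I)‖ := by
    intro k
    have h3 := Complex.abs_im_le_norm (((adj k : ℝ) : ℂ) - ((E : ℂ) + ((t : ℝ) : ℂ) * Complex.I))
    have h4 : (((adj k : ℝ) : ℂ) - ((E : ℂ) + ((t : ℝ) : ℂ) * Complex.I)).im = -t := by simp
    rw [h4, abs_neg, abs_of_pos ht] at h3
    exact h3
  have hz : ∀ k : T d L, ((adj k : ℝ) : ℂ) - ((E : ℂ) + ((t : ℝ) : ℂ) * Complex.I) ≠ 0 := by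
    intro k h0
    have := h2 k
    rw [h0, norm_zero] at this
    linarith
  have hk : ∀ k : T d L, fc vr vi k =
      (((adj k : ℝ) : ℂ) - ((E : ℂ) + ((t : ℝ) : ℂ) * Complex.I))⁻¹ +
      (((adj k : ℝ) : ℂ) - ((E : ℂ) + ((t : ℝ) : ℂ) * Complex.I))⁻¹ * fc rr ri k := by
    intro k
    have e1 := fc_eq h k
    rw [hfc0, add_zero] at e1
    have e2 : (((adj k : ℝ) : ℂ) - ((E : ℂ) + ((t : ℝ) : ℂ) * Complex.I)) * fc vr vi k =
        1 + fc rr ri k := by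
      push_cast at e1
      linear_combination e1
    have e3 : fc vr vi k = (((adj k : ℝ) : ℂ) - ((E : ℂ) + ((t : ℝ) : ℂ) * Complex.I))⁻¹ *
        ((((adj k : ℝ) : ℂ) - ((E : ℂ) + ((t : ℝ) : ℂ) * Complex.I)) * fc vr vi k) := by
      rw [← mul_assoc, inv_mul_cancel₀ (hz k), one_mul]
    rw [e3, e2]
    ring
  have h0 : ∑ k, fc vr vi k = (NN d L : ℂ) * ((vr 0 : ℂ) + Complex.I * (vi 0 : ℂ)) := by
    unfold fc
    rw [Finset.sum_add_distrib, ← Finset.mul_sum, Pool.Agent.W363.BK.at_zero,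
      Pool.Agent.W363.BK.at_zero]
    ring
  have h1 : ((vr 0 : ℂ) + Complex.I * (vi 0 : ℂ)) -
      gL d L ((E : ℂ) + ((t : ℝ) : ℂ) * Complex.I) = ((NN d L : ℝ) : ℂ)⁻¹ *
      ∑ k : T d L, (((adj k : ℝ) : ℂ) - ((E : ℂ) + ((t : ℝ) : ℂ) * Complex.I))⁻¹ *
        fc rr ri k := by
    have e1 : ((vr 0 : ℂ) + Complex.I * (vi 0 : ℂ)) = ((NN d L : ℝ) : ℂ)⁻¹ *
        ∑ k, fc vr vi k := by
      rw [h0, ← mul_assoc, inv_mul_cancel₀ hNc, one_mul]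
    rw [e1]
    unfold gL
    rw [← mul_sub, ← Finset.sum_sub_distrib]
    refine congrArg (fun s => ((NN d L : ℝ) : ℂ)⁻¹ * s) (Finset.sum_congr rfl fun k _ => ?_)
    rw [hk k]
    ring
  rw [h1, norm_mul, norm_inv, Complex.norm_real, Real.norm_eq_abs, abs_of_pos hN,
    inv_mul_le_iff₀ hN]
  have h4 : ∀ k : T d L, ‖(((adj k : ℝ) : ℂ) - ((E : ℂ) + ((t : ℝ) : ℂ) * Complex.I))⁻¹ *
        fc rr ri k‖ ≤ t⁻¹ * ‖fc rr ri k‖ := by
    intro k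
    rw [norm_mul, norm_inv]
    exact mul_le_mul_of_nonneg_right (inv_anti₀ ht (h2 k)) (norm_nonneg _)
  refine (norm_sum_le _ _).trans ((Finset.sum_le_sum fun k _ => h4 k).trans ?_)
  rw [← Finset.mul_sum]
  have h5 : ∑ k, ‖fc rr ri k‖ ≤ NN d L * Real.sqrt (Bq rr ri) := by
    refine (abs_le_of_sq_le_sq' ?_ (by positivity)).2
    calc (∑ k, ‖fc rr ri k‖) ^ 2 ≤ (Finset.univ : Finset (T d L)).card * ∑ k, ‖fc rr ri k‖ ^ 2 :=
          sq_sum_le_card_mul_sum_sq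
      _ = (NN d L * Real.sqrt (Bq rr ri)) ^ 2 := by
        rw [Finset.card_univ, Pool.Agent.W788.MFP.Four.card_T, sum_fc_one, mul_pow,
          Real.sq_sqrt (Bq_nonneg _ _)]
        ring
  calc t⁻¹ * ∑ k, ‖fc rr ri k‖ ≤ t⁻¹ * (NN d L * Real.sqrt (Bq rr ri)) := by gcongr
    _ = _ := by ring

/-- the free Green function: the lattice and the torus -/
theorem freeC2 (ℓ t : ℝ) (ht : 0 < t) (hℓ0 : 0 < ℓ) (hL : 4 * ℓ + 4 < L) (E : ℝ)
    (ur ui : Zd d → ℝ) (h : LG d 0 (fun _ => 0) 0 E t ur ui) :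
    ‖((ur 0 : ℂ) + Complex.I * (ui 0 : ℂ)) - gL d L ((E : ℂ) + ((t : ℝ) : ℂ) * Complex.I)‖ ≤
      2 * d / ℓ * t⁻¹ * t⁻¹ := by
  obtain ⟨vr, vi, rr, ri, hv0, hv1, hsol, hBr⟩ := LG_tor2 (L := L) ℓ hℓ0 hL ht h
  have h1 := free_tor2 ht (fun x => by simp) hsol
  rw [hv0, hv1] at h1
  exact h1.trans (mul_le_mul_of_nonneg_right hBr (inv_nonneg.2 ht.le))

/-- **Hölder continuity in infinite volume** -/
theorem inf_holder (hO : S_OSC) (hd : 3 ≤ d) (E E' t t' : ℝ) (ht : 0 < t) (ht' : 0 < t')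
    (ur ui ur' ui' : Zd d → ℝ) (h : LG d 0 (fun _ => 0) 0 E t ur ui)
    (h' : LG d 0 (fun _ => 0) 0 E' t' ur' ui') :
    ‖((ur 0 : ℂ) + Complex.I * (ui 0 : ℂ)) - ((ur' 0 : ℂ) + Complex.I * (ui' 0 : ℂ))‖ ≤
      2 * 10 ^ d * K5 * ‖((E : ℂ) + ((t : ℝ) : ℂ) * Complex.I) -
        ((E' : ℂ) + ((t' : ℝ) : ℂ) * Complex.I)‖ ^ (1 / 4 : ℝ) := by
  obtain ⟨v, hv⟩ : ∃ v, v = (ur 0 : ℂ) + Complex.I * (ui 0 : ℂ) := ⟨_, rfl⟩
  obtain ⟨v', hv'⟩ : ∃ v, v = (ur' 0 : ℂ) + Complex.I * (ui' 0 : ℂ) := ⟨_, rfl⟩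
  obtain ⟨z, hz⟩ : ∃ z, z = (E : ℂ) + ((t : ℝ) : ℂ) * Complex.I := ⟨_, rfl⟩
  obtain ⟨z', hz'⟩ : ∃ z, z = (E' : ℂ) + ((t' : ℝ) : ℂ) * Complex.I := ⟨_, rfl⟩
  rw [← hv, ← hv', ← hz, ← hz']
  obtain ⟨tm, htm⟩ : ∃ tm, tm = min t t' := ⟨_, rfl⟩
  have htm0 : 0 < tm := by rw [htm]; exact lt_min ht ht'
  have hzi : tm ≤ z.im := by
    have : z.im = t := by rw [hz]; simp
    rw [this, htm]
    exact min_le_left _ _
  have hzi' : tm ≤ z'.im := by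
    have : z'.im = t' := by rw [hz']; simp
    rw [this, htm]
    exact min_le_right _ _
  obtain ⟨X, hX⟩ : ∃ X, X = 2 * 10 ^ d * K5 * ‖z - z'‖ ^ (1 / 4 : ℝ) := ⟨_, rfl⟩
  rw [← hX]
  have key : ∀ n : ℕ, ‖v - v'‖ ≤ 2 * d * t⁻¹ * t⁻¹ * (1 / ((n : ℝ) + 1)) +
      (X + 4 / tm * Real.exp (-(tm * ((n : ℝ) + 1) / 2))) +
      2 * d * t'⁻¹ * t'⁻¹ * (1 / ((n : ℝ) + 1)) := by
    intro n
    obtain ⟨L, hL⟩ : ∃ L : ℕ, L = (n + 4) ^ 2 := ⟨_, rfl⟩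
    have hLne : NeZero L := ⟨by rw [hL]; positivity⟩
    have hn0 : (0 : ℝ) ≤ n := Nat.cast_nonneg n
    have hLr : (L : ℝ) = ((n : ℝ) + 4) ^ 2 := by rw [hL]; push_cast; ring
    have hL1 : 4 * ((n : ℝ) + 1) + 4 < L := by
      rw [hLr]
      nlinarith
    have hL2 : (1 + ((n : ℝ) + 1)) ^ 3 ≤ (L : ℝ) ^ 2 := by
      rw [hLr]
      have h1 : (1 + ((n : ℝ) + 1)) ^ 3 ≤ ((n : ℝ) + 4) ^ 3 := by
        apply pow_le_pow_left₀ (by positivity)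
        linarith
      have h2 : ((n : ℝ) + 4) ^ 3 ≤ ((n : ℝ) + 4) ^ 4 := by
        apply pow_le_pow_right₀ (by linarith) (by norm_num)
      calc (1 + ((n : ℝ) + 1)) ^ 3 ≤ ((n : ℝ) + 4) ^ 4 := h1.trans h2
        _ = _ := by ring
    have a1 := freeC2 (L := L) ((n : ℝ) + 1) t ht (by positivity) hL1 E ur ui h
    have a2 := freeC2 (L := L) ((n : ℝ) + 1) t' ht' (by positivity) hL1 E' ur' ui' h'
    have a3 := gL_holder (d := d) (L := L) hO hd tm ((n : ℝ) + 1) htm0 hL2 z z' hzi hzi'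
    rw [← hv, ← hz] at a1
    rw [← hv', ← hz'] at a2
    rw [← hX] at a3
    have e1 : v - v' = (v - gL d L z) + (gL d L z - gL d L z') + (gL d L z' - v') := by ring
    rw [e1]
    refine (norm_add_le _ _).trans (add_le_add ((norm_add_le _ _).trans (add_le_add ?_ a3)) ?_)
    · refine a1.trans (le_of_eq ?_)
      ring
    · rw [norm_sub_rev]
      refine a2.trans (le_of_eq ?_)
      ring
  have l1 : Tendsto (fun n : ℕ => 1 / ((n : ℝ) + 1)) atTop (𝓝 0) :=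
    tendsto_one_div_add_atTop_nhds_zero_nat
  have l2 : Tendsto (fun n : ℕ => Real.exp (-(tm * ((n : ℝ) + 1) / 2))) atTop (𝓝 0) := by
    apply Real.tendsto_exp_neg_atTop_nhds_zero.comp
    apply Tendsto.atTop_div_const (by norm_num)
    apply Tendsto.const_mul_atTop htm0
    exact tendsto_atTop_add_const_right _ _ tendsto_natCast_atTop_atTop
  have l3 := ((l1.const_mul (2 * d * t⁻¹ * t⁻¹)).add ((l2.const_mul (4 / tm)).const_add X)).add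
    (l1.const_mul (2 * d * t'⁻¹ * t'⁻¹))
  simp only [mul_zero, add_zero, zero_add] at l3
  exact ge_of_tendsto' l3 key

end Pool.Agent.TH794.FG
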