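import Pool.Agent.TH794.FG.Tor3
import Pool.Agent.TH794.LL2.Lat3

/-! From the torus to the lattice, for a source. -/

set_option autoImplicit false
set_option linter.unusedSectionVars false

open scoped BigOperators
open MeasureTheory

namespace Pool.Agent.TH794.FG

open Pool.Agent.W788.BK
open Pool.Agent.W788
open Pool.Agent.W788.MFP.Four Pool.Agent.W788.MFP.Dos Pool.Agent.W788.MFP.Form
open Pool.Agent.W788.MFP.Ball Pool.Agent.W788.MFP.Crit Pool.Agent.W788.MFP.Cut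
open Pool.Agent.W788.MFP.Site Pool.Agent.W788.MF2.Dom Pool.Agent.W788.MF2.FinG
open Pool.Agent.W788.MF2.FormG Pool.Agent.W788.LD.Main Pool.Agent.H4R2
open Pool.Agent.H4R2.LO (Zd)
open Pool.Agent.H695R3.AN (lf lf_inj lf_add lf_sub)
open Pool.Agent.TH794.LL2

variable {d L : ℕ} [NeZero L]

/-- the resolvent of `A + σ ξ` at the energy `E + i t` in the source `f` -/
structure LS (d : ℕ) (σ : ℝ) (ξ fr fi : Zd d → ℝ) (E t : ℝ) (ur ui : Zd d → ℝ) : Prop where
  sr : Summable fun x => ur x ^ 2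
  si : Summable fun x => ui x ^ 2
  er : ∀ x, ∑ i, (ur (x + Pi.single i 1) + ur (x - Pi.single i 1)) + σ * ξ x * ur x =
      E * ur x + (fr x - t * ui x)
  ei : ∀ x, ∑ i, (ui (x + Pi.single i 1) + ui (x - Pi.single i 1)) + σ * ξ x * ui x =
      E * ui x + (fi x + t * ur x)

theorem fin_supp (R0 : ℝ) (g : Zd d → ℝ) (h : ∀ x, R0 < ‖x‖ → g x = 0) :
    (Function.support g).Finite := by
  refine (LO.bx (0 : Zd d) ⌊R0⌋₊).finite_toSet.subset fun x hx => ?_
  by_contra hcon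
  apply hx
  apply h
  by_contra hle
  push Not at hle
  exact hcon (Gen3.norm_zd x R0 hle)

theorem fin_supp_shift (R0 : ℝ) (g : Zd d → ℝ) (h : ∀ x, R0 < ‖x‖ → g x = 0) (a : Zd d)
    (k : Zd d → ℝ) : (Function.support fun x => g (x - a) * k x).Finite := by
  have h1 := fin_supp R0 g h
  have h2 : (Function.support fun x => g (x - a)).Finite := by
    have h3 : (Function.support fun x => g (x - a)) =
        (Equiv.subRight a) ⁻¹' (Function.support g) := by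
      ext x
      simp
    rw [h3]
    exact h1.preimage (Equiv.injective _).injOn
  refine h2.subset fun x hx => ?_
  intro h0
  apply hx
  simp only at h0 ⊢
  rw [h0, zero_mul]

theorem sum_tor (ℓ : ℝ) (hL : 2 * ℓ < L) (g : Zd d → ℝ) (h : ∀ x, ℓ < ‖x‖ → g x = 0) :
    ∑ y : T d L, g (lf y) = ∑' x, g x := by
  classical
  rw [tsum_eq_sum (s := Finset.univ.image (lf : T d L → Zd d))]
  · rw [Finset.sum_image]
    intro x _ y _ hxy
    exact lf_inj hxy
  · intro x hx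
    apply h
    by_contra hle
    push Not at hle
    apply hx
    rw [Finset.mem_image]
    exact ⟨z L x, Finset.mem_univ _, lf_z x (by linarith)⟩

/-- the Ward identity on the lattice -/
theorem LS.ward {σ : ℝ} {ξ fr fi : Zd d → ℝ} {E t : ℝ} {ur ui : Zd d → ℝ}
    (h : LS d σ ξ fr fi E t ur ui) (hr : (Function.support fr).Finite)
    (hi : (Function.support fi).Finite) :
    t * (∑' x, ur x ^ 2 + ∑' x, ui x ^ 2) = ∑' x, (fr x * ui x - fi x * ur x) := by
  have hc : ∀ u : Zd d → ℝ, (Summable fun x => u x ^ 2) →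
      Summable fun x => ‖((u x : ℝ) : ℂ)‖ ^ 2 := by
    intro u hu
    refine hu.congr fun x => ?_
    rw [Complex.norm_real, Real.norm_eq_abs, sq_abs]
  obtain ⟨s1, s2, e1⟩ := Pool.Agent.W788.LD.Spec.symm (fun x => ((ui x : ℝ) : ℂ))
    (fun x => ((ur x : ℝ) : ℂ)) (hc ui h.si) (hc ur h.sr)
  have hS : ∀ (u : Zd d → ℝ) x, Pool.Agent.W788.LD.Spec.S (fun x => ((u x : ℝ) : ℂ)) x =
      ((∑ i, (u (x + Pi.single i 1) + u (x - Pi.single i 1)) : ℝ) : ℂ) := by
    intro u x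
    unfold Pool.Agent.W788.LD.Spec.S
    push_cast
    rfl
  have e2 : ∀ x, (starRingEnd ℂ) ((ui x : ℝ) : ℂ) *
      Pool.Agent.W788.LD.Spec.S (fun x => ((ur x : ℝ) : ℂ)) x -
      (starRingEnd ℂ) (Pool.Agent.W788.LD.Spec.S (fun x => ((ui x : ℝ) : ℂ)) x) *
        ((ur x : ℝ) : ℂ) =
      (((fr x * ui x - fi x * ur x) - t * (ur x ^ 2 + ui x ^ 2) : ℝ) : ℂ) := by
    intro x
    rw [hS, hS, Complex.conj_ofReal, Complex.conj_ofReal, ← Complex.ofReal_mul,
      ← Complex.ofReal_mul, ← Complex.ofReal_sub]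
    congr 1
    have a1 := h.er x
    have a2 := h.ei x
    linear_combination (ui x) * a1 - (ur x) * a2
  have e3 : ∑' x, ((starRingEnd ℂ) ((ui x : ℝ) : ℂ) *
      Pool.Agent.W788.LD.Spec.S (fun x => ((ur x : ℝ) : ℂ)) x -
      (starRingEnd ℂ) (Pool.Agent.W788.LD.Spec.S (fun x => ((ui x : ℝ) : ℂ)) x) *
        ((ur x : ℝ) : ℂ)) = 0 := by
    rw [s1.tsum_sub s2, e1, sub_self]
  rw [tsum_congr (L := .unconditional _) e2, ← Complex.ofReal_tsum] at e3
  have e4 : ∑' x, ((fr x * ui x - fi x * ur x) - t * (ur x ^ 2 + ui x ^ 2)) = 0 := by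
    exact_mod_cast e3
  have s3 : Summable fun x => (fr x * ui x - fi x * ur x) := by
    refine Summable.sub (summable_of_hasFiniteSupport (hr.subset ?_))
      (summable_of_hasFiniteSupport (hi.subset ?_))
    · intro x hx h0
      exact hx (by simp only; rw [h0, zero_mul])
    · intro x hx h0
      exact hx (by simp only; rw [h0, zero_mul])
  rw [s3.tsum_sub ((h.sr.add h.si).mul_left t), tsum_mul_left,
    h.sr.tsum_add h.si] at e4
  linarith

/-- the norm of the resolvent -/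
theorem LS.norm {σ : ℝ} {ξ fr fi : Zd d → ℝ} {E t : ℝ} {ur ui : Zd d → ℝ}
    (h : LS d σ ξ fr fi E t ur ui) (hr : (Function.support fr).Finite)
    (hi : (Function.support fi).Finite) (ht : 0 < t)
    (hf1 : ∑' x, (fr x ^ 2 + fi x ^ 2) = 1) :
    ∑' x, ur x ^ 2 + ∑' x, ui x ^ 2 ≤ (t⁻¹) ^ 2 := by
  classical
  have h1 := h.ward hr hi
  obtain ⟨T, hT⟩ : ∃ T, T = ∑' x, ur x ^ 2 + ∑' x, ui x ^ 2 := ⟨_, rfl⟩
  rw [← hT] at h1 ⊢
  obtain ⟨s, hs⟩ : ∃ s : Finset (Zd d), s = hr.toFinset ∪ hi.toFinset := ⟨_, rfl⟩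
  have hsr : ∀ x ∉ s, fr x = 0 := by
    intro x hx
    by_contra h0
    apply hx
    rw [hs, Finset.mem_union]
    exact Or.inl (hr.mem_toFinset.2 h0)
  have hsi : ∀ x ∉ s, fi x = 0 := by
    intro x hx
    by_contra h0
    apply hx
    rw [hs, Finset.mem_union]
    exact Or.inr (hi.mem_toFinset.2 h0)
  rw [tsum_eq_sum (s := s) (fun x hx => by rw [hsr x hx, hsi x hx]; ring)] at h1 hf1
  have h2 : (∑ x ∈ s, (fr x * ui x - fi x * ur x)) ^ 2 ≤ T := by
    have h7' : ∀ x, |fr x * ui x - fi x * ur x| ≤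
        Real.sqrt (fr x ^ 2 + fi x ^ 2) * Real.sqrt (ur x ^ 2 + ui x ^ 2) := by
      intro x
      rw [← Real.sqrt_mul (by positivity)]
      apply Real.le_sqrt_of_sq_le
      rw [sq_abs]
      nlinarith [sq_nonneg (fr x * ur x + fi x * ui x)]
    have h8 : |∑ x ∈ s, (fr x * ui x - fi x * ur x)| ≤
        ∑ x ∈ s, Real.sqrt (fr x ^ 2 + fi x ^ 2) * Real.sqrt (ur x ^ 2 + ui x ^ 2) :=
      (Finset.abs_sum_le_sum_abs _ _).trans (Finset.sum_le_sum fun x _ => h7' x)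
    have h9 := Finset.sum_mul_sq_le_sq_mul_sq s
      (fun x => Real.sqrt (fr x ^ 2 + fi x ^ 2)) (fun x => Real.sqrt (ur x ^ 2 + ui x ^ 2))
    rw [← sq_abs]
    refine (pow_le_pow_left₀ (abs_nonneg _) h8 2).trans (h9.trans ?_)
    have e1 : ∑ x ∈ s, Real.sqrt (fr x ^ 2 + fi x ^ 2) ^ 2 = 1 := by
      rw [← hf1]
      exact Finset.sum_congr rfl fun x _ => Real.sq_sqrt (by positivity)
    have e2 : ∑ x ∈ s, Real.sqrt (ur x ^ 2 + ui x ^ 2) ^ 2 = ∑ x ∈ s, (ur x ^ 2 + ui x ^ 2) :=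
      Finset.sum_congr rfl fun x _ => Real.sq_sqrt (by positivity)
    rw [e1, e2, one_mul, hT, ← h.sr.tsum_add h.si]
    exact (h.sr.add h.si).sum_le_tsum s fun x _ => by positivity
  rw [← h1] at h2
  have hT0 : 0 ≤ T := by
    rw [hT]
    exact add_nonneg (tsum_nonneg fun x => sq_nonneg _) (tsum_nonneg fun x => sq_nonneg _)
  rcases hT0.eq_or_lt with h0 | h0
  · rw [← h0]
    positivity
  · have h3 : t ^ 2 * T ≤ 1 := by
      have : t ^ 2 * T * T ≤ 1 * T := by nlinarith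
      exact le_of_mul_le_mul_right this h0
    rw [inv_pow, ← one_div, le_div_iff₀ (by positivity)]
    linarith

/-- translation -/
theorem LS.shift {σ : ℝ} {ξ fr fi : Zd d → ℝ} {E t : ℝ} {ur ui : Zd d → ℝ} (a : Zd d)
    (h : LS d σ ξ (fun x => fr (x - a)) (fun x => fi (x - a)) E t ur ui) :
    LS d σ (fun x => ξ (x + a)) fr fi E t (fun x => ur (x + a)) (fun x => ui (x + a)) where
  sr := sum_shiftR ur a h.sr
  si := sum_shiftR ui a h.si
  er x := by
    have h1 := h.er (x + a)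
    have h2 : ∀ i : Fin d, x + Pi.single i 1 + a = x + a + Pi.single i 1 := fun i => by abel
    have h3 : ∀ i : Fin d, x - Pi.single i 1 + a = x + a - Pi.single i 1 := fun i => by abel
    simp only [h2, h3]
    simp only [add_sub_cancel_right] at h1
    exact h1
  ei x := by
    have h1 := h.ei (x + a)
    have h2 : ∀ i : Fin d, x + Pi.single i 1 + a = x + a + Pi.single i 1 := fun i => by abel
    have h3 : ∀ i : Fin d, x - Pi.single i 1 + a = x + a - Pi.single i 1 := fun i => by abel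
    simp only [h2, h3]
    simp only [add_sub_cancel_right] at h1
    exact h1

/-- the resolvent of the lattice as an approximate resolvent of the torus -/
theorem LS.tor {σ : ℝ} {ξ fr fi : Zd d → ℝ} {E t : ℝ} {ur ui : Zd d → ℝ} (ℓ : ℝ) (hℓ0 : 0 < ℓ)
    (hL : 4 * ℓ + 4 < L) (ht : 0 < t) (h : LS d σ ξ fr fi E t ur ui)
    (hfr : ∀ x, ℓ < ‖x‖ → fr x = 0) (hfi : ∀ x, ℓ < ‖x‖ → fi x = 0)
    (hf1 : ∑' x, (fr x ^ 2 + fi x ^ 2) = 1) :
    ∃ vr vi rr ri : T d L → ℝ,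
      pr (fun y : T d L => fr (lf y)) (fun y => fi (lf y)) vr vi =
        ∑' x, (fr x * ui x - fi x * ur x) ∧
      Sol3 E t (fun y => σ * ξ (lf y)) (fun y => fr (lf y)) (fun y => fi (lf y)) vr vi rr ri ∧
      Real.sqrt (Bq vr vi) ≤ t⁻¹ ∧ Real.sqrt (Bq rr ri) ≤ 2 * d / ℓ * t⁻¹ := by
  obtain ⟨rr, hr1, hr2, hr3⟩ := cut2 (L := L) σ E ℓ hℓ0 hL ξ ur _ h.sr h.er
  obtain ⟨ri, hi1, hi2, hi3⟩ := cut2 (L := L) σ E ℓ hℓ0 hL ξ ui _ h.si h.ei
  have hn := h.norm (fin_supp ℓ fr hfr) (fin_supp ℓ fi hfi) ht hf1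
  have hφr : ∀ x : Zd d, φ ℓ x * fr x = fr x := by
    intro x
    rcases le_or_gt ‖x‖ ℓ with h0 | h0
    · rw [φ_one ℓ hℓ0 x h0, one_mul]
    · rw [hfr x h0, mul_zero]
  have hφi : ∀ x : Zd d, φ ℓ x * fi x = fi x := by
    intro x
    rcases le_or_gt ‖x‖ ℓ with h0 | h0
    · rw [φ_one ℓ hℓ0 x h0, one_mul]
    · rw [hfi x h0, mul_zero]
  refine ⟨fun y => φ ℓ (lf y) * ur (lf y), fun y => φ ℓ (lf y) * ui (lf y), rr, ri, ?_, ?_, ?_,
    ?_⟩
  · unfold pr
    rw [← sum_tor (L := L) ℓ (by linarith) (fun x => fr x * ui x - fi x * ur x)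
      (fun x hx => by rw [hfr x hx, hfi x hx]; ring)]
    refine Finset.sum_congr rfl fun y _ => ?_
    have e1 := hφr (lf y)
    have e2 := hφi (lf y)
    linear_combination (ui (lf y)) * e1 - (ur (lf y)) * e2
  · refine ⟨fun x => ?_, fun x => ?_⟩
    · rw [hr1 x, mul_sub, hφr]
      ring
    · rw [hi1 x, mul_add, hφi]
      ring
  · rw [Real.sqrt_le_left (inv_nonneg.2 ht.le)]
    refine le_trans ?_ hn
    exact add_le_add hr2 hi2
  · rw [Real.sqrt_le_left (by positivity)]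
    calc Bq rr ri ≤ (2 * d / ℓ) ^ 2 * ∑' x, ur x ^ 2 + (2 * d / ℓ) ^ 2 * ∑' x, ui x ^ 2 :=
          add_le_add hr3 hi3
      _ = (2 * d / ℓ) ^ 2 * (∑' x, ur x ^ 2 + ∑' x, ui x ^ 2) := by ring
      _ ≤ (2 * d / ℓ) ^ 2 * (t⁻¹) ^ 2 := by gcongr
      _ = _ := by ring

/-- the norm of the source on the torus -/
theorem src_norm (ℓ : ℝ) (hL : 2 * ℓ < L) (fr fi : Zd d → ℝ)
    (hfr : ∀ x, ℓ < ‖x‖ → fr x = 0) (hfi : ∀ x, ℓ < ‖x‖ → fi x = 0)
    (hf1 : ∑' x, (fr x ^ 2 + fi x ^ 2) = 1) :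
    Bq (fun y : T d L => fr (lf y)) (fun y => fi (lf y)) = 1 := by
  unfold Bq
  rw [← Finset.sum_add_distrib]
  have h1 := sum_tor (L := L) ℓ hL (fun x => fr x ^ 2 + fi x ^ 2)
    (fun x hx => by rw [hfr x hx, hfi x hx]; ring)
  rw [hf1] at h1
  exact h1

/-- the energy of the source on the torus -/
theorem src_energy (ℓ E0 ω0 ω1 : ℝ) (hℓ0 : 0 < ℓ) (hL : 4 * ℓ + 4 < L) (fr fi : Zd d → ℝ)
    (hfr : ∀ x, ℓ < ‖x‖ → fr x = 0) (hfi : ∀ x, ℓ < ‖x‖ → fi x = 0)
    (hf1 : ∑' x, (fr x ^ 2 + fi x ^ 2) = 1)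
    (hf2 : ∑' x, ((∑ i, (fr (x + Pi.single i 1) + fr (x - Pi.single i 1)) - E0 * fr x) ^ 2 +
      (∑ i, (fi (x + Pi.single i 1) + fi (x - Pi.single i 1)) - E0 * fi x) ^ 2) ≤ ω0 ^ 2)
    (hω : 2 * (2 * d / ℓ) ^ 2 + 2 * ω0 ^ 2 ≤ ω1 ^ 2) :
    ∑ k : T d L, ‖fc (fun y : T d L => fr (lf y)) (fun y => fi (lf y)) k‖ ^ 2 *
      (adj k - E0) ^ 2 ≤ ω1 ^ 2 * NN d L := by
  have hev : ∀ k : T d L, adj (-k) - E0 = adj k - E0 := fun k => by rw [adj_neg]
  have hN := NN_pos (d := d) (L := L)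
  have hsf : ∀ g : Zd d → ℝ, (∀ x, ℓ < ‖x‖ → g x = 0) → Summable fun x => g x ^ 2 := by
    intro g hg
    refine summable_of_hasFiniteSupport ((fin_supp ℓ g hg).subset fun x hx h0 => hx ?_)
    simp only
    rw [h0]
    ring
  have hsa : ∀ g : Zd d → ℝ, (∀ x, ℓ < ‖x‖ → g x = 0) → Summable fun x =>
      (∑ i, (g (x + Pi.single i 1) + g (x - Pi.single i 1)) - E0 * g x) ^ 2 := by
    intro g hg
    refine summable_of_hasFiniteSupport ((fin_supp (ℓ + 1) _ ?_))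
    intro x hx
    have h1 : ∀ i : Fin d, ‖(Pi.single i 1 : Zd d)‖ ≤ 1 := by
      intro i
      rw [pi_norm_le_iff_of_nonneg zero_le_one]
      intro j
      by_cases hj : j = i
      · rw [hj, Pi.single_eq_same]
        simp
      · rw [Pi.single_eq_of_ne hj]
        simp
    have h2 : ∀ i : Fin d, g (x + Pi.single i 1) = 0 := by
      intro i
      apply hg
      have := norm_sub_norm_le x (-(Pi.single i 1 : Zd d))
      rw [norm_neg, sub_neg_eq_add] at this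
      have := h1 i
      linarith
    have h3 : ∀ i : Fin d, g (x - Pi.single i 1) = 0 := by
      intro i
      apply hg
      have := norm_sub_norm_le x (Pi.single i 1 : Zd d)
      have := h1 i
      linarith
    have h4 : g x = 0 := hg x (by linarith)
    simp only [h2, h3, h4]
    simp
  have key : ∀ g : Zd d → ℝ, (∀ x, ℓ < ‖x‖ → g x = 0) →
      ∑ y : T d L, Op (fun k => adj k - E0) (fun y : T d L => g (lf y)) y ^ 2 ≤
        2 * (2 * d / ℓ) ^ 2 * ∑' x, g x ^ 2 + 2 * ∑' x,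
          (∑ i, (g (x + Pi.single i 1) + g (x - Pi.single i 1)) - E0 * g x) ^ 2 := by
    intro g hg
    obtain ⟨r, h1, -, h3⟩ := cut2 (L := L) 0 E0 ℓ hℓ0 hL (fun _ => 0) g
      (fun x => ∑ i, (g (x + Pi.single i 1) + g (x - Pi.single i 1)) - E0 * g x) (hsf g hg)
      (fun x => by ring)
    have hφ : (fun y : T d L => φ ℓ (lf y) * g (lf y)) = fun y => g (lf y) := by
      funext y
      rcases le_or_gt ‖lf y‖ ℓ with h0 | h0
      · rw [φ_one ℓ hℓ0 _ h0, one_mul]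
      · rw [hg _ h0, mul_zero]
    rw [hφ] at h1
    have h4 : ∀ y : T d L, Op (fun k => adj k - E0) (fun y : T d L => g (lf y)) y ^ 2 ≤
        2 * r y ^ 2 + 2 * (∑ i, (g (lf y + Pi.single i 1) + g (lf y - Pi.single i 1)) -
          E0 * g (lf y)) ^ 2 := by
      intro y
      rw [h1 y]
      obtain ⟨X, hX⟩ : ∃ X, X = ∑ i, (g (lf y + Pi.single i 1) + g (lf y - Pi.single i 1)) -
          E0 * g (lf y) := ⟨_, rfl⟩
      rw [← hX]
      have e1 : (φ ℓ (lf y) * X) ^ 2 ≤ X ^ 2 := by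
        rw [mul_pow]
        apply mul_le_of_le_one_left (sq_nonneg _)
        exact pow_le_one₀ (φ_nonneg _ _) (φ_le_one _ _)
      have e2 := sq_nonneg (r y - φ ℓ (lf y) * X)
      nlinarith
    refine (Finset.sum_le_sum fun y _ => h4 y).trans ?_
    rw [Finset.sum_add_distrib, ← Finset.mul_sum, ← Finset.mul_sum]
    have h5 := sum_lf (L := L) (fun x => (∑ i, (g (x + Pi.single i 1) +
      g (x - Pi.single i 1)) - E0 * g x) ^ 2) (fun x => sq_nonneg _) (hsa g hg)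
    rw [mul_assoc]
    linarith
  have hf2' := hf2
  rw [(hsa fr hfr).tsum_add (hsa fi hfi)] at hf2'
  have hf1' := hf1
  rw [(hsf fr hfr).tsum_add (hsf fi hfi)] at hf1'
  have h1 : ∀ k : T d L, ‖fc (fun y : T d L => fr (lf y)) (fun y => fi (lf y)) k‖ ^ 2 *
      (adj k - E0) ^ 2 = ‖fc (Op (fun k => adj k - E0) (fun y : T d L => fr (lf y)))
        (Op (fun k => adj k - E0) (fun y : T d L => fi (lf y))) k‖ ^ 2 := by
    intro k
    have e1 : fc (Op (fun k => adj k - E0) (fun y : T d L => fr (lf y)))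
        (Op (fun k => adj k - E0) (fun y : T d L => fi (lf y))) k =
        ((adj k - E0 : ℝ) : ℂ) * fc (fun y : T d L => fr (lf y)) (fun y => fi (lf y)) k := by
      unfold fc
      rw [ft_Op _ _ hev, ft_Op _ _ hev]
      ring
    rw [e1, norm_mul, mul_pow, Complex.norm_real, Real.norm_eq_abs, sq_abs]
    ring
  rw [Finset.sum_congr rfl fun k _ => h1 k, sum_fc_one, mul_comm]
  apply mul_le_mul_of_nonneg_right _ hN.le
  unfold Bq
  have k1 := key fr hfr
  have k2 := key fi hfi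
  have hf3 := congrArg (fun s => 2 * (2 * (d : ℝ) / ℓ) ^ 2 * s) hf1'
  simp only [mul_add, mul_one] at hf3
  linarith

end Pool.Agent.TH794.FG
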