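import Pool.Agent.TH794.FG.Mean3

/-! The mean of the resolvent in a source which is localised in energy. -/

set_option autoImplicit false
set_option linter.unusedSectionVars false

open scoped BigOperators Matrix
open MeasureTheory

namespace Pool.Agent.TH794.FG

open Pool.Agent.W788.BK
open Pool.Agent.TH794.LL2
open Pool.Agent.W788.MFP.Four (T e NN adj K ft Op q NN_pos e_zero)

variable {d L : ℕ} [NeZero L]

/-- the Lorentzian -/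
noncomputable def Lo (E0 s2 t : ℝ) (γ : ℂ) (E : ℝ) : ℝ :=
  ((((E0 - E : ℝ) : ℂ) - (s2 : ℂ) * γ - ((t : ℝ) : ℂ) * Complex.I)⁻¹).im

theorem Lo_eq (E0 s2 t : ℝ) (γ : ℂ) (E : ℝ) : Lo E0 s2 t γ E =
    (s2 * γ.im + t) / ((E0 - E - s2 * γ.re) ^ 2 + (s2 * γ.im + t) ^ 2) := by
  unfold Lo
  rw [Complex.inv_im]
  have e1 : (((E0 - E : ℝ) : ℂ) - (s2 : ℂ) * γ - ((t : ℝ) : ℂ) * Complex.I).im =
      -(s2 * γ.im + t) := by
    simp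
    ring
  have e2 : (((E0 - E : ℝ) : ℂ) - (s2 : ℂ) * γ - ((t : ℝ) : ℂ) * Complex.I).re =
      E0 - E - s2 * γ.re := by
    simp
  rw [Complex.normSq_apply, e1, e2, neg_neg]
  congr 1
  ring

theorem Lo_nonneg (E0 s2 t : ℝ) (γ : ℂ) (E : ℝ) (h : 0 ≤ s2 * γ.im + t) :
    0 ≤ Lo E0 s2 t γ E := by
  rw [Lo_eq]
  positivity

theorem Lo_le (E0 s2 t : ℝ) (γ : ℂ) (E c : ℝ) (hc : 0 < c) (h : c ≤ s2 * γ.im + t) :
    Lo E0 s2 t γ E ≤ c⁻¹ := by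
  rw [Lo_eq]
  have h0 : 0 < s2 * γ.im + t := by linarith
  rw [div_le_iff₀ (by positivity), inv_mul_eq_div, le_div_iff₀ hc]
  nlinarith [sq_nonneg (E0 - E - s2 * γ.re)]

/-- **the mean of the resolvent in a source which is localised in energy** -/
theorem mean4 (hTH : S_THIRD) (hFL : S_FLUCT) (hIN : S_INV)
    (E δ θ η a v2 Q β s2 g ε e1 : ℝ) (hδ : 0 < δ) (hη : 0 < η) (hη1 : η ≤ 1)
    (hadm : Adm (D0 E δ) (AA (d := d) (L := L) E δ θ) a v2 Q)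
    (μ : Measure ℝ) [IsProbabilityMeasure μ] (hβ : 0 < β) (hμ : ∀ᵐ s ∂μ, |s| ≤ β)
    (h0 : ∫ s, s ∂μ = 0) (h2 : ∫ s, s ^ 2 ∂μ = s2) (hs2 : 0 < s2)
    (hβa : β * a ≤ η) (hβv : β ^ 2 * v2 ≤ 1) (hε0 : 0 ≤ ε) (hε1 : ε ≤ 1 / 2)
    (he0 : 0 ≤ e1) (he1 : e1 ≤ 1 / 4)
    (hε : 4 * β ^ 3 * a * v2 / η ^ 3 + s2 * (2 * β * Q * Real.sqrt v2 / η ^ 4) ≤ ε)
    (hg : ∀ E' : ℝ, ∑ k : T d L, (JJ E' (η * δ) k)⁻¹ ≤ g * NN d L)
    (hlow : s2 * (∑ P : T d L, (1 - hi θ P)) ≤ e1 * (η ^ 2 * δ ^ 2) * NN d L)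
    (fr fi : T d L → ℝ) (hf1 : Bq fr fi = 1) (E0 W ω0 x1 x2 x3 c1 : ℝ) (γ : ℂ) (hω0 : 0 ≤ ω0)
    (hf2 : ∑ k : T d L, ‖fc fr fi k‖ ^ 2 * (adj k - E0) ^ 2 ≤ ω0 ^ 2 * NN d L)
    (hEW : |E - E0| ≤ W)
    (hγ : ∀ z : ℂ, η * δ ≤ z.im → ‖z - (E0 : ℂ)‖ ≤ W + s2 * (2 * g) + η * δ →
      ‖gL d L z - γ‖ ≤ x1)
    (hc1 : 0 < c1) (hγ1 : 2 * c1 ≤ γ.im)
    (hx2 : 4 / 3 * (ε + e1 + (2 * η + 8 * s2 ^ 2 * g ^ 2 / δ ^ 2)) * g + x1 ≤ x2)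
    (hx2c : x2 ≤ c1)
    (hx3 : 4 / 3 * (ε + e1 + (2 * η + 8 * s2 ^ 2 * g ^ 2 / δ ^ 2)) * (s2 * c1)⁻¹ +
      (ω0 + s2 * x2) * ((s2 * c1)⁻¹) ^ 2 ≤ x3) :
    |∫ V, FS E δ θ η fr fi V ∂(PP (T d L) μ) - Lo E0 s2 (η * δ) γ E| ≤ x3 := by
  obtain ⟨m, hm2, hm3, hm4, hI⟩ := mean3 hTH hFL hIN E δ θ η a v2 Q β s2 g ε e1 hδ hη hη1 hadm μ
    hβ hμ h0 h2 hs2.le hβa hβv hε0 hε1 he0 he1 hε hg hlow
  obtain ⟨I, hI1, hI2⟩ := hI fr fi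
  rw [hI1]
  have hN := NN_pos (d := d) (L := L)
  obtain ⟨t, ht⟩ : ∃ t, t = η * δ := ⟨_, rfl⟩
  have ht0 : 0 < t := by rw [ht]; positivity
  obtain ⟨c, hc⟩ : ∃ c, c = 4 / 3 * (ε + e1 + (2 * η + 8 * s2 ^ 2 * g ^ 2 / δ ^ 2)) := ⟨_, rfl⟩
  have hc0 : 0 ≤ c := by rw [hc]; positivity
  rw [← hc, ← ht] at hI2
  rw [← hc, ← ht] at hm4
  rw [← hc] at hx2 hx3
  rw [← ht] at hγ ⊢
  have hmγ : ‖m - γ‖ ≤ x2 := by
    have h1 : ‖gL d L ((E : ℂ) + (s2 : ℂ) * m + ((t : ℝ) : ℂ) * Complex.I) - γ‖ ≤ x1 := by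
      apply hγ
      · have : ((E : ℂ) + (s2 : ℂ) * m + ((t : ℝ) : ℂ) * Complex.I).im = s2 * m.im + t := by
          simp
        rw [this]
        have := mul_nonneg hs2.le hm2
        linarith
      · have h2 : ((E : ℂ) + (s2 : ℂ) * m + ((t : ℝ) : ℂ) * Complex.I) - (E0 : ℂ) =
            ((E - E0 : ℝ) : ℂ) + (s2 : ℂ) * m + ((t : ℝ) : ℂ) * Complex.I := by
          push_cast
          ring
        rw [h2]
        refine (norm_add_le _ _).trans (add_le_add ((norm_add_le _ _).trans (add_le_add ?_ ?_)) ?_)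
        · rw [Complex.norm_real, Real.norm_eq_abs]
          exact hEW
        · rw [norm_mul, Complex.norm_real, Real.norm_of_nonneg hs2.le]
          exact mul_le_mul_of_nonneg_left hm3 hs2.le
        · rw [norm_mul, Complex.norm_I, mul_one, Complex.norm_real, Real.norm_of_nonneg ht0.le]
    have h3 : m - γ = (m - gL d L ((E : ℂ) + (s2 : ℂ) * m + ((t : ℝ) : ℂ) * Complex.I)) +
        (gL d L ((E : ℂ) + (s2 : ℂ) * m + ((t : ℝ) : ℂ) * Complex.I) - γ) := by ring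
    rw [h3]
    refine (norm_add_le _ _).trans ?_
    linarith
  have hmim : c1 ≤ m.im := by
    have h1 := (abs_le.1 ((Complex.abs_im_le_norm (m - γ)).trans hmγ)).1
    rw [Complex.sub_im] at h1
    linarith
  obtain ⟨Ds, hDs⟩ : ∃ Ds : ℂ, Ds = ((E0 - E : ℝ) : ℂ) - (s2 : ℂ) * γ -
    ((t : ℝ) : ℂ) * Complex.I := ⟨_, rfl⟩
  obtain ⟨D, hD⟩ : ∃ D : T d L → ℂ, D = fun k => ((adj k - E : ℝ) : ℂ) - (s2 : ℂ) * m -
    ((t : ℝ) : ℂ) * Complex.I := ⟨_, rfl⟩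
  have hsc : 0 < s2 * c1 := mul_pos hs2 hc1
  have hDsn : s2 * c1 ≤ ‖Ds‖ := by
    have h1 := Complex.abs_im_le_norm Ds
    have h2 : Ds.im = -(s2 * γ.im + t) := by
      rw [hDs]
      simp
      ring
    rw [h2, abs_neg] at h1
    have h3 := le_abs_self (s2 * γ.im + t)
    have h4 : s2 * c1 ≤ s2 * γ.im := mul_le_mul_of_nonneg_left (by linarith) hs2.le
    linarith
  have hDn : ∀ k, s2 * c1 ≤ ‖D k‖ := by
    intro k
    have h1 := Complex.abs_im_le_norm (D k)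
    have h2 : (D k).im = -(s2 * m.im + t) := by
      rw [hD]
      simp
      ring
    rw [h2, abs_neg] at h1
    have h3 := le_abs_self (s2 * m.im + t)
    have h4 : s2 * c1 ≤ s2 * m.im := mul_le_mul_of_nonneg_left (by linarith) hs2.le
    linarith
  have hDk : ∀ k, D k = ((adj k - E : ℝ) : ℂ) - (s2 : ℂ) * m - ((t : ℝ) : ℂ) * Complex.I := by
    intro k
    rw [hD]
  simp only [← hDk] at hI2
  have hlo : Lo E0 s2 t γ E = (Ds⁻¹).im := by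
    rw [hDs]
    rfl
  have hmass : (NN d L)⁻¹ * ∑ k : T d L, ‖fc fr fi k‖ ^ 2 = 1 := by
    rw [sum_fc_one, hf1]
    field_simp
  have h1 : (NN d L)⁻¹ * ∑ k : T d L, ‖fc fr fi k‖ ^ 2 * ‖D k‖⁻¹ ≤ (s2 * c1)⁻¹ := by
    calc (NN d L)⁻¹ * ∑ k : T d L, ‖fc fr fi k‖ ^ 2 * ‖D k‖⁻¹ ≤
        (NN d L)⁻¹ * ∑ k : T d L, ‖fc fr fi k‖ ^ 2 * (s2 * c1)⁻¹ := by
          apply mul_le_mul_of_nonneg_left _ (inv_nonneg.2 hN.le)
          refine Finset.sum_le_sum fun k _ => mul_le_mul_of_nonneg_left ?_ (sq_nonneg _)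
          exact inv_anti₀ hsc (hDn k)
      _ = _ := by
          rw [← Finset.sum_mul, ← mul_assoc, hmass, one_mul]
  have h3 : (NN d L)⁻¹ * ∑ k : T d L, ‖fc fr fi k‖ ^ 2 * |adj k - E0| ≤ ω0 := by
    have e1 : (∑ k : T d L, ‖fc fr fi k‖ ^ 2 * |adj k - E0|) ^ 2 ≤
        (∑ k : T d L, ‖fc fr fi k‖ ^ 2) * ∑ k : T d L, ‖fc fr fi k‖ ^ 2 * (adj k - E0) ^ 2 := by
      have := Finset.sum_mul_sq_le_sq_mul_sq Finset.univ (fun k : T d L => ‖fc fr fi k‖)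
        (fun k : T d L => ‖fc fr fi k‖ * |adj k - E0|)
      refine le_trans (le_of_eq ?_) (this.trans (le_of_eq ?_))
      · congr 1
        refine Finset.sum_congr rfl fun k _ => ?_
        ring
      · congr 1
        refine Finset.sum_congr rfl fun k _ => ?_
        rw [mul_pow, sq_abs]
    have e2 : ∑ k : T d L, ‖fc fr fi k‖ ^ 2 = NN d L := by
      rw [sum_fc_one, hf1, mul_one]
    rw [e2] at e1
    have e3 : (∑ k : T d L, ‖fc fr fi k‖ ^ 2 * |adj k - E0|) ^ 2 ≤ (ω0 * NN d L) ^ 2 := by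
      refine e1.trans ?_
      calc NN d L * ∑ k : T d L, ‖fc fr fi k‖ ^ 2 * (adj k - E0) ^ 2 ≤
          NN d L * (ω0 ^ 2 * NN d L) := mul_le_mul_of_nonneg_left hf2 hN.le
        _ = _ := by ring
    have e4 := (abs_le_of_sq_le_sq' e3 (by positivity)).2
    rw [inv_mul_le_iff₀ hN]
    linarith
  have hx20 : 0 ≤ x2 := (norm_nonneg _).trans hmγ
  have h4 : ‖((NN d L : ℝ) : ℂ)⁻¹ * ∑ k : T d L, ((‖fc fr fi k‖ ^ 2 : ℝ) : ℂ) * (D k)⁻¹ -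
      Ds⁻¹‖ ≤ (ω0 + s2 * x2) * ((s2 * c1)⁻¹) ^ 2 := by
    have e1 : Ds⁻¹ = ((NN d L : ℝ) : ℂ)⁻¹ * ∑ k : T d L, ((‖fc fr fi k‖ ^ 2 : ℝ) : ℂ) *
        Ds⁻¹ := by
      rw [← Finset.sum_mul, ← mul_assoc, ← Complex.ofReal_sum, ← Complex.ofReal_inv,
        ← Complex.ofReal_mul, hmass, Complex.ofReal_one, one_mul]
    have e2 : ((NN d L : ℝ) : ℂ)⁻¹ * ∑ k : T d L, ((‖fc fr fi k‖ ^ 2 : ℝ) : ℂ) * (D k)⁻¹ -
      Ds⁻¹ = ((NN d L : ℝ) : ℂ)⁻¹ * ∑ k : T d L, ((‖fc fr fi k‖ ^ 2 : ℝ) : ℂ) *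
        ((D k)⁻¹ - Ds⁻¹) := by
      nth_rewrite 1 [e1]
      rw [← mul_sub, ← Finset.sum_sub_distrib]
      congr 1
      exact Finset.sum_congr rfl fun k _ => by ring
    rw [e2, norm_mul, norm_inv, Complex.norm_real, Real.norm_eq_abs, abs_of_pos hN]
    have e3 : ∀ k, ‖((‖fc fr fi k‖ ^ 2 : ℝ) : ℂ) * ((D k)⁻¹ - Ds⁻¹)‖ ≤
        (‖fc fr fi k‖ ^ 2 * |adj k - E0| + ‖fc fr fi k‖ ^ 2 * (s2 * x2)) *
          ((s2 * c1)⁻¹) ^ 2 := by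
      intro k
      have z1 : D k ≠ 0 := norm_pos_iff.1 (hsc.trans_le (hDn k))
      have z2 : Ds ≠ 0 := norm_pos_iff.1 (hsc.trans_le hDsn)
      rw [norm_mul, Complex.norm_real, Real.norm_of_nonneg (sq_nonneg _), inv_sub_inv z1 z2,
        norm_div, norm_mul]
      have f1 : Ds - D k = ((-(adj k - E0) : ℝ) : ℂ) + (s2 : ℂ) * (m - γ) := by
        rw [hDs, hD]
        push_cast
        ring
      have f2 : ‖Ds - D k‖ ≤ |adj k - E0| + s2 * x2 := by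
        rw [f1]
        refine (norm_add_le _ _).trans (add_le_add ?_ ?_)
        · rw [Complex.norm_real, Real.norm_eq_abs, abs_neg]
        · rw [norm_mul, Complex.norm_real, Real.norm_of_nonneg hs2.le]
          exact mul_le_mul_of_nonneg_left hmγ hs2.le
      have f3 : (‖D k‖ * ‖Ds‖)⁻¹ ≤ ((s2 * c1)⁻¹) ^ 2 := by
        rw [mul_inv, sq]
        exact mul_le_mul (inv_anti₀ hsc (hDn k)) (inv_anti₀ hsc hDsn)
          (inv_nonneg.2 (norm_nonneg _)) (inv_nonneg.2 hsc.le)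
      rw [div_eq_mul_inv, ← mul_add, mul_assoc]
      apply mul_le_mul_of_nonneg_left _ (sq_nonneg _)
      exact mul_le_mul f2 f3 (by positivity) (by positivity)
    refine (mul_le_mul_of_nonneg_left ((norm_sum_le _ _).trans (Finset.sum_le_sum fun k _ =>
      e3 k)) (inv_nonneg.2 hN.le)).trans ?_
    rw [← Finset.sum_mul, Finset.sum_add_distrib, ← Finset.sum_mul, ← mul_assoc, mul_add,
      ← mul_assoc, hmass, one_mul]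
    apply mul_le_mul_of_nonneg_right _ (sq_nonneg _)
    linarith
  have h5 : |I.im - Lo E0 s2 t γ E| ≤ ‖I - Ds⁻¹‖ := by
    rw [hlo, ← Complex.sub_im]
    exact Complex.abs_im_le_norm _
  refine h5.trans ?_
  have h6 := norm_add_le (I - ((NN d L : ℝ) : ℂ)⁻¹ * ∑ k : T d L,
    ((‖fc fr fi k‖ ^ 2 : ℝ) : ℂ) * (D k)⁻¹) (((NN d L : ℝ) : ℂ)⁻¹ * ∑ k : T d L,
    ((‖fc fr fi k‖ ^ 2 : ℝ) : ℂ) * (D k)⁻¹ - Ds⁻¹)
  rw [sub_add_sub_cancel] at h6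
  have h7 : c * ((NN d L)⁻¹ * ∑ k : T d L, ‖fc fr fi k‖ ^ 2 * ‖D k‖⁻¹) ≤ c * (s2 * c1)⁻¹ :=
    mul_le_mul_of_nonneg_left h1 hc0
  linarith

end Pool.Agent.TH794.FG
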