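import Pool.Agent.TH794.FG.Lat5
import Pool.Agent.TH794.FG.Inf
import Pool.Agent.TH794.FG.ParN3
import Pool.Agent.TH794.LL2.Par2

/-! The choice of the parameters for a source. -/

set_option autoImplicit false
set_option linter.unusedSectionVars false

open scoped BigOperators Matrix
open MeasureTheory

namespace Pool.Agent.TH794.FG

open Pool.Agent.W788.BK
open Pool.Agent.W788.MFP.Four (T e NN adj K ft Op q NN_pos e_zero)
open Pool.Agent.W788.MF2.Dom Pool.Agent.W788.MF2.FormG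
open Pool.Agent.H4R2.LO (Zd)
open Pool.Agent.W788.BK.Num
open Pool.Agent.TH794.LL2
open Pool.Agent.H695R3.AN (lf)

/-- the boundary value of the free resolvent -/
def BV (d : ℕ) (E0 : ℝ) (γ : ℂ) : Prop :=
  ∀ E t : ℝ, 0 < t → ∃ ur ui : Zd d → ℝ, LG d 0 (fun _ => 0) 0 E t ur ui ∧
    ‖((ur 0 : ℂ) + Complex.I * (ui 0 : ℂ)) - γ‖ ≤ 2 * 10 ^ d * K5 *
      ‖((E : ℂ) + ((t : ℝ) : ℂ) * Complex.I) - (E0 : ℂ)‖ ^ (1 / 4 : ℝ)

/-- **the engine** -/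
theorem engine3 (hES : S_ES) (hTH : S_THIRD) (hFL : S_FLUCT) (hIN : S_INV)
    (hSU : S_SUP) (hQB : S_QB) (hLO : S_LOW) (hAD : S_ADM)
    (d : ℕ) (hd : 3 ≤ d) (b v c1 : ℝ) (hb : 0 < b) (hv : 0 < v) (hc1 : 0 < c1) :
    ∃ y0 : ℝ, ∀ y : ℝ, y0 ≤ y →
    ∀ (ν : Measure ℝ), IsProbabilityMeasure ν → (∀ᵐ s ∂ν, |s| ≤ b) → ∫ s, s ∂ν = 0 →
    ∀ Vv : ℝ, ∫ s, s ^ 2 ∂ν = Vv → v ≤ Vv →
    ∀ (E0 : ℝ) (γ : ℂ), 2 * c1 ≤ γ.im → BV d E0 γ →
    ∀ fr fi : Zd d → ℝ, (∀ x, Real.exp (5 * y) < ‖x‖ → fr x = 0) →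
    (∀ x, Real.exp (5 * y) < ‖x‖ → fi x = 0) → ∑' x, (fr x ^ 2 + fi x ^ 2) = 1 →
    ∑' x, ((∑ i, (fr (x + Pi.single i 1) + fr (x - Pi.single i 1)) - E0 * fr x) ^ 2 +
      (∑ i, (fi (x + Pi.single i 1) + fi (x - Pi.single i 1)) - E0 * fi x) ^ 2) ≤
      Real.exp (-(41 / 20) * y) ^ 2 →
    ∃ G : Set (Zd d → ℝ), MeasurableSet G ∧
      1 - Real.exp (-Real.exp (y / 100)) ≤ (Measure.infinitePi fun _ : Zd d => ν).real G ∧
      ∀ ξ ∈ G, SLaw d (Real.exp (-1 * y)) (Real.exp (Real.exp (y / 100)))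
        (Real.exp (-(211 / 100) * y)) (Real.exp (-(399 / 200) * y))
        (Real.exp (1989 / 1000 * y)) E0 (Real.exp (-2 * y) * Vv) γ fr fi ξ := by
  obtain ⟨CQ, hCQ, hqb⟩ := hQB
  obtain ⟨A1, hA1⟩ : ∃ A1, A1 = 3 * C1 + 2 := ⟨_, rfl⟩
  obtain ⟨c, hc⟩ : ∃ c, c = b / m1 := ⟨_, rfl⟩
  obtain ⟨K, hK⟩ : ∃ K, K = KK d := ⟨_, rfl⟩
  obtain ⟨K6, hK6⟩ : ∃ K6, K6 = 2 * 10 ^ d * K5 := ⟨_, rfl⟩
  obtain ⟨iv, hiv⟩ : ∃ iv, iv = (v * c1)⁻¹ := ⟨_, rfl⟩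
  obtain ⟨ic, hic⟩ : ∃ ic, ic = c1⁻¹ := ⟨_, rfl⟩
  have hiv0 : 0 < iv := by rw [hiv]; positivity
  have hic0 : 0 < ic := by rw [hic]; positivity
  obtain ⟨y0, hy0⟩ := Filter.eventually_atTop.1 ((numOK2 d b c A1 CQ K K6 hb).and
    (numOK3 d b iv ic A1 K6))
  refine ⟨y0, fun y hy ν hν hνb hν0 Vv hVv hvV E0 γ hγ1 hBV fr fi hfr hfi hf1 hf2 => ?_⟩
  obtain ⟨hN, hN3⟩ := hy0 y hy
  have hC1 := C1_ge
  have hd3 : (3 : ℝ) ≤ d := by exact_mod_cast hd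
  have hy1 := hN.y1
  have hK3 : 3 ≤ K := by rw [hK]; exact KK_ge d
  have hK60 : 0 ≤ K6 := by
    rw [hK6]
    have := K5_nonneg
    positivity
  have hKK6 : K = 3 + K6 := by rw [hK, hK6, KK]
  -- the parameters
  obtain ⟨σ, hσ⟩ : ∃ σ, σ = Real.exp (-1 * y) := ⟨_, rfl⟩
  obtain ⟨δ, hδ⟩ : ∃ δ, δ = Real.exp (-(49 / 25) * y) := ⟨_, rfl⟩
  obtain ⟨η, hη⟩ : ∃ η, η = Real.exp (-(3 / 20) * y) := ⟨_, rfl⟩
  obtain ⟨t, ht⟩ : ∃ t, t = Real.exp (-(211 / 100) * y) := ⟨_, rfl⟩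
  have htηδ : η * δ = t := by
    rw [hη, hδ, ht, ex_mul]
    norm_num
  obtain ⟨κ, hκ⟩ : ∃ κ : ℝ, κ = 117 / (50 * d) := ⟨_, rfl⟩
  have hκ1 : κ ≤ 39 / 50 := by
    rw [hκ, div_le_div_iff₀ (by positivity) (by norm_num)]
    linarith
  have hκ0 : 0 < κ := by rw [hκ]; positivity
  have hκd : d * κ = 117 / 50 := by
    rw [hκ]
    field_simp
  obtain ⟨θ, hθ⟩ : ∃ θ, θ = 1 / 2 * Real.exp (-κ * y) := ⟨_, rfl⟩
  obtain ⟨L, hL⟩ : ∃ L : ℕ, L = ⌈Real.exp (6 * y)⌉₊ := ⟨_, rfl⟩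
  have hσ0 : 0 < σ := by rw [hσ]; positivity
  have hδ0 : 0 < δ := by rw [hδ]; positivity
  have hη0 : 0 < η := by rw [hη]; positivity
  have ht0 : 0 < t := by rw [ht]; positivity
  have hθ0 : 0 < θ := by rw [hθ]; positivity
  have hη128 : 128 * η ≤ 1 := by
    rw [hη]
    exact hN.n1
  have hη1 : η ≤ 1 := by linarith
  have hδ2 : δ ≤ 1 / 2 := by
    rw [hδ]
    linarith [hN.n2]
  have hL1 : Real.exp (6 * y) ≤ L := by
    rw [hL]
    exact Nat.le_ceil _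
  have hL2 : (L : ℝ) ≤ Real.exp (7 * y) := by
    have h1 := Nat.ceil_lt_add_one (show 0 ≤ Real.exp (6 * y) by positivity)
    rw [← hL] at h1
    have h2 := hN.n30
    have h3 : (1 : ℝ) ≤ Real.exp (6 * y) := Real.one_le_exp (by linarith)
    linarith
  have hLp : (0 : ℝ) < L := lt_of_lt_of_le (by positivity) hL1
  have hLne : NeZero L := ⟨by
    intro h0
    rw [h0] at hLp
    simp at hLp⟩
  have hθ1 : θ ≤ 1 := by
    rw [hθ]
    have : Real.exp (-κ * y) ≤ 1 := Real.exp_le_one_iff.2 (by nlinarith)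
    linarith
  have hθd : (2 * θ) ^ d = Real.exp (-(117 / 50) * y) := by
    rw [hθ, ← mul_assoc]
    norm_num
    rw [← neg_mul, ex_pow]
    congr 1
    rw [mul_neg, hκd]
    ring
  have hθL : 1 ≤ θ * L := by
    have h1 := hN.n6
    have h2 : Real.exp (κ * y) ≤ Real.exp (39 / 50 * y) := by
      apply Real.exp_le_exp.2
      apply mul_le_mul_of_nonneg_right hκ1
      linarith
    have h3 : Real.exp (-κ * y) * Real.exp (κ * y) = 1 := by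
      rw [ex_mul]
      simp
    calc (1 : ℝ) = 1 / 2 * (Real.exp (-κ * y) * (2 * Real.exp (κ * y))) := by
          linear_combination (-1) * h3
      _ ≤ 1 / 2 * (Real.exp (-κ * y) * L) := by
          have : 2 * Real.exp (κ * y) ≤ L := by linarith
          gcongr
      _ = _ := by rw [hθ]; ring
  -- the momenta
  obtain ⟨N, hNdef⟩ : ∃ N, N = NN d L := ⟨_, rfl⟩
  have hN0 : 0 < N := by rw [hNdef]; exact NN_pos
  obtain ⟨cnt, hcnt⟩ : ∃ cnt, cnt = ∑ Q : T d L, (1 - hi θ Q) := ⟨_, rfl⟩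
  have hcnt1 : 1 ≤ cnt := by rw [hcnt]; exact cnt_ge θ
  have hcnt2 : cnt ≤ 2 * Real.exp (-(117 / 50) * y) * N := by
    rw [hcnt, hNdef, ← hθd]
    exact hLO d L θ hθ0.le hθ1 hθL
  have hLδ : 1 / (L : ℝ) ≤ t := by
    rw [div_le_iff₀ hLp]
    have h1 : Real.exp (-(211 / 100) * y) * Real.exp (6 * y) ≤ t * L := by
      rw [← ht]
      gcongr
    rw [ex_mul] at h1
    have h2 : (1 : ℝ) ≤ Real.exp ((-(211 / 100) + 6) * y) := Real.one_le_exp (by linarith)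
    linarith
  have htδ : t ≤ δ := by
    rw [← htηδ]
    exact mul_le_of_le_one_left hδ0.le hη1
  obtain ⟨g1, hg1⟩ : ∃ g1, g1 = C1 * (49 / 25 * y) := ⟨_, rfl⟩
  obtain ⟨g, hg⟩ : ∃ g, g = C1 * (211 / 100 * y) := ⟨_, rfl⟩
  have hlogδ : Real.log (1 / δ) = 49 / 25 * y := by
    rw [hδ, one_div, Real.log_inv, Real.log_exp]
    ring
  have hlogt : Real.log (1 / t) = 211 / 100 * y := by
    rw [ht, one_div, Real.log_inv, Real.log_exp]
    ring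
  have hg10 : 0 ≤ g1 := by rw [hg1]; positivity
  have hg0 : 0 ≤ g := by rw [hg]; positivity
  have hC1y : 0 ≤ C1 * y := by positivity
  have hg1A : g1 + 2 ≤ A1 * y := by
    rw [hg1, hA1]
    linarith
  have hgA : g ≤ A1 * y := by
    rw [hg, hA1]
    linarith
  have hA10 : 0 < A1 := by rw [hA1]; linarith
  have ht2 : t ≤ 1 / 2 := htδ.trans hδ2
  have hsumδ : ∀ E : ℝ, ∑ k : T d L, (JJ E δ k)⁻¹ ≤ g1 * N := by
    intro E
    have h1 := sumJ (d := d) (L := L) hd δ (hLδ.trans htδ) hδ2 E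
    rw [hlogδ, ← hg1, ← hNdef] at h1
    exact h1
  have hsumt : ∀ E : ℝ, ∑ k : T d L, (JJ E t k)⁻¹ ≤ g * N := by
    intro E
    have h1 := sumJ (d := d) (L := L) hd t hLδ ht2 E
    rw [hlogt, ← hg, ← hNdef] at h1
    exact h1
  have hL6 : Real.exp (12 * y) ≤ (L : ℝ) ^ 2 := by
    calc Real.exp (12 * y) = Real.exp (6 * y) ^ 2 := by
          rw [ex_pow]
          norm_num
      _ ≤ (L : ℝ) ^ 2 := by gcongr
  have hδinv : δ⁻¹ = Real.exp (49 / 25 * y) := by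
    rw [hδ, ex_inv]
    norm_num
  have htinv : t⁻¹ = Real.exp (211 / 100 * y) := by
    rw [ht, ex_inv]
    norm_num
  have hL43 : (1 + 4 / δ) ^ 3 ≤ (L : ℝ) ^ 2 := by
    have h1 : 1 + 4 / δ ≤ 5 * Real.exp (49 / 25 * y) := by
      have h3 : (1 : ℝ) ≤ Real.exp (49 / 25 * y) := Real.one_le_exp (by linarith)
      rw [div_eq_mul_inv, hδinv]
      linarith
    refine le_trans ?_ hL6
    calc (1 + 4 / δ) ^ 3 ≤ (5 * Real.exp (49 / 25 * y)) ^ 3 := by gcongr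
      _ = 125 * Real.exp (147 / 25 * y) := by
          rw [mul_pow, ex_pow]
          norm_num
      _ ≤ Real.exp (12 * y) := hN.n4
  obtain ⟨T0, hT0⟩ : ∃ T0, T0 = Real.exp (3 * y) := ⟨_, rfl⟩
  have hT : (1 + T0) ^ 3 ≤ (L : ℝ) ^ 2 := by
    have h1 : 1 + T0 ≤ 2 * Real.exp (3 * y) := by
      have h3 : (1 : ℝ) ≤ Real.exp (3 * y) := Real.one_le_exp (by linarith)
      rw [hT0]
      linarith
    have hT00 : 0 < T0 := by rw [hT0]; positivity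
    refine le_trans ?_ hL6
    calc (1 + T0) ^ 3 ≤ (2 * Real.exp (3 * y)) ^ 3 := by gcongr
      _ = 8 * Real.exp (9 * y) := by
          rw [mul_pow, ex_pow]
          norm_num
      _ ≤ Real.exp (12 * y) := hN.n5
  obtain ⟨Q, hQ⟩ : ∃ Q, Q = CQ * Real.log (1 / δ) ^ 2 / Real.sqrt (δ * θ) := ⟨_, rfl⟩
  have hQ0 : 0 ≤ Q := by rw [hQ]; positivity
  obtain ⟨a, ha⟩ : ∃ a, a = g1 + cnt / (N * δ) := ⟨_, rfl⟩
  obtain ⟨v2, hv2⟩ : ∃ v2, v2 = g1 / δ := ⟨_, rfl⟩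
  have hadm : ∀ E, Adm (D0 E δ) (AA (d := d) (L := L) E δ θ) a v2 Q := by
    intro E
    rw [ha, hv2, hcnt, hNdef]
    refine hAD d L E δ θ g1 Q hδ0 hg10 hQ0 (by rw [← hNdef]; exact hsumδ E) ?_
    intro P hP
    rw [hQ]
    exact hqb d L hd θ δ E hθ0 hθ1 hδ0 hδ2 hL43 P hP
  -- bounds of the parameters
  have ha1 : a ≤ A1 * y := by
    refine le_trans ?_ hg1A
    rw [ha]
    have h1 : cnt / (N * δ) ≤ 2 := by
      rw [div_le_iff₀ (by positivity)]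
      have h2 : Real.exp (-(117 / 50) * y) ≤ δ := by
        rw [hδ]
        apply Real.exp_le_exp.2
        linarith
      calc cnt ≤ 2 * Real.exp (-(117 / 50) * y) * N := hcnt2
        _ ≤ 2 * δ * N := by gcongr
        _ = _ := by ring
    linarith
  have ha0 : 0 ≤ a := by rw [ha]; positivity
  have hv21 : v2 ≤ A1 * y * Real.exp (49 / 25 * y) := by
    rw [hv2, div_eq_mul_inv, hδinv]
    have : g1 ≤ A1 * y := by linarith
    gcongr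
  have hv20 : 0 ≤ v2 := by rw [hv2]; positivity
  have hQ1 : Q ≤ 8 * CQ * y ^ 2 * Real.exp (137 / 100 * y) := by
    rw [hlogδ] at hQ
    exact numQ CQ y δ θ κ Q hCQ.le hy1 hδ hκ1 hθ hQ
  -- the law
  obtain ⟨μ, hμdef⟩ : ∃ μ, μ = ν.map fun s => σ * s := ⟨_, rfl⟩
  have hmσ : Measurable fun s : ℝ => σ * s := by fun_prop
  have hμp : IsProbabilityMeasure μ := by
    rw [hμdef]
    exact Measure.isProbabilityMeasure_map hmσ.aemeasurable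
  obtain ⟨β, hβ⟩ : ∃ β, β = b * σ := ⟨_, rfl⟩
  have hβ0 : 0 < β := by rw [hβ]; positivity
  have hμb : ∀ᵐ s ∂μ, |s| ≤ β := by
    rw [hμdef, ae_map_iff hmσ.aemeasurable (measurableSet_le (by fun_prop) (by fun_prop))]
    filter_upwards [hνb] with s hs
    rw [abs_mul, abs_of_pos hσ0, hβ, mul_comm b]
    gcongr
  have hμ0 : ∫ s, s ∂μ = 0 := by
    rw [hμdef, integral_map hmσ.aemeasurable (by fun_prop), integral_const_mul, hν0, mul_zero]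
  obtain ⟨s2, hs2⟩ : ∃ s2, ∫ s, s ^ 2 ∂μ = s2 := ⟨_, rfl⟩
  have hs20 : 0 ≤ s2 := by
    rw [← hs2]
    exact integral_nonneg fun s => sq_nonneg _
  have hs2β : s2 ≤ β ^ 2 := by
    rw [← hs2]
    have h1 : ∫ s, s ^ 2 ∂μ ≤ ∫ _s, β ^ 2 ∂μ := by
      apply integral_mono_of_nonneg (Filter.Eventually.of_forall fun s => sq_nonneg _)
        (integrable_const _)
      filter_upwards [hμb] with s hs
      rw [← sq_abs s]
      exact pow_le_pow_left₀ (abs_nonneg _) hs 2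
    rw [integral_const, probReal_univ, one_smul] at h1
    exact h1
  have hββ : β = b * Real.exp (-1 * y) := by rw [hβ, hσ]
  have hAy1 : 1 ≤ A1 * y := by linarith
  -- the conditions
  obtain ⟨k1, k2, k3, k4, k5⟩ := numK d b c A1 CQ K K6 y hN hb hCQ hA10 β a v2 Q s2 cnt N η δ hββ
    ha0 ha1 hAy1 hv20 hv21 hQ0 hQ1 hs2β hN0 hcnt1 hcnt2 hη (by rw [htηδ, ht])
  obtain ⟨ε, hε⟩ : ∃ ε, ε = Real.exp (-(1 / 25) * y) := ⟨_, rfl⟩
  obtain ⟨e1, he1⟩ : ∃ e1, e1 = Real.exp (-(1 / 10) * y) := ⟨_, rfl⟩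
  obtain ⟨x2, hx2⟩ : ∃ x2, x2 = Real.exp (-(1 / 50) * y) := ⟨_, rfl⟩
  obtain ⟨e2, he2⟩ : ∃ e2, e2 = Real.exp (-(3 / 200) * y) := ⟨_, rfl⟩
  obtain ⟨e3, he3⟩ : ∃ e3, e3 = Real.exp (-(11 / 1000) * y) := ⟨_, rfl⟩
  have hε0 : 0 < ε := by rw [hε]; positivity
  have he10 : 0 < e1 := by rw [he1]; positivity
  have hx20 : 0 < x2 := by rw [hx2]; positivity
  have he20 : 0 < e2 := by rw [he2]; positivity
  have he30 : 0 < e3 := by rw [he3]; positivity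
  have hx2e2 : 2 * x2 ≤ e2 := by rw [hx2, he2]; exact hN.n21
  have he21 : e2 ≤ 1 := by
    rw [he2]
    exact Real.exp_le_one_iff.2 (by linarith)
  have hx2h : x2 ≤ 1 / 2 := by linarith
  have he14 : e1 ≤ 1 / 4 := by
    have h4 : e1 ≤ x2 * x2 := by
      rw [he1, hx2, ex_mul]
      exact hexle hy1 _ _ (by norm_num)
    have h5 : x2 * x2 ≤ 1 / 2 * (1 / 2) := mul_le_mul hx2h hx2h hx20.le (by norm_num)
    norm_num at h5
    exact h4.trans h5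
  have hε2 : ε ≤ 1 / 2 := by
    have : ε ≤ x2 := by
      rw [hε, hx2]
      exact hexle hy1 _ _ (by norm_num)
    linarith
  rw [← hε] at k3
  rw [← he1] at k4
  obtain ⟨D, hD⟩ : ∃ D, D = Real.exp (-(3 / 20) * y) := ⟨_, rfl⟩
  have hD0 : 0 < D := by rw [hD]; positivity
  have hD128 : D ≤ 1 / 128 := by
    rw [hD]
    linarith [hN.n1]
  have hsD : Real.sqrt D = Real.exp (-(3 / 40) * y) := by
    rw [hD]
    exact sqrt_ex _ _ y (by norm_num)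
  rw [← hD] at k5
  -- the double exponential
  obtain ⟨x4, hx4⟩ : ∃ x4, x4 = 4 / t * Real.exp (-(t * T0 / 2)) := ⟨_, rfl⟩
  have hx40 : 0 ≤ x4 := by rw [hx4]; positivity
  have hx4e : x4 ≤ Real.exp (-1 * y) := by
    rw [hx4]
    exact dexp d b c A1 CQ K K6 y hN t T0 ht hT0
  -- the error of the mean
  have k6 := numM d b c A1 CQ K K6 y hN hb hA10 hK60 β s2 g η δ x4 hββ hg0 hgA hs20 hs2β hη hδ
    hx4e
  rw [← hε, ← he1, ← hx2] at k6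
  -- the variance
  have hVv0 : 0 < Vv := hv.trans_le hvV
  have hs2V : s2 = Real.exp (-2 * y) * Vv := by
    rw [← hs2, hμdef, integral_map hmσ.aemeasurable (by fun_prop)]
    simp only [mul_pow]
    rw [integral_const_mul, hVv, hσ, ex_pow]
    norm_num
  have hs2p : 0 < s2 := by rw [hs2V]; positivity
  obtain ⟨u, hu⟩ : ∃ u, u = (s2 * c1)⁻¹ := ⟨_, rfl⟩
  have hu0 : 0 < u := by rw [hu]; positivity
  have hu1 : u ≤ iv * Real.exp (2 * y) := by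
    have h1 : v * c1 * Real.exp (-2 * y) ≤ s2 * c1 := by
      rw [hs2V]
      calc v * c1 * Real.exp (-2 * y) = Real.exp (-2 * y) * v * c1 := by ring
        _ ≤ Real.exp (-2 * y) * Vv * c1 := by gcongr
    rw [hu, hiv]
    refine (inv_anti₀ (by positivity) h1).trans (le_of_eq ?_)
    rw [mul_inv, ex_inv]
    norm_num
  have hs2u : s2 * u = ic := by
    rw [hu, hic]
    field_simp
  obtain ⟨A, hA⟩ : ∃ A, A = 4 / 3 * (ε + e1 + (2 * η + 8 * s2 ^ 2 * g ^ 2 / δ ^ 2)) := ⟨_, rfl⟩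
  have hA0 : 0 ≤ A := by rw [hA]; positivity
  rw [← hA] at k6
  have hAg : A * g ≤ x2 := by
    have h1 : 0 ≤ K6 * (s2 * (2 * g)) ^ (1 / 4 : ℝ) := by positivity
    linarith
  have hg1' : 1 ≤ g := by
    rw [hg]
    exact one_le_mul_of_one_le_of_one_le hC1 (by linarith only [hy1])
  have hAx : A ≤ Real.exp (-(1 / 50) * y) := by
    rw [← hx2]
    exact (le_mul_of_one_le_right hA0 hg1').trans hAg
  obtain ⟨x1, hx1⟩ : ∃ x1, x1 = Real.exp (-(2 / 5) * y) := ⟨_, rfl⟩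
  have hx1x2 : x1 ≤ x2 := by
    rw [hx1, hx2]
    exact hexle hy1 _ _ (by norm_num)
  have q1 : A * g + x1 ≤ 2 * x2 := by linarith
  have q2 : 2 * x2 ≤ c1 := by
    have h1 := hN3.m4
    rw [← hx2, hic] at h1
    have h2 : 2 * x2 = c1 * (2 * c1⁻¹ * x2) := by field_simp
    rw [h2]
    calc c1 * (2 * c1⁻¹ * x2) ≤ c1 * 1 := mul_le_mul_of_nonneg_left h1 hc1.le
      _ = c1 := mul_one _
  obtain ⟨ω1, hω1⟩ : ∃ ω1, ω1 = 2 * Real.exp (-(41 / 20) * y) := ⟨_, rfl⟩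
  obtain ⟨x3, hx3⟩ : ∃ x3, x3 = Real.exp (991 / 500 * y) := ⟨_, rfl⟩
  obtain ⟨f2, hf2e⟩ : ∃ f2, f2 = Real.exp (397 / 200 * y) := ⟨_, rfl⟩
  obtain ⟨f3, hf3e⟩ : ∃ f3, f3 = Real.exp (1989 / 1000 * y) := ⟨_, rfl⟩
  have q3 : A * u + (ω1 + s2 * (2 * x2)) * u ^ 2 ≤ x3 := by
    rw [hω1, hx2, hx3]
    exact num3a d b iv ic A1 K6 y hN3 hy1 hiv0 A u s2 hAx hu0.le hu1 hs2u hic0
  have q4 : 40 * Real.sqrt D * (u + x3) + x3 ≤ f2 := by
    rw [hsD, hx3, hf2e]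
    exact num3b d b iv ic A1 K6 y hN3 hy1 hiv0 u hu1
  -- the net
  obtain ⟨W, hW⟩ : ∃ W, W = Real.exp (-(399 / 200) * y) := ⟨_, rfl⟩
  have hW0 : 0 < W := by rw [hW]; positivity
  have hW1 : W ≤ 1 := by
    rw [hW]
    exact Real.exp_le_one_iff.2 (by linarith)
  obtain ⟨ζ, hζ⟩ : ∃ ζ, ζ = Real.exp (-(633 / 100) * y) := ⟨_, rfl⟩
  have hζ0 : 0 < ζ := by rw [hζ]; positivity
  have hζinv : ζ⁻¹ = Real.exp (633 / 100 * y) := by
    rw [hζ, ex_inv]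
    norm_num
  obtain ⟨M, hM⟩ : ∃ M : ℕ, M = ⌈W / ζ⌉₊ + 1 := ⟨_, rfl⟩
  have hM1 : W + ζ ≤ ζ * M := by
    have h1 : W / ζ ≤ (⌈W / ζ⌉₊ : ℝ) := Nat.le_ceil _
    rw [div_le_iff₀ hζ0] at h1
    rw [hM]
    push_cast
    linarith
  have hMu : (M : ℝ) ≤ W / ζ + 2 := by
    have h1 := Nat.ceil_lt_add_one (show 0 ≤ W / ζ by positivity)
    rw [hM]
    push_cast
    linarith
  have hM3 : ζ * M ≤ 2 * W := by
    have h1 := hN3.m1
    rw [← hζ, ← hW] at h1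
    calc ζ * (M : ℝ) ≤ ζ * (W / ζ + 2) := by gcongr
      _ = W + 2 * ζ := by field_simp
      _ ≤ _ := by linarith
  have hd3' : (7 : ℝ) ≤ 4 * d + 5 := by linarith
  have hM2 : (2 * M + 1 : ℝ) ≤ (4 * d + 5) * Real.exp (633 / 100 * y) := by
    have h2 : (1 : ℝ) ≤ Real.exp (633 / 100 * y) := Real.one_le_exp (by linarith)
    have h3 : W / ζ ≤ Real.exp (633 / 100 * y) := by
      rw [div_eq_mul_inv, hζinv]
      exact mul_le_of_le_one_left (Real.exp_pos _).le hW1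
    calc (2 * M + 1 : ℝ) ≤ 7 * Real.exp (633 / 100 * y) := by linarith
      _ ≤ _ := by gcongr
  obtain ⟨τ, hτ⟩ : ∃ τ, τ = Real.exp (-(43 / 20) * y) := ⟨_, rfl⟩
  have hτ0 : 0 < τ := by rw [hτ]; positivity
  -- the cut-off
  obtain ⟨ℓ, hℓ⟩ : ∃ ℓ, ℓ = Real.exp (5 * y) := ⟨_, rfl⟩
  have hℓ0 : 0 < ℓ := by rw [hℓ]; positivity
  have hℓinv : ℓ⁻¹ = Real.exp (-5 * y) := by
    rw [hℓ, ex_inv]
  have hL4 : 4 * ℓ + 4 < L := by
    have h1 := hN.n3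
    have h2 : (1 : ℝ) ≤ Real.exp (5 * y) := Real.one_le_exp (by linarith)
    rw [hℓ]
    linarith
  rw [← hℓ] at hfr hfi
  -- the source on the torus
  obtain ⟨Fr, hFr⟩ : ∃ Fr : T d L → ℝ, Fr = fun y => fr (lf y) := ⟨_, rfl⟩
  obtain ⟨Fi, hFi⟩ : ∃ Fi : T d L → ℝ, Fi = fun y => fi (lf y) := ⟨_, rfl⟩
  have hB1 : Bq Fr Fi = 1 := by
    rw [hFr, hFi]
    exact src_norm ℓ (by linarith) fr fi hfr hfi hf1
  have hF2 : ∑ k : T d L, ‖fc Fr Fi k‖ ^ 2 * (adj k - E0) ^ 2 ≤ ω1 ^ 2 * NN d L := by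
    rw [hFr, hFi]
    refine src_energy ℓ E0 (Real.exp (-(41 / 20) * y)) ω1 hℓ0 hL4 fr fi hfr hfi hf1 hf2 ?_
    have h1 := hN3.m5
    rw [hω1, mul_pow, ex_pow, div_eq_mul_inv, hℓinv, mul_pow, ex_pow]
    norm_num at h1 ⊢
    linarith
  -- the boundary value on the torus
  have hγL : ∀ z : ℂ, η * δ ≤ z.im → ‖z - (E0 : ℂ)‖ ≤ 2 * W + s2 * (2 * g) + η * δ →
      ‖gL d L z - γ‖ ≤ x1 := by
    intro z hz1 hz2
    rw [htηδ] at hz1 hz2
    have hzi : 0 < z.im := ht0.trans_le hz1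
    obtain ⟨ur, ui, hLG, hbb⟩ := hBV z.re z.im hzi
    rw [Complex.re_add_im z] at hbb
    have a1 := freeC2 (L := L) ℓ z.im hzi hℓ0 hL4 z.re ur ui hLG
    rw [Complex.re_add_im z] at a1
    have a2 : 2 * d / ℓ * z.im⁻¹ * z.im⁻¹ ≤ 1 / 2 * x1 := by
      have h1 : z.im⁻¹ ≤ t⁻¹ := inv_anti₀ ht0 hz1
      have h0 : 0 ≤ z.im⁻¹ := inv_nonneg.2 hzi.le
      calc 2 * d / ℓ * z.im⁻¹ * z.im⁻¹ ≤ 2 * d / ℓ * t⁻¹ * t⁻¹ := by gcongr
        _ = 2 * d * (Real.exp (-5 * y) * Real.exp (211 / 100 * y) *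
            Real.exp (211 / 100 * y)) := by
            rw [div_eq_mul_inv, hℓinv, htinv]
            ring
        _ = 1 / 2 * (4 * d * Real.exp (-(39 / 50) * y)) := by
            rw [ex_mul, ex_mul]
            norm_num
            ring
        _ ≤ _ := by
            rw [hx1]
            linarith [hN3.m3a]
    have a3 : ‖z - (E0 : ℂ)‖ ≤ 16 * W := by
      have h1 : s2 * (2 * g) ≤ W := by
        have h2 := hN3.m2
        calc s2 * (2 * g) ≤ β ^ 2 * (2 * (A1 * y)) := by gcongr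
          _ = 2 * b ^ 2 * A1 * y * Real.exp (-2 * y) := by
              rw [hββ, mul_pow, ex_pow]
              norm_num
              ring
          _ ≤ W := by rw [hW]; exact h2
      have h3 : t ≤ W := by
        rw [ht, hW]
        exact hexle hy1 _ _ (by norm_num)
      linarith
    have a4 : ‖z - (E0 : ℂ)‖ ^ (1 / 4 : ℝ) ≤ 2 * Real.exp (-(399 / 800) * y) := by
      have h1 := Real.rpow_le_rpow (norm_nonneg _) a3 (show (0 : ℝ) ≤ 1 / 4 by norm_num)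
      have h2 : 16 * W = (2 * Real.exp (-(399 / 800) * y)) ^ 4 := by
        rw [mul_pow, ex_pow, hW]
        norm_num
      have h3 : ((2 * Real.exp (-(399 / 800) * y)) ^ 4) ^ (1 / 4 : ℝ) =
          2 * Real.exp (-(399 / 800) * y) := by
        have := Real.pow_rpow_inv_natCast (show 0 ≤ 2 * Real.exp (-(399 / 800) * y) by positivity)
          (show (4 : ℕ) ≠ 0 by norm_num)
        norm_num at this ⊢
        exact this
      rw [h2, h3] at h1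
      exact h1
    have a5 : 2 * 10 ^ d * K5 * ‖z - (E0 : ℂ)‖ ^ (1 / 4 : ℝ) ≤ 1 / 2 * x1 := by
      rw [← hK6]
      calc K6 * ‖z - (E0 : ℂ)‖ ^ (1 / 4 : ℝ) ≤ K6 * (2 * Real.exp (-(399 / 800) * y)) := by
            gcongr
        _ = 1 / 2 * (4 * K6 * Real.exp (-(399 / 800) * y)) := by ring
        _ ≤ _ := by
            rw [hx1]
            linarith [hN3.m3b]
    have e1 : gL d L z - γ = -((((ur 0 : ℂ) + Complex.I * (ui 0 : ℂ)) - gL d L z)) +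
        (((ur 0 : ℂ) + Complex.I * (ui 0 : ℂ)) - γ) := by ring
    rw [e1]
    refine (norm_add_le _ _).trans ?_
    rw [norm_neg]
    linarith
  have hgood := good3_prob (d := d) (L := L) hES hTH hFL hIN hSU δ θ η τ ζ f2 a v2 Q β s2 g
    ε e1 D M hδ0 hη0 hη1 hτ0 hζ0 hadm μ hβ0 hμb hμ0 hs2 hs2p k1 k2 hε0.le hε2 he10.le he14 k3
    (by rw [htηδ, ← hNdef]; exact hsumt) (by rw [← hcnt, ← hNdef]; exact k4) Fr Fi hB1 E0 (2 * W)
    ω1 x1 (2 * x2) x3 c1 γ (by rw [hω1]; positivity) hF2 hM3 hγL hc1 hγ1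
    (by rw [← hA]; exact q1) q2 (by rw [← hA, ← hu]; exact q3) (by rw [← hu]; exact q4)
    hD0 hD128 k5
  rw [hμdef, ← hcnt, ← hNdef, hFr, hFi] at hgood
  -- the form bound
  obtain ⟨kf, hkf⟩ : ∃ kf, kf = Real.exp (-(3 / 250) * y) := ⟨_, rfl⟩
  have hkf0 : 0 < kf := by rw [hkf]; positivity
  have hkfinv : kf⁻¹ = Real.exp (3 / 250 * y) := by
    rw [hkf, ex_inv]
    norm_num
  have hKkf : 10 * K * kf ≤ 1 := by rw [hkf]; exact hN.n24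
  have hkf30 : 30 * kf ≤ 1 := by
    have : 3 * kf ≤ K * kf := mul_le_mul_of_nonneg_right hK3 hkf0.le
    linarith
  obtain ⟨p, hp⟩ : ∃ p : ℕ, p = ⌈Real.exp (1 / 80 * y)⌉₊ := ⟨_, rfl⟩
  have hp1 : Real.exp (1 / 80 * y) ≤ p := by
    rw [hp]
    exact Nat.le_ceil _
  have hp0 : p ≠ 0 := by
    intro h0
    rw [h0] at hp1
    have := Real.exp_pos (1 / 80 * y)
    push_cast at hp1
    linarith
  obtain ⟨ρ, hρ⟩ : ∃ ρ, ρ = 2 * d * Real.exp (-(289 / 100) * y) := ⟨_, rfl⟩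
  have hρ0 : 0 < ρ := by rw [hρ]; positivity
  have hρℓ : 2 * d / ℓ * t⁻¹ ≤ ρ := by
    apply le_of_eq
    rw [htinv, hρ, hℓ, div_eq_mul_inv, ex_inv, mul_assoc, ex_mul]
    norm_num
  have hR1 : 1 ≤ Real.exp (Real.exp (y / 100)) := Real.one_le_exp (Real.exp_pos _).le
  have hdom : DomBy ν c := by
    rw [hc]
    exact dom_bdd ν b hb hνb hν0
  obtain ⟨r1, r2⟩ := num3c d b iv ic A1 K6 y hN3 hy1 hiv0 η δ t kf ρ ζ τ hη hδ ht hkf hρ hζ hτ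
    hkf30
  rw [← hf2e, ← hf3e] at r2
  obtain ⟨Kf, hKf⟩ : ∃ Kf, Kf = (iv + 1) * Real.exp (2 * y) := ⟨_, rfl⟩
  rw [← hKf] at r2
  rw [← htηδ] at r1 r2
  have hsγ : s2 * c1 ≤ s2 * γ.im + η * δ := by
    have h1 : s2 * c1 ≤ s2 * γ.im := mul_le_mul_of_nonneg_left (by linarith) hs2p.le
    have h2 : 0 < η * δ := by positivity
    linarith
  have hsγ0 : 0 ≤ s2 * γ.im := mul_nonneg hs2p.le (by linarith)
  have hKe : ∀ E, Lo E0 s2 (η * δ) γ E + f2 ≤ Kf := by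
    intro E
    have h1 := Lo_le E0 s2 (η * δ) γ E (s2 * c1) (by positivity) hsγ
    rw [← hu] at h1
    have h2 : f2 ≤ Real.exp (2 * y) := by
      rw [hf2e]
      exact hexle hy1 _ _ (by norm_num)
    rw [hKf, add_mul, one_mul]
    linarith
  have hfin := mainC3 (L := L) (by omega) ν c hdom σ (Real.exp (Real.exp (y / 100))) δ θ η kf g1 ρ
    τ Kf ζ f2 f3 ℓ M hσ0 hR1 hδ0 hδ2 hη0 hη1 hkf0 (by linarith) (by rw [← hNdef]; exact hsumδ)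
    hζ0 E0 s2 W γ fr fi hM1 hsγ0 (fun E => (hadm E).hX0) (fun E => (hadm E).hA) hρ0.le hτ0.le hKe
    r1 r2 hℓ0 hL4 (by rw [htηδ]; exact hρℓ) hfr hfi hf1 p hp0 _ (Real.exp (-Real.exp (y / 100)))
    hgood ?_
  · obtain ⟨G, hG, hP, hLL⟩ := hfin
    refine ⟨G, hG, hP, fun ξ hξ => ?_⟩
    have h1 := hLL ξ hξ
    rw [htηδ] at h1
    rw [← hσ, ← ht, ← hW, ← hf3e, ← hs2V]
    exact h1
  -- the probability
  obtain ⟨Y, hY⟩ : ∃ Y, Y = Real.exp (y / 100) := ⟨_, rfl⟩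
  obtain ⟨R, hR⟩ : ∃ R, R = Real.exp (Real.exp (y / 100)) := ⟨_, rfl⟩
  have hRY : R = Real.exp Y := by rw [hR, hY]
  have hg1A' : g1 ≤ A1 * y := by linarith
  have hNL : N = (L : ℝ) ^ d := hNdef
  have t1 := pr1b d b c A1 CQ K K6 y hN Y R δ kf σ g1 L p hY hRY hL2 hδinv hδ0 hkfinv hkf0 hσ hg10
    hg1A' hp
  have t2 := pr2b d b c A1 CQ K K6 y hb hN Y R τ β N cnt L hY hRY hL2 hNL hN0 hτ hββ hcnt1 hcnt2
  have t3 := pr3b d b c A1 CQ K K6 y hN Y R D L M hY hRY hL2 hD hM2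
  rw [← hR, ← hY, mul_add, mul_add]
  exact pr4 Y _ _ _ t1 t2 t3

end Pool.Agent.TH794.FG
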