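import Pool.Agent.TH794.FG.Par3
import Pool.Agent.TH794.LL2.Fin2

/-! Spectral measures of general vectors. -/

set_option autoImplicit false
set_option linter.unusedSectionVars false

open scoped BigOperators Topology
open MeasureTheory Filter

namespace Pool.Agent.TH794.FG

open Pool.Agent.W788.BK
open Pool.Agent.W788.LD.Spec (S)
open Pool.Agent.H4R2.LO (Zd)
open Pool.Agent.TH794.LL2

variable {d : ℕ}

/-- the resolvent data of a vector -/
def Res2 (d : ℕ) (V : Zd d → ℝ) (ψ : Zd d → ℂ) (m : Measure ℝ) : Prop :=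
  ∀ z : ℂ, z.im ≠ 0 → ∃ u : Zd d → ℂ, (Summable fun x => ‖u x‖ ^ 2) ∧
      (∀ x, -S u x + (V x : ℂ) * u x - z * u x = ψ x) ∧
      ∫ t : ℝ, ((t : ℂ) - z)⁻¹ ∂m = ∑' x, (starRingEnd ℂ) (ψ x) * u x

/-- the free Green function from the free spectral measure -/
theorem bv_spec (m0 : Measure ℝ) (h : Res d (fun _ => 2 * d) 0 m0) (E t : ℝ) (ht : 0 < t) :
    ∃ ur ui : Zd d → ℝ, LG d 0 (fun _ => 0) 0 E t ur ui ∧
      (ur 0 : ℂ) + Complex.I * (ui 0 : ℂ) =
        -(starRingEnd ℂ) (∫ x : ℝ, ((x : ℂ) - (((2 * d - E : ℝ) : ℂ) + (t : ℂ) * Complex.I))⁻¹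
          ∂m0) := by
  obtain ⟨u, hu, heq, hint⟩ := h (((2 * d - E : ℝ) : ℂ) + (t : ℂ) * Complex.I) (by simp [ht.ne'])
  have hn : ∀ x, ‖u x‖ ^ 2 = (u x).re ^ 2 + (u x).im ^ 2 := by
    intro x
    rw [← Complex.normSq_eq_norm_sq, Complex.normSq_apply]
    ring
  have h2 : ∑' x, (starRingEnd ℂ) ((Pi.single (0 : Zd d) 1 : Zd d → ℂ) x) * u x = u 0 := by
    rw [tsum_eq_single (0 : Zd d)]
    · rw [Pi.single_eq_same, map_one, one_mul]
    · intro x hx
      rw [Pi.single_eq_of_ne hx, map_zero, zero_mul]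
  refine ⟨fun x => -(u x).re, fun x => (u x).im, ⟨?_, ?_, ?_, ?_⟩, ?_⟩
  · refine Summable.of_nonneg_of_le (fun x => sq_nonneg _) (fun x => ?_) hu
    rw [hn x]
    nlinarith [sq_nonneg (u x).im]
  · refine Summable.of_nonneg_of_le (fun x => sq_nonneg _) (fun x => ?_) hu
    rw [hn x]
    nlinarith [sq_nonneg (u x).re]
  · intro x
    have h3 := congrArg Complex.re (heq x)
    have h4 : ((Pi.single (0 : Zd d) 1 : Zd d → ℂ) x).re = if x = 0 then 1 else 0 := by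
      by_cases hx : x = 0
      · rw [hx, if_pos rfl, Pi.single_eq_same, Complex.one_re]
      · rw [if_neg hx, Pi.single_eq_of_ne hx, Complex.zero_re]
    rw [h4] at h3
    have h5 : ∑ i : Fin d, (-(u (x + Pi.single i 1)).re + -(u (x - Pi.single i 1)).re) =
        -∑ i : Fin d, ((u (x + Pi.single i 1)).re + (u (x - Pi.single i 1)).re) := by
      rw [← Finset.sum_neg_distrib]
      exact Finset.sum_congr rfl fun i _ => by ring
    rw [h5]
    simp [S] at h3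
    linarith
  · intro x
    have h3 := congrArg Complex.im (heq x)
    have h4 : ((Pi.single (0 : Zd d) 1 : Zd d → ℂ) x).im = 0 := by
      by_cases hx : x = 0
      · rw [hx, Pi.single_eq_same, Complex.one_im]
      · rw [Pi.single_eq_of_ne hx, Complex.zero_im]
    rw [h4] at h3
    simp [S] at h3
    linarith
  · rw [hint, h2]
    apply Complex.ext
    · simp
    · simp

/-- the boundary value -/
theorem bv_of_tendsto (hO : S_OSC) (hd : 3 ≤ d) (m0 : Measure ℝ) (h : Res d (fun _ => 2 * d) 0 m0)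
    (e0 : ℝ) (γ : ℂ) (hγ : Tendsto (fun ε : ℝ => ∫ x : ℝ, ((x : ℂ) - ((e0 : ℂ) +
      (ε : ℂ) * Complex.I))⁻¹ ∂m0) (𝓝[>] 0) (𝓝 γ)) :
    BV d (2 * d - e0) (-(starRingEnd ℂ) γ) := by
  intro E t ht
  obtain ⟨ur, ui, hLG, -⟩ := bv_spec m0 h E t ht
  refine ⟨ur, ui, hLG, ?_⟩
  obtain ⟨v, hv⟩ : ∃ v, v = (ur 0 : ℂ) + Complex.I * (ui 0 : ℂ) := ⟨_, rfl⟩
  obtain ⟨z, hz⟩ : ∃ z, z = (E : ℂ) + ((t : ℝ) : ℂ) * Complex.I := ⟨_, rfl⟩
  rw [← hv, ← hz]
  have key : ∀ ε : ℝ, 0 < ε → ‖v - (-(starRingEnd ℂ) (∫ x : ℝ, ((x : ℂ) - ((e0 : ℂ) +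
      (ε : ℂ) * Complex.I))⁻¹ ∂m0))‖ ≤ 2 * 10 ^ d * K5 *
      ‖z - (((2 * d - e0 : ℝ) : ℂ) + ((ε : ℝ) : ℂ) * Complex.I)‖ ^ (1 / 4 : ℝ) := by
    intro ε hε
    obtain ⟨ur', ui', hLG', hval⟩ := bv_spec m0 h (2 * d - e0) ε hε
    have h1 := inf_holder hO hd E (2 * d - e0) t ε ht hε ur ui ur' ui' hLG hLG'
    have h2 : (2 * d - (2 * d - e0) : ℝ) = e0 := by ring
    rw [h2] at hval
    rw [hval, ← hv, ← hz] at h1
    exact h1
  have l1 : Tendsto (fun ε : ℝ => ‖v - (-(starRingEnd ℂ) (∫ x : ℝ, ((x : ℂ) - ((e0 : ℂ) +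
      (ε : ℂ) * Complex.I))⁻¹ ∂m0))‖) (𝓝[>] 0) (𝓝 ‖v - (-(starRingEnd ℂ) γ)‖) := by
    have h1 := (Complex.continuous_conj.tendsto γ).comp hγ
    exact (tendsto_const_nhds.sub h1.neg).norm
  have l2 : Tendsto (fun ε : ℝ => 2 * 10 ^ d * K5 *
      ‖z - (((2 * d - e0 : ℝ) : ℂ) + ((ε : ℝ) : ℂ) * Complex.I)‖ ^ (1 / 4 : ℝ)) (𝓝[>] 0)
      (𝓝 (2 * 10 ^ d * K5 * ‖z - ((2 * d - e0 : ℝ) : ℂ)‖ ^ (1 / 4 : ℝ))) := by
    have hc : Continuous fun ε : ℝ => 2 * 10 ^ d * K5 *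
      ‖z - (((2 * d - e0 : ℝ) : ℂ) + ((ε : ℝ) : ℂ) * Complex.I)‖ ^ (1 / 4 : ℝ) := by
      refine continuous_const.mul (Continuous.rpow_const (by fun_prop) fun _ => ?_)
      right
      norm_num
    have h1 := (hc.tendsto 0).mono_left (nhdsWithin_le_nhds (s := Set.Ioi 0))
    simp only [Complex.ofReal_zero, zero_mul, add_zero] at h1
    exact h1
  refine le_of_tendsto_of_tendsto l1 l2 ?_
  filter_upwards [self_mem_nhdsWithin] with ε hε
  exact key ε hε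

/-- the bound of the boundary value -/
theorem bv_bd (E0 : ℝ) (γ : ℂ) (h : BV d E0 γ) : ‖γ‖ ≤ 2 + 2 * 10 ^ d * K5 := by
  obtain ⟨ur, ui, hLG, hb⟩ := h E0 1 one_pos
  have h1 : ‖((E0 : ℂ) + (((1 : ℝ) : ℝ) : ℂ) * Complex.I) - (E0 : ℂ)‖ = 1 := by
    simp
  rw [h1, Real.one_rpow, mul_one] at hb
  have hn := hLG.norm one_pos
  norm_num at hn
  have e1 : ur 0 ^ 2 ≤ ∑' x, ur x ^ 2 := hLG.sr.le_tsum 0 fun x _ => sq_nonneg _
  have e2 : ui 0 ^ 2 ≤ ∑' x, ui x ^ 2 := hLG.si.le_tsum 0 fun x _ => sq_nonneg _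
  have e3 := sq_nonneg (ur 0)
  have e4 := sq_nonneg (ui 0)
  have a1 : |ur 0| ≤ 1 := abs_le_one_iff_mul_self_le_one.2 (by nlinarith)
  have a2 : |ui 0| ≤ 1 := abs_le_one_iff_mul_self_le_one.2 (by nlinarith)
  have h2 : ‖(ur 0 : ℂ) + Complex.I * (ui 0 : ℂ)‖ ≤ 2 := by
    refine (norm_add_le _ _).trans ?_
    rw [norm_mul, Complex.norm_I, one_mul, Complex.norm_real, Complex.norm_real,
      Real.norm_eq_abs, Real.norm_eq_abs]
    linarith
  have h3 : γ = ((ur 0 : ℂ) + Complex.I * (ui 0 : ℂ)) -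
      (((ur 0 : ℂ) + Complex.I * (ui 0 : ℂ)) - γ) := by ring
  rw [h3]
  refine (norm_sub_le _ _).trans ?_
  linarith

/-- the Poisson integral of a spectral measure -/
theorem po_spec3 (V ξ : Zd d → ℝ) (c0 σ : ℝ) (hV : ∀ x, V x = c0 - σ * ξ x) (ψ : Zd d → ℂ)
    (m : Measure ℝ) [IsFiniteMeasure m] (hm : Res2 d V ψ m)
    (hψ : (Function.support ψ).Finite) (E t : ℝ) (ht : 0 < t) :
    ∃ ur ui : Zd d → ℝ, LS d σ ξ (fun x => (ψ x).re) (fun x => -(ψ x).im) (c0 - E) t ur ui ∧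
      Po m E t = ∑' x, ((ψ x).re * ui x - -(ψ x).im * ur x) := by
  obtain ⟨u, hu, heq, hint⟩ := hm ((E : ℂ) + (t : ℂ) * Complex.I) (by simp [ht.ne'])
  have hn : ∀ x, ‖u x‖ ^ 2 = (u x).re ^ 2 + (u x).im ^ 2 := by
    intro x
    rw [← Complex.normSq_eq_norm_sq, Complex.normSq_apply]
    ring
  refine ⟨fun x => -(u x).re, fun x => (u x).im, ⟨?_, ?_, ?_, ?_⟩, ?_⟩
  · refine Summable.of_nonneg_of_le (fun x => sq_nonneg _) (fun x => ?_) hu
    rw [hn x]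
    nlinarith [sq_nonneg (u x).im]
  · refine Summable.of_nonneg_of_le (fun x => sq_nonneg _) (fun x => ?_) hu
    rw [hn x]
    nlinarith [sq_nonneg (u x).re]
  · intro x
    have h3 := congrArg Complex.re (heq x)
    rw [hV x] at h3
    have h5 : ∑ i : Fin d, (-(u (x + Pi.single i 1)).re + -(u (x - Pi.single i 1)).re) =
        -∑ i : Fin d, ((u (x + Pi.single i 1)).re + (u (x - Pi.single i 1)).re) := by
      rw [← Finset.sum_neg_distrib]
      exact Finset.sum_congr rfl fun i _ => by ring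
    rw [h5]
    simp [S] at h3
    linarith
  · intro x
    have h3 := congrArg Complex.im (heq x)
    rw [hV x] at h3
    simp [S] at h3
    linarith
  · have h1 := Po_im m E t ht
    rw [hint] at h1
    rw [← h1]
    have hs : Summable fun x => (starRingEnd ℂ) (ψ x) * u x := by
      refine summable_of_hasFiniteSupport (hψ.subset fun x hx h0 => hx ?_)
      simp only
      rw [h0, map_zero, zero_mul]
    rw [← Complex.imCLM_apply, Complex.imCLM.map_tsum hs]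
    refine tsum_congr fun x => ?_
    rw [Complex.imCLM_apply, Complex.mul_im, Complex.conj_re, Complex.conj_im]
    ring

/-- the mass of a spectral measure of a unit vector -/
theorem mass_spec3 (V : Zd d → ℝ) (ψ : Zd d → ℂ) (m : Measure ℝ) [IsFiniteMeasure m]
    (hm : Res2 d V ψ m) (hψ : (Function.support ψ).Finite)
    (hψ1 : ∑' x, ((ψ x).re ^ 2 + (-(ψ x).im) ^ 2) = 1) : m.real Set.univ ≤ 1 := by
  apply mass_le
  intro t ht
  obtain ⟨ur, ui, hLS, hPo⟩ := po_spec3 V (fun x => -V x) 0 1 (fun x => by ring) ψ m hm hψ 0 t ht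
  have hr : (Function.support fun x => (ψ x).re).Finite := by
    refine hψ.subset fun x hx h0 => hx ?_
    simp only
    rw [h0, Complex.zero_re]
  have hi : (Function.support fun x => -(ψ x).im).Finite := by
    refine hψ.subset fun x hx h0 => hx ?_
    simp only
    rw [h0, Complex.zero_im, neg_zero]
  rw [hPo, ← hLS.ward hr hi]
  have h1 := hLS.norm hr hi ht hψ1
  calc t * (t * (∑' x, ur x ^ 2 + ∑' x, ui x ^ 2)) ≤ t * (t * (t⁻¹) ^ 2) := by gcongr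
    _ = 1 := by field_simp

end Pool.Agent.TH794.FG
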