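import Pool.Agent.TH794.FG.Site4
import Pool.Agent.TH794.LL2.Tor

/-! The resolvent in a source on the torus. -/

set_option autoImplicit false
set_option linter.unusedSectionVars false

open scoped BigOperators Matrix
open MeasureTheory

namespace Pool.Agent.TH794.FG

open Pool.Agent.W788.BK
open Pool.Agent.W788.MFP.Four (T e NN adj K ft Op q NN_pos e_zero)
open Pool.Agent.TH794.LL2

variable {d L : ℕ} [NeZero L]

/-- the Lorentzian at nearby energies -/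
theorem Lo_lip (E0 s2 t : ℝ) (γ : ℂ) (E E' : ℝ) (ht : 0 < t) (h : 0 ≤ s2 * γ.im) :
    |Lo E0 s2 t γ E - Lo E0 s2 t γ E'| ≤ |E - E'| / t ^ 2 := by
  have h2 : ∀ x : ℝ, t ≤ ‖((E0 - x : ℝ) : ℂ) - (s2 : ℂ) * γ - ((t : ℝ) : ℂ) * Complex.I‖ := by
    intro x
    have h3 := Complex.abs_im_le_norm
      (((E0 - x : ℝ) : ℂ) - (s2 : ℂ) * γ - ((t : ℝ) : ℂ) * Complex.I)
    have h4 : (((E0 - x : ℝ) : ℂ) - (s2 : ℂ) * γ - ((t : ℝ) : ℂ) * Complex.I).im =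
        -(s2 * γ.im + t) := by
      simp
      ring
    rw [h4, abs_neg] at h3
    have := le_abs_self (s2 * γ.im + t)
    linarith
  have n1 := h2 E
  have n2 := h2 E'
  obtain ⟨z, hz⟩ : ∃ z, z = ((E0 - E : ℝ) : ℂ) - (s2 : ℂ) * γ - ((t : ℝ) : ℂ) * Complex.I :=
    ⟨_, rfl⟩
  obtain ⟨z', hz'⟩ : ∃ z, z = ((E0 - E' : ℝ) : ℂ) - (s2 : ℂ) * γ - ((t : ℝ) : ℂ) * Complex.I :=
    ⟨_, rfl⟩
  rw [← hz] at n1
  rw [← hz'] at n2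
  have z1 : z ≠ 0 := by
    intro h
    rw [h, norm_zero] at n1
    linarith
  have z2 : z' ≠ 0 := by
    intro h
    rw [h, norm_zero] at n2
    linarith
  have h5 : |Lo E0 s2 t γ E - Lo E0 s2 t γ E'| ≤ ‖z⁻¹ - z'⁻¹‖ := by
    unfold Lo
    rw [← Complex.sub_im, hz, hz']
    exact Complex.abs_im_le_norm _
  refine h5.trans ?_
  rw [inv_sub_inv z1 z2, norm_div, norm_mul]
  have e1 : z' - z = ((E - E' : ℝ) : ℂ) := by
    rw [hz, hz']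
    push_cast
    ring
  rw [e1, Complex.norm_real, Real.norm_eq_abs]
  apply div_le_div_of_nonneg_left (abs_nonneg _) (by positivity)
  rw [sq]
  exact mul_le_mul n1 n2 ht.le (norm_nonneg _)

/-- the good event -/
def Good3 (δ θ η τ ζ e2 : ℝ) (M : ℕ) (E0 s2 : ℝ) (γ : ℂ) (fr fi : T d L → ℝ) :
    Set (T d L → ℝ) :=
  {V | (∀ x, |UU θ V x| ≤ τ) ∧
    ∀ j ∈ Finset.Icc (-(M : ℤ)) M,
      |FS (E0 + ζ * j) δ θ η fr fi V - Lo E0 s2 (η * δ) γ (E0 + ζ * j)| ≤ e2}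

theorem continuous_FS (E δ θ η : ℝ) (hη : 0 < η)
    (hX : (D0 (d := d) (L := L) E δ).IsHermitian)
    (hA : ∀ y, (AA (d := d) (L := L) E δ θ y).IsHermitian) (fr fi : T d L → ℝ) :
    Continuous fun V : T d L → ℝ => FS E δ θ η fr fi V := by
  unfold FS
  refine Complex.continuous_im.comp ?_
  exact continuous_const.dotProduct ((continuous_RR hX hA hη).matrix_mulVec continuous_const)

theorem good3_meas (δ θ η τ ζ e2 : ℝ) (M : ℕ) (E0 s2 : ℝ) (γ : ℂ) (fr fi : T d L → ℝ)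
    (hη : 0 < η)
    (hX : ∀ E, (D0 (d := d) (L := L) E δ).IsHermitian)
    (hA : ∀ E y, (AA (d := d) (L := L) E δ θ y).IsHermitian) :
    MeasurableSet (Good3 (d := d) (L := L) δ θ η τ ζ e2 M E0 s2 γ fr fi) := by
  have h1 : Good3 (d := d) (L := L) δ θ η τ ζ e2 M E0 s2 γ fr fi = (⋂ x, {V | |UU θ V x| ≤ τ}) ∩
      ⋂ j ∈ Finset.Icc (-(M : ℤ)) M,
        {V | |FS (E0 + ζ * j) δ θ η fr fi V - Lo E0 s2 (η * δ) γ (E0 + ζ * j)| ≤ e2} := by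
    ext V
    simp [Good3]
  rw [h1]
  refine MeasurableSet.inter (MeasurableSet.iInter fun x => ?_)
    (Finset.measurableSet_biInter _ fun j _ => ?_)
  · exact (isClosed_le (continuous_UU θ x).abs continuous_const).measurableSet
  · exact (isClosed_le ((continuous_FS _ δ θ η hη (hX _) (hA _) fr fi).sub
      continuous_const).abs continuous_const).measurableSet

/-- the probability of the good event -/
theorem good3_prob (hES : S_ES) (hTH : S_THIRD) (hFL : S_FLUCT) (hIN : S_INV)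
    (hSU : S_SUP)
    (δ θ η τ ζ e2 a v2 Q β s2 g ε e1 D : ℝ) (M : ℕ) (hδ : 0 < δ) (hη : 0 < η)
    (hη1 : η ≤ 1) (hτ : 0 < τ) (hζ : 0 < ζ)
    (hadm : ∀ E, Adm (D0 E δ) (AA (d := d) (L := L) E δ θ) a v2 Q)
    (μ : Measure ℝ) [IsProbabilityMeasure μ] (hβ : 0 < β) (hμ : ∀ᵐ s ∂μ, |s| ≤ β)
    (h0 : ∫ s, s ∂μ = 0) (h2 : ∫ s, s ^ 2 ∂μ = s2) (hs2 : 0 < s2)
    (hβa : β * a ≤ η) (hβv : β ^ 2 * v2 ≤ 1) (hε0 : 0 ≤ ε) (hε1 : ε ≤ 1 / 2)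
    (he0 : 0 ≤ e1) (he1 : e1 ≤ 1 / 4)
    (hε : 4 * β ^ 3 * a * v2 / η ^ 3 + s2 * (2 * β * Q * Real.sqrt v2 / η ^ 4) ≤ ε)
    (hg : ∀ E' : ℝ, ∑ k : T d L, (JJ E' (η * δ) k)⁻¹ ≤ g * NN d L)
    (hlow : s2 * (∑ P : T d L, (1 - hi θ P)) ≤ e1 * (η ^ 2 * δ ^ 2) * NN d L)
    (fr fi : T d L → ℝ) (hf1 : Bq fr fi = 1) (E0 W ω0 x1 x2 x3 c1 : ℝ) (γ : ℂ) (hω0 : 0 ≤ ω0)
    (hf2 : ∑ k : T d L, ‖fc fr fi k‖ ^ 2 * (adj k - E0) ^ 2 ≤ ω0 ^ 2 * NN d L)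
    (hMW : ζ * M ≤ W)
    (hγ : ∀ z : ℂ, η * δ ≤ z.im → ‖z - (E0 : ℂ)‖ ≤ W + s2 * (2 * g) + η * δ →
      ‖gL d L z - γ‖ ≤ x1)
    (hc1 : 0 < c1) (hγ1 : 2 * c1 ≤ γ.im)
    (hx2 : 4 / 3 * (ε + e1 + (2 * η + 8 * s2 ^ 2 * g ^ 2 / δ ^ 2)) * g + x1 ≤ x2)
    (hx2c : x2 ≤ c1)
    (hx3 : 4 / 3 * (ε + e1 + (2 * η + 8 * s2 ^ 2 * g ^ 2 / δ ^ 2)) * (s2 * c1)⁻¹ +
      (ω0 + s2 * x2) * ((s2 * c1)⁻¹) ^ 2 ≤ x3)
    (he2 : 40 * Real.sqrt D * ((s2 * c1)⁻¹ + x3) + x3 ≤ e2)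
    (hD : 0 < D) (hD1 : D ≤ 1 / 128)
    (hDD : 2 * β ^ 2 / η ^ 2 * (Q + a ^ 2 / η ^ 2) ≤ D ^ 2) :
    (PP (T d L) μ).real (Good3 (d := d) (L := L) δ θ η τ ζ e2 M E0 s2 γ fr fi)ᶜ ≤
      2 * NN d L * Real.exp (-(τ ^ 2 * NN d L /
        (2 * β ^ 2 * ∑ P : T d L, (1 - hi θ P)))) +
      (2 * M + 1) * (2 * Real.exp (1 / 2 - 1 / Real.sqrt (2 * D))) := by
  have hsub : (Good3 (d := d) (L := L) δ θ η τ ζ e2 M E0 s2 γ fr fi)ᶜ ⊆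
      {V | ∃ x : T d L, τ < |∑ y : T d L, V y * K (fun Q => 1 - hi θ Q) (x - y)|} ∪
      ⋃ j ∈ Finset.Icc (-(M : ℤ)) M,
        {V | e2 < |FS (E0 + ζ * j) δ θ η fr fi V - Lo E0 s2 (η * δ) γ (E0 + ζ * j)|} := by
    intro V hV
    simp only [Good3, Set.mem_compl_iff, Set.mem_ofPred_eq, not_and_or, not_forall, not_le] at hV
    rcases hV with ⟨x, hx⟩ | ⟨j, hj, hx⟩
    · exact Or.inl ⟨x, hx⟩
    · exact Or.inr (Set.mem_iUnion₂.2 ⟨j, hj, hx⟩)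
  refine (measureReal_mono hsub).trans ((measureReal_union_le _ _).trans (add_le_add ?_ ?_))
  · exact hSU d L μ β θ τ hβ hμ h0 hτ
  · refine (measureReal_biUnion_finset_le _ _).trans ?_
    have h1 : ∀ j ∈ Finset.Icc (-(M : ℤ)) M,
        (PP (T d L) μ).real {V | e2 < |FS (E0 + ζ * j) δ θ η fr fi V -
          Lo E0 s2 (η * δ) γ (E0 + ζ * j)|} ≤ 2 * Real.exp (1 / 2 - 1 / Real.sqrt (2 * D)) := by
      intro j hj
      have hjW : |(E0 + ζ * j) - E0| ≤ W := by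
        rw [add_sub_cancel_left, abs_mul, abs_of_pos hζ]
        refine le_trans (mul_le_mul_of_nonneg_left ?_ hζ.le) hMW
        rw [Finset.mem_Icc] at hj
        have h1 : |j| ≤ (M : ℤ) := abs_le.2 hj
        exact_mod_cast h1
      have e1 := mean4 hTH hFL hIN (E0 + ζ * j) δ θ η a v2 Q β s2 g ε e1 hδ hη hη1
        (hadm _) μ hβ hμ h0 h2 hs2 hβa hβv hε0 hε1 he0 he1 hε hg hlow fr fi hf1 E0 W ω0 x1 x2 x3
        c1 γ hω0 hf2 hjW hγ hc1 hγ1 hx2 hx2c hx3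
      have e2' := conc2 hES (hadm (E0 + ζ * j)) μ β η D hβ hμ hη hβv hD hD1 hDD
        (wf (E0 + ζ * j) δ fr fi)
      refine le_trans (measureReal_mono ?_) e2'
      intro V hV
      simp only [Set.mem_ofPred_eq] at hV ⊢
      obtain ⟨m, hm⟩ : ∃ m, m = ∫ V, FS (E0 + ζ * j) δ θ η fr fi V ∂(PP (T d L) μ) := ⟨_, rfl⟩
      rw [← hm] at e1
      change 40 * Real.sqrt D * (∫ V, FS (E0 + ζ * j) δ θ η fr fi V ∂(PP (T d L) μ)) <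
        |FS (E0 + ζ * j) δ θ η fr fi V - ∫ V, FS (E0 + ζ * j) δ θ η fr fi V ∂(PP (T d L) μ)|
      rw [← hm]
      have h3 : Lo E0 s2 (η * δ) γ (E0 + ζ * j) ≤ (s2 * c1)⁻¹ := by
        apply Lo_le _ _ _ _ _ _ (by positivity)
        have f1 : s2 * c1 ≤ s2 * γ.im := mul_le_mul_of_nonneg_left (by linarith) hs2.le
        have f2 : 0 < η * δ := by positivity
        linarith
      have h4 : m ≤ (s2 * c1)⁻¹ + x3 := by
        have h5 := (abs_le.1 e1).2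
        linarith
      have h5 : 40 * Real.sqrt D * m ≤ 40 * Real.sqrt D * ((s2 * c1)⁻¹ + x3) :=
        mul_le_mul_of_nonneg_left h4 (by positivity)
      have h6 := abs_sub_le (FS (E0 + ζ * j) δ θ η fr fi V) m
        (Lo E0 s2 (η * δ) γ (E0 + ζ * j))
      linarith
    refine (Finset.sum_le_sum h1).trans ?_
    rw [Finset.sum_const, nsmul_eq_mul, Int.card_Icc]
    have e1 : ((M : ℤ) + 1 - -(M : ℤ)).toNat = 2 * M + 1 := by omega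
    rw [e1]
    push_cast
    exact le_refl _

/-- changing the energy -/
theorem Sol3.shift {E t : ℝ} {V fr fi vr vi rr ri : T d L → ℝ}
    (h : Sol3 E t V fr fi vr vi rr ri) (E' : ℝ) :
    Sol3 E' t V fr fi vr vi (fun x => rr x + (E - E') * vr x)
      (fun x => ri x + (E - E') * vi x) where
  eqr x := by
    have h1 := h.eqr x
    rw [Pool.Agent.W788.MFP.Four.Op_adj] at h1 ⊢
    linarith
  eqi x := by
    have h1 := h.eqi x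
    rw [Pool.Agent.W788.MFP.Four.Op_adj] at h1 ⊢
    linarith

/-- at a net point -/
theorem tor_near3 (E δ θ η κ gf ρ τ Kf : ℝ) (hδ : 0 < δ) (hη : 0 < η) (hη1 : η ≤ 1)
    (hκ : 0 < κ) (hκ2 : κ ≤ 1 / 2)
    {V fr fi vr vi rr ri : T d L → ℝ} (h : Sol3 E (η * δ) V fr fi vr vi rr ri)
    (hg : ∑ k : T d L, (JJ E δ k)⁻¹ * ‖fc fr fi k‖ ^ 2 ≤ gf * NN d L) (hg0 : 0 ≤ gf)
    (hKf : 0 ≤ Kf)
    (hf : ∀ w : T d L → ℝ, |∑ x, V x * w x ^ 2| ≤ κ * q (JJ E δ) w)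
    (hρ0 : 0 ≤ ρ) (hρ : Real.sqrt (Bq rr ri) ≤ ρ) (hτ : 0 ≤ τ)
    (hU : ∀ x : T d L, |UU θ V x| ≤ τ)
    (hB : Real.sqrt (Bq vr vi) ≤ (η * δ)⁻¹)
    (hF0 : 0 ≤ FS E δ θ η fr fi V) (hF : FS E δ θ η fr fi V ≤ Kf)
    (h1 : τ / (η * δ) + 2 * (κ + η) ≤ 1) :
    |pr fr fi vr vi - FS E δ θ η fr fi V| ≤
      2 * (τ / (η * δ) + 2 * (κ + η)) * (Kf + ρ / (η * δ)) +
      2 * Real.sqrt Kf * (2 * (Real.sqrt η * Real.sqrt gf) + 3 * (ρ / Real.sqrt (η * δ))) := by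
  have hc := compare3 E δ θ η κ gf ρ τ hδ hη hκ hκ2 h hg hg0 hf hρ hτ hU _ rfl
  have hw := ward3 h
  obtain ⟨F, hFd⟩ : ∃ F, F = FS E δ θ η fr fi V := ⟨_, rfl⟩
  rw [← hFd] at hc hF0 hF ⊢
  obtain ⟨ν, hν⟩ : ∃ ν, ν = pr fr fi vr vi := ⟨_, rfl⟩
  rw [← hν] at hc hw ⊢
  obtain ⟨B, hBd⟩ : ∃ B, B = Real.sqrt (Bq vr vi) := ⟨_, rfl⟩
  have hB0 : 0 ≤ B := by rw [hBd]; exact Real.sqrt_nonneg _
  have hB2 : B ^ 2 = Bq vr vi := by rw [hBd, Real.sq_sqrt (Bq_nonneg _ _)]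
  rw [← hBd, ← hB2] at hw
  rw [← hBd] at hc hB
  obtain ⟨t, ht⟩ : ∃ t, t = η * δ := ⟨_, rfl⟩
  have ht0 : 0 < t := by rw [ht]; positivity
  rw [← ht] at hw hB h1 ⊢
  obtain ⟨re, hre⟩ : ∃ r, r = Real.sqrt η := ⟨_, rfl⟩
  obtain ⟨rd, hrd⟩ : ∃ r, r = Real.sqrt δ := ⟨_, rfl⟩
  have hre0 : 0 < re := by rw [hre]; exact Real.sqrt_pos.2 hη
  have hrd0 : 0 < rd := by rw [hrd]; exact Real.sqrt_pos.2 hδ
  have hre2 : re ^ 2 = η := by rw [hre]; exact Real.sq_sqrt hη.le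
  have hrd2 : rd ^ 2 = δ := by rw [hrd]; exact Real.sq_sqrt hδ.le
  have hrt : Real.sqrt t = re * rd := by rw [ht, Real.sqrt_mul hη.le, hre, hrd]
  rw [← hrd] at hc
  rw [← hre, hrt]
  obtain ⟨sg, hsg⟩ : ∃ s, s = Real.sqrt gf := ⟨_, rfl⟩
  have hsg0 : 0 ≤ sg := by rw [hsg]; exact Real.sqrt_nonneg _
  rw [← hsg] at hc ⊢
  obtain ⟨rK, hrK⟩ : ∃ r, r = Real.sqrt Kf := ⟨_, rfl⟩
  have hrK0 : 0 ≤ rK := by rw [hrK]; exact Real.sqrt_nonneg _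
  have hrK2 : rK ^ 2 = Kf := by rw [hrK]; exact Real.sq_sqrt hKf
  rw [← hrK]
  -- the prefactor
  have hpre : Real.sqrt (F / η) ≤ rK / re := by
    rw [Real.sqrt_div hF0, ← hre, hrK]
    exact div_le_div_of_nonneg_right (Real.sqrt_le_sqrt hF) hre0.le
  have htr : t = (re * rd) ^ 2 := by rw [ht, mul_pow, hre2, hrd2]
  obtain ⟨w, hw'⟩ : ∃ w, w = re * rd * B := ⟨_, rfl⟩
  have hw0 : 0 ≤ w := by rw [hw']; positivity
  have hw2 : w ^ 2 = t * B ^ 2 := by rw [hw', mul_pow, ← htr]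
  -- the Ward identity
  have hBρ : B * Real.sqrt (Bq rr ri) ≤ ρ / t := by
    calc B * Real.sqrt (Bq rr ri) ≤ t⁻¹ * ρ := mul_le_mul hB hρ (Real.sqrt_nonneg _)
          (inv_nonneg.2 ht0.le)
      _ = ρ / t := by rw [div_eq_mul_inv, mul_comm]
  have hwν : w ^ 2 ≤ ν + ρ / t := by
    have := (abs_le.1 hw).2
    rw [hw2]
    linarith
  obtain ⟨s, hs⟩ : ∃ s, s = 2 * (re * sg) + 3 * (ρ / (re * rd)) := ⟨_, rfl⟩
  rw [← hs]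
  have hs0 : 0 ≤ s := by rw [hs]; positivity
  obtain ⟨κ', hκ'⟩ : ∃ κ', κ' = τ / t + 2 * (κ + η) := ⟨_, rfl⟩
  rw [← hκ'] at h1 ⊢
  have hκ'0 : 0 ≤ κ' := by rw [hκ']; positivity
  have hmain : |ν - F| ≤ rK * (κ' * w + s) := by
    have hin0 : 0 ≤ rd⁻¹ * (ρ + τ * B) + η * (2 * sg + 2 * (κ + η) * (rd * B) +
        2 * (rd⁻¹ * ρ)) := by positivity
    refine hc.trans ((mul_le_mul_of_nonneg_right hpre hin0).trans ?_)
    have e1 : rK / re * (rd⁻¹ * (ρ + τ * B) + η * (2 * sg + 2 * (κ + η) * (rd * B) +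
        2 * (rd⁻¹ * ρ))) = rK * ((τ / t * w + 2 * (κ + η) * w) + (2 * (re * sg) +
        (1 + 2 * η) * (ρ / (re * rd)))) := by
      rw [hw', htr, ← hre2]
      field_simp
      ring
    rw [e1, hκ', hs]
    apply mul_le_mul_of_nonneg_left _ hrK0
    have e2 : (1 + 2 * η) * (ρ / (re * rd)) ≤ 3 * (ρ / (re * rd)) := by
      apply mul_le_mul_of_nonneg_right _ (by positivity)
      linarith
    linarith
  obtain ⟨Δ, hΔ⟩ : ∃ Δ, Δ = |ν - F| := ⟨_, rfl⟩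
  rw [← hΔ] at hmain ⊢
  have hΔ0 : 0 ≤ Δ := by rw [hΔ]; exact abs_nonneg _
  have hνF : ν ≤ Kf + Δ := by
    have := le_abs_self (ν - F)
    rw [← hΔ] at this
    linarith
  have hρt : 0 ≤ ρ / t := by positivity
  have e1 : rK * w ≤ Kf + ρ / t + Δ / 2 := by
    have := sq_nonneg (rK - w)
    nlinarith
  have e2 : rK * (κ' * w) ≤ κ' * (Kf + ρ / t) + Δ / 2 := by
    calc rK * (κ' * w) = κ' * (rK * w) := by ring
      _ ≤ κ' * (Kf + ρ / t + Δ / 2) := mul_le_mul_of_nonneg_left e1 hκ'0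
      _ = κ' * (Kf + ρ / t) + κ' * (Δ / 2) := by ring
      _ ≤ κ' * (Kf + ρ / t) + 1 * (Δ / 2) := by
          have := mul_le_mul_of_nonneg_right h1 (show 0 ≤ Δ / 2 by linarith)
          linarith
      _ = _ := by ring
  have e3 : rK * (κ' * w + s) = rK * (κ' * w) + rK * s := by ring
  rw [e3] at hmain
  linarith

/-- **energies near the energy of the source** -/
theorem tor3 (δ θ η κ ρ τ Kf ζ e2 e3 : ℝ) (M : ℕ) (hδ : 0 < δ) (hη : 0 < η)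
    (hη1 : η ≤ 1) (hκ : 0 < κ)
    (hκ2 : κ ≤ 1 / 2) (hζ : 0 < ζ) (E0 s2 W : ℝ) (γ : ℂ) (fr fi : T d L → ℝ)
    (hf1 : Bq fr fi = 1) (hM : W + ζ ≤ ζ * M) (hsγ : 0 ≤ s2 * γ.im)
    (V : T d L → ℝ) (hV : V ∈ Good3 (d := d) (L := L) δ θ η τ ζ e2 M E0 s2 γ fr fi)
    (hX : ∀ E, (D0 (d := d) (L := L) E δ).IsHermitian)
    (hA : ∀ E y, (AA (d := d) (L := L) E δ θ y).IsHermitian)
    (hf : ∀ (E : ℝ) (w : T d L → ℝ), |∑ x, V x * w x ^ 2| ≤ κ * q (JJ E δ) w)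
    (hρ0 : 0 ≤ ρ) (hτ : 0 ≤ τ)
    (hKe : ∀ E, Lo E0 s2 (η * δ) γ E + e2 ≤ Kf)
    (h1 : τ / (η * δ) + 2 * (κ + η) ≤ 1)
    (h4 : 2 * (τ / (η * δ) + 2 * (κ + η)) * (Kf + 2 * (ρ + ζ * (η * δ)⁻¹) / (η * δ)) +
      2 * Real.sqrt Kf * (2 * (Real.sqrt η * Real.sqrt δ⁻¹) +
        3 * (2 * (ρ + ζ * (η * δ)⁻¹) / Real.sqrt (η * δ))) + e2 + ζ / (η * δ) ^ 2 ≤ e3)
    (E : ℝ) (hE : |E - E0| ≤ W) (vr vi rr ri : T d L → ℝ)
    (h : Sol3 E (η * δ) V fr fi vr vi rr ri)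
    (hρ : Real.sqrt (Bq rr ri) ≤ ρ)
    (hB : Real.sqrt (Bq vr vi) ≤ (η * δ)⁻¹) :
    |pr fr fi vr vi - Lo E0 s2 (η * δ) γ E| ≤ e3 := by
  have ht0 : 0 < η * δ := by positivity
  have hN := NN_pos (d := d) (L := L)
  obtain ⟨j, hj⟩ : ∃ j : ℤ, j = ⌊(E - E0) / ζ⌋ := ⟨_, rfl⟩
  have f3 := Int.floor_le ((E - E0) / ζ)
  have f4 := Int.lt_floor_add_one ((E - E0) / ζ)
  rw [← hj] at f3 f4
  have f5 : ζ * (j : ℝ) ≤ E - E0 := by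
    calc ζ * (j : ℝ) ≤ ζ * ((E - E0) / ζ) := by gcongr
      _ = E - E0 := by field_simp
  have f6 : E - E0 ≤ ζ * (j : ℝ) + ζ := by
    calc E - E0 = ζ * ((E - E0) / ζ) := by field_simp
      _ ≤ ζ * ((j : ℝ) + 1) := by gcongr
      _ = _ := by ring
  have hEj : |E - (E0 + ζ * j)| ≤ ζ := by
    rw [abs_le]
    constructor <;> linarith
  have hjI : j ∈ Finset.Icc (-(M : ℤ)) M := by
    have e1 := abs_le.1 hE
    rw [Finset.mem_Icc]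
    constructor
    · rw [hj, Int.le_floor, le_div_iff₀ hζ]
      push_cast
      linarith [e1.1]
    · have e2 : ζ * (j : ℝ) ≤ ζ * M := by linarith [e1.2]
      have e3 : (j : ℝ) ≤ M := le_of_mul_le_mul_left e2 hζ
      exact_mod_cast e3
  have hF := hV.2 j hjI
  have hsh := h.shift (E0 + ζ * j)
  have hρ' : Real.sqrt (Bq (fun x => rr x + (E - (E0 + ζ * j)) * vr x)
      (fun x => ri x + (E - (E0 + ζ * j)) * vi x)) ≤ 2 * (ρ + ζ * (η * δ)⁻¹) := by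
    refine (sqrt_Bq_add _ _ _ _ _).trans ?_
    have : |E - (E0 + ζ * j)| * Real.sqrt (Bq vr vi) ≤ ζ * (η * δ)⁻¹ :=
      mul_le_mul hEj hB (Real.sqrt_nonneg _) hζ.le
    linarith
  have hF0 : 0 ≤ FS (E0 + ζ * j) δ θ η fr fi V := by
    have e1 := (ward (hX (E0 + ζ * j)) (hA (E0 + ζ * j)) hη V
      (wf (d := d) (L := L) (E0 + ζ * j) δ fr fi)).1
    change FS (E0 + ζ * j) δ θ η fr fi V = _ at e1
    rw [e1]
    exact mul_nonneg hη.le (nsq_nonneg _)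
  have hFK : FS (E0 + ζ * j) δ θ η fr fi V ≤ Kf := by
    have e1 := hKe (E0 + ζ * j)
    have e2 := (abs_le.1 hF).2
    linarith
  have hKf : 0 ≤ Kf := hF0.trans hFK
  have hg : ∑ k : T d L, (JJ (E0 + ζ * j) δ k)⁻¹ * ‖fc fr fi k‖ ^ 2 ≤ δ⁻¹ * NN d L := by
    calc ∑ k : T d L, (JJ (E0 + ζ * j) δ k)⁻¹ * ‖fc fr fi k‖ ^ 2 ≤
        ∑ k : T d L, δ⁻¹ * ‖fc fr fi k‖ ^ 2 := by
          refine Finset.sum_le_sum fun k _ => mul_le_mul_of_nonneg_right ?_ (sq_nonneg _)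
          exact inv_anti₀ hδ (Pool.Agent.W363.BK.JJ_ge _ δ hδ k)
      _ = _ := by rw [← Finset.mul_sum, sum_fc_one, hf1, mul_one]
  have hn := tor_near3 (E0 + ζ * j) δ θ η κ δ⁻¹ (2 * (ρ + ζ * (η * δ)⁻¹)) τ Kf hδ hη hη1 hκ hκ2
    hsh hg (inv_nonneg.2 hδ.le) hKf (hf _) (by positivity) hρ' hτ hV.1 hB hF0 hFK h1
  have hl := Lo_lip E0 s2 (η * δ) γ (E0 + ζ * j) E ht0 hsγ
  have hl2 : |E0 + ζ * j - E| / (η * δ) ^ 2 ≤ ζ / (η * δ) ^ 2 := by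
    rw [abs_sub_comm]
    exact div_le_div_of_nonneg_right hEj (by positivity)
  have a1 := abs_sub_le (pr fr fi vr vi) (FS (E0 + ζ * j) δ θ η fr fi V)
    (Lo E0 s2 (η * δ) γ E)
  have a2 := abs_sub_le (FS (E0 + ζ * j) δ θ η fr fi V) (Lo E0 s2 (η * δ) γ (E0 + ζ * j))
    (Lo E0 s2 (η * δ) γ E)
  linarith

end Pool.Agent.TH794.FG
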